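import Mathlib

set_option autoImplicit false

namespace Pool.Agent.Helper49.Girth

open MvPolynomial

/-- Adjacency in an algebraically defined graph: the point `p` and the line `l` are incident
iff `p_i + l_i = f_i(p_0, l_0, ..., p_{i-1}, l_{i-1})` for every coordinate `i` except the
first one. -/
def AlgAdj {R : Type*} [CommRing R] {m : ℕ}
    (f : (i : Fin m) → MvPolynomial (Fin (i : ℕ) ⊕ Fin (i : ℕ)) R) (p l : Fin m → R) : Prop :=
  ∀ i : Fin m, 0 < (i : ℕ) → p i + l i =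
    eval (Sum.elim (fun k : Fin (i : ℕ) => p (Fin.castLE i.isLt.le k))
      (fun k : Fin (i : ℕ) => l (Fin.castLE i.isLt.le k))) (f i)

/-- The algebraically defined bipartite graph: the vertices are the points `p ∈ R^m` (left
summand) and the lines `l ∈ R^m` (right summand). -/
def algGraph {R : Type*} [CommRing R] {m : ℕ}
    (f : (i : Fin m) → MvPolynomial (Fin (i : ℕ) ⊕ Fin (i : ℕ)) R) :
    SimpleGraph ((Fin m → R) ⊕ (Fin m → R)) where
  Adj x y :=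
    (∃ p l, x = Sum.inl p ∧ y = Sum.inr l ∧ AlgAdj f p l) ∨
    (∃ p l, x = Sum.inr l ∧ y = Sum.inl p ∧ AlgAdj f p l)
  symm := ⟨by
    rintro x y (⟨p, l, rfl, rfl, h⟩ | ⟨p, l, rfl, rfl, h⟩)
    · exact Or.inr ⟨p, l, rfl, rfl, h⟩
    · exact Or.inl ⟨p, l, rfl, rfl, h⟩⟩
  loopless := ⟨by
    rintro x (⟨p, l, h1, h2, -⟩ | ⟨p, l, h1, h2, -⟩)
    · rw [h1] at h2; cases h2
    · rw [h1] at h2; cases h2⟩

theorem algGraph_adj_inl_inr {R : Type*} [CommRing R] {m : ℕ}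
    (f : (i : Fin m) → MvPolynomial (Fin (i : ℕ) ⊕ Fin (i : ℕ)) R) (p l : Fin m → R) :
    (algGraph f).Adj (Sum.inl p) (Sum.inr l) ↔ AlgAdj f p l := by
  constructor
  · rintro (⟨p', l', h1, h2, h⟩ | ⟨p', l', h1, h2, h⟩)
    · cases h1; cases h2; exact h
    · cases h1
  · intro h
    exact Or.inl ⟨p, l, rfl, rfl, h⟩

theorem algGraph_adj_inr_inl {R : Type*} [CommRing R] {m : ℕ}
    (f : (i : Fin m) → MvPolynomial (Fin (i : ℕ) ⊕ Fin (i : ℕ)) R) (p l : Fin m → R) :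
    (algGraph f).Adj (Sum.inr l) (Sum.inl p) ↔ AlgAdj f p l := by
  rw [SimpleGraph.adj_comm, algGraph_adj_inl_inr]

theorem algGraph_not_adj_inl_inl {R : Type*} [CommRing R] {m : ℕ}
    (f : (i : Fin m) → MvPolynomial (Fin (i : ℕ) ⊕ Fin (i : ℕ)) R) (p p' : Fin m → R) :
    ¬ (algGraph f).Adj (Sum.inl p) (Sum.inl p') := by
  rintro (⟨_, _, h1, h2, -⟩ | ⟨_, _, h1, h2, -⟩)
  · cases h2
  · cases h1

theorem algGraph_not_adj_inr_inr {R : Type*} [CommRing R] {m : ℕ}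
    (f : (i : Fin m) → MvPolynomial (Fin (i : ℕ) ⊕ Fin (i : ℕ)) R) (l l' : Fin m → R) :
    ¬ (algGraph f).Adj (Sum.inr l) (Sum.inr l') := by
  rintro (⟨_, _, h1, h2, -⟩ | ⟨_, _, h1, h2, -⟩)
  · cases h1
  · cases h2

end Pool.Agent.Helper49.Girth
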