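import Mathlib

set_option autoImplicit false
set_option maxHeartbeats 400000

namespace Pool.Agent.Helper49.Girth

open MvPolynomial

variable {K : Type*} [Field K] {ι : Type*}

theorem prime_of_totalDegree_eq_one (p : MvPolynomial ι K) (hp : p.totalDegree = 1) :
    Prime p := by
  have h : Irreducible p := by
    apply irreducible_of_totalDegree_eq_one hp
    intro x hx
    have hp0 : p ≠ 0 := by
      rintro rfl
      simp at hp
    obtain ⟨s, hs⟩ := MvPolynomial.ne_zero_iff.mp hp0
    have h1 := hx s
    have : x ≠ 0 := by
      rintro rfl
      rw [zero_dvd_iff] at h1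
      exact hs h1
    exact this.isUnit
  exact h.prime

theorem prime_X' (i : ι) : Prime (X i : MvPolynomial ι K) :=
  prime_of_totalDegree_eq_one _ (totalDegree_X i)

theorem totalDegree_X_sub_X {i j : ι} (hij : i ≠ j) :
    (X i - X j : MvPolynomial ι K).totalDegree = 1 := by
  classical
  apply le_antisymm
  · refine (totalDegree_sub _ _).trans ?_
    rw [totalDegree_X, totalDegree_X, max_self]
  · have h1 : (Finsupp.single i 1 : ι →₀ ℕ) ∈ (X i - X j : MvPolynomial ι K).support := by
      rw [mem_support_iff, coeff_sub, coeff_X, coeff_X]
      have : (Finsupp.single j 1 : ι →₀ ℕ) ≠ Finsupp.single i 1 := by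
        intro h
        exact hij ((Finsupp.single_left_injective one_ne_zero) h).symm
      rw [if_neg this]
      simp
    have h2 := le_totalDegree h1
    simpa using h2

theorem prime_X_sub_X {i j : ι} (hij : i ≠ j) : Prime (X i - X j : MvPolynomial ι K) :=
  prime_of_totalDegree_eq_one _ (totalDegree_X_sub_X hij)

end Pool.Agent.Helper49.Girth
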