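import Mathlib

set_option autoImplicit false

namespace Pool.Agent.Helper49.Girth

/-- The type (point or line) of the `k`-th vertex of a walk which starts at a vertex of
type `σ`. -/
def ty (σ : Bool) : ℕ → Bool
  | 0 => σ
  | (k + 1) => !(ty σ k)

theorem ty_zero (σ : Bool) : ty σ 0 = σ := rfl

theorem ty_succ (σ : Bool) (k : ℕ) : ty σ (k + 1) = !(ty σ k) := rfl

theorem ty_add (σ : Bool) (a c : ℕ) : ty σ (a + c) = ty (ty σ a) c := by
  induction c with
  | zero => rfl
  | succ c ih => rw [← Nat.add_assoc, ty_succ, ih, ty_succ]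

theorem ty_two (σ : Bool) : ty σ 2 = σ := by
  simp [ty]

theorem ty_add_two (σ : Bool) (k : ℕ) : ty σ (k + 2) = ty σ k := by
  simp [ty]

theorem ty_not (σ : Bool) (k : ℕ) : ty (!σ) k = !(ty σ k) := by
  induction k with
  | zero => rfl
  | succ k ih => rw [ty_succ, ih, ty_succ]

/-- The auxiliary sequence. -/
def zz (a c : ℤ) : ℕ → ℤ × ℤ
  | 0 => (0, 1)
  | (k + 1) => ((zz a c k).2, (if k % 2 = 0 then a else c) * (zz a c k).2 - (zz a c k).1)

theorem zz_snd (a c : ℤ) (k : ℕ) : (zz a c k).2 = (zz a c (k + 1)).1 := rfl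

/-- odd part -/
def uu (D : ℤ) : ℕ → ℤ × ℤ
  | 0 => (1, D - 1)
  | (k + 1) => ((uu D k).2, (D - 2) * (uu D k).2 - (uu D k).1)

theorem zz_pair (a c : ℤ) (k : ℕ) :
    (∃ e : ℤ, (zz a c (2 * k)).1 = a * e ∧ (zz a c (2 * k)).2 = (uu (a * c) k).1 ∧
      (uu (a * c) k).2 = (a * c - 1) * (uu (a * c) k).1 - a * c * e) := by
  induction k with
  | zero => exact ⟨0, by simp [zz, uu]⟩
  | succ k ih =>
    obtain ⟨e, h1, h2, h3⟩ := ih
    have e1 : (zz a c (2 * (k + 1))).1 = a * (zz a c (2 * k)).2 - (zz a c (2 * k)).1 := by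
      have : 2 * (k + 1) = (2 * k + 1) + 1 := by ring
      rw [this, zz]
      simp [zz]
    have e2 : (zz a c (2 * (k + 1))).2 =
        c * (a * (zz a c (2 * k)).2 - (zz a c (2 * k)).1) - (zz a c (2 * k)).2 := by
      have : 2 * (k + 1) = (2 * k + 1) + 1 := by ring
      rw [this, zz]
      have h : (2 * k + 1) % 2 = 1 := by omega
      simp [zz, h]
    refine ⟨(uu (a * c) k).1 - e, ?_, ?_, ?_⟩
    · rw [e1, h1, h2]; ring
    · rw [e2, h1, h2]
      simp only [uu]
      rw [h3]; ring
    · simp only [uu]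
      rw [h3]; ring

theorem uu_pos (D : ℤ) (hD : 4 ≤ D) (k : ℕ) :
    1 ≤ (uu D k).1 ∧ (uu D k).1 + 2 ≤ (uu D k).2 := by
  induction k with
  | zero => simp only [uu]; omega
  | succ k ih =>
    simp only [uu]
    constructor
    · omega
    · nlinarith [ih.1, ih.2, mul_nonneg (sub_nonneg.mpr hD) (by linarith [ih.1, ih.2] :
        (0 : ℤ) ≤ (uu D k).2)]

/-- The combinatorial end of the argument. -/
theorem comb (m : ℕ) (hm : 2 ≤ m) (b : Bool → ℕ) (x : Bool → ℕ → ℕ)
    (h0 : ∀ σ, x σ 0 = 0) (hm0 : ∀ σ, x σ m = 0)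
    (h : ∀ σ j, 1 ≤ j → j < m →
      b (ty σ (j - 1)) * x σ j = x σ (j - 1) + x σ (j + 1) + if j = 1 then 1 else 0) :
    m = 2 ∨ m = 3 ∨ m = 5 := by
  -- the key: for each `σ`
  have key : ∀ σ, ∃ y : ℤ, 0 ≤ y ∧
      (∀ k < m, (x σ (m - k) : ℤ) = y * (zz (b (ty σ m)) (b (ty σ (m + 1))) k).1) ∧
      1 = y * (zz (b (ty σ m)) (b (ty σ (m + 1))) m).1 := by
    intro σ
    set a : ℤ := ((b (ty σ m) : ℕ) : ℤ) with ha
    set c : ℤ := ((b (ty σ (m + 1)) : ℕ) : ℤ) with hc
    have hb : ∀ j, 1 ≤ j → j < m →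
        ((b (ty σ (j - 1)) : ℕ) : ℤ) = if (m - j - 1) % 2 = 0 then a else c := by
      intro j h1 h2
      obtain ⟨i, rfl⟩ : ∃ i, m = j + 1 + i := ⟨m - j - 1, by omega⟩
      have h3 : j + 1 + i - j - 1 = i := by omega
      rw [h3]
      have key : ∀ i n, (b (ty σ n) : ℤ) =
          if i % 2 = 0 then (b (ty σ (n + 2 + i)) : ℤ) else (b (ty σ (n + 2 + i + 1)) : ℤ) := by
        intro i
        induction i with
        | zero => intro n; simp [ty_add_two]
        | succ i ih =>
          intro n
          rw [ih n]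
          rcases Nat.mod_two_eq_zero_or_one i with hi | hi
          · have : (i + 1) % 2 = 1 := by omega
            rw [hi, this]
            simp only [if_true, one_ne_zero, if_false]
            congr 2
            have : n + 2 + (i + 1) + 1 = n + 2 + i + 2 := by ring
            rw [this, ty_add_two]
          · have : (i + 1) % 2 = 0 := by omega
            rw [hi, this]
            simp only [if_true, one_ne_zero, if_false]
            congr 2
      have h4 := key i (j - 1)
      rw [h4, ha, hc]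
      have h5 : j - 1 + 2 + i = j + 1 + i := by omega
      rw [h5]
    have main : ∀ k, (k < m → (x σ (m - k) : ℤ) = x σ (m - 1) * (zz a c k).1) ∧
        (k + 1 < m → (x σ (m - (k + 1)) : ℤ) = x σ (m - 1) * (zz a c k).2) := by
      intro k
      induction k with
      | zero => simp [zz, hm0]
      | succ k ih =>
        refine ⟨fun hk => ?_, fun hk => ?_⟩
        · simpa [zz] using ih.2 hk
        · have i1 := ih.1 (by omega)
          have i2 := ih.2 (by omega)
          have e := h σ (m - (k + 1)) (by omega) (by omega)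
          have e' := hb (m - (k + 1)) (by omega) (by omega)
          have e1 : m - (m - (k + 1)) - 1 = k := by omega
          have e2 : m - (k + 1) - 1 = m - (k + 1 + 1) := by omega
          have e3 : m - (k + 1) + 1 = m - k := by omega
          have e4 : m - (k + 1) ≠ 1 := by omega
          rw [e1] at e'
          rw [e3, if_neg e4, Nat.add_zero] at e
          have e5 : ((b (ty σ (m - (k + 1) - 1)) : ℕ) : ℤ) * (x σ (m - (k + 1)) : ℤ) =
            x σ (m - (k + 1 + 1)) + x σ (m - k) := by
            rw [← e2]; exact_mod_cast e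
          rw [e', i1, i2] at e5
          simp only [zz]
          linear_combination -e5
    refine ⟨x σ (m - 1), by positivity, ?_, ?_⟩
    · intro k hk
      exact (main k).1 hk
    · obtain ⟨k, rfl⟩ : ∃ k, m = k + 2 := ⟨m - 2, by omega⟩
      have i1 := (main k).1 (by omega)
      have i2 := (main k).2 (by omega)
      have e := h σ 1 le_rfl (by omega)
      have e' := hb 1 le_rfl (by omega)
      have e1 : k + 2 - 1 - 1 = k := by omega
      rw [e1] at e'
      rw [if_pos rfl, Nat.sub_self, h0, Nat.zero_add] at e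
      have e5 : ((b (ty σ (1 - 1)) : ℕ) : ℤ) * (x σ 1 : ℤ) = x σ 2 + 1 := by exact_mod_cast e
      have e6 : k + 2 - (k + 1) = 1 := by omega
      have e7 : k + 2 - k = 2 := by omega
      rw [e6] at i2
      rw [e7] at i1
      rw [e', i1, i2] at e5
      simp only [zz]
      linear_combination -e5
  rcases Nat.even_or_odd' m with ⟨k, hk | hk⟩
  · -- even case
    left
    have hab : ∀ σ, b (ty σ m) = 1 := by
      intro σ
      obtain ⟨y, hy, -, h1⟩ := key σ
      obtain ⟨e, he, -, -⟩ := zz_pair (b (ty σ m)) (b (ty σ (m + 1))) k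
      rw [← hk] at he
      rw [he] at h1
      have : ((b (ty σ m) : ℕ) : ℤ) ∣ 1 := ⟨y * e, by rw [h1]; ring⟩
      have h2 : (b (ty σ m)) ∣ 1 := by exact_mod_cast this
      exact Nat.dvd_one.mp h2
    by_contra hne
    have hm4 : 4 ≤ m := by omega
    obtain ⟨y, hy, h2, h1⟩ := key true
    have hb1 : b (ty true m) = 1 := hab true
    have hb2 : b (ty true (m + 1)) = 1 := by
      have := hab (!true)
      rw [ty_not] at this
      rw [ty_succ]; exact this
    rw [hb1, hb2] at h1 h2
    have hz4 : (zz ((1 : ℕ) : ℤ) ((1 : ℕ) : ℤ) 4).1 = -1 := by simp [zz]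
    rcases Nat.lt_or_ge 4 m with h4 | h4
    · have h3 := h2 4 h4
      rw [hz4] at h3
      have h5 : (0 : ℤ) ≤ x true (m - 4) := by positivity
      have h6 : y = 0 := by linarith
      rw [h6] at h1
      simp at h1
    · have h5 : m = 4 := by omega
      rw [h5, hz4] at h1
      linarith
  · -- odd case
    right
    obtain ⟨y, hy, h2, h1⟩ := key true
    set a : ℤ := ((b (ty true m) : ℕ) : ℤ) with ha
    set c : ℤ := ((b (ty true (m + 1)) : ℕ) : ℤ) with hc
    have hodd : ∀ i, (zz a c (2 * i + 1)).1 = (uu (a * c) i).1 := by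
      intro i
      obtain ⟨e, -, h3, -⟩ := zz_pair a c i
      rw [← zz_snd]; exact h3
    have hD0 : 0 ≤ a * c := by positivity
    have hy1 : y ∣ 1 := ⟨_, h1⟩
    have hy2 : y = 1 := by
      rcases Int.isUnit_iff.mp (isUnit_of_dvd_one hy1) with h | h
      · exact h
      · omega
    rw [hy2, one_mul] at h1
    have hnn : ∀ i, 2 * i + 1 < m → 0 ≤ (uu (a * c) i).1 := by
      intro i hi
      have h3 := h2 (2 * i + 1) hi
      rw [hy2, one_mul, hodd] at h3
      rw [← h3]; positivity
    have hlast : (uu (a * c) k).1 = 1 := by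
      rw [hk, hodd] at h1
      exact h1.symm
    have hk1 : 1 ≤ k := by omega
    by_contra hcon
    push Not at hcon
    have hk1' : k ≠ 1 := by omega
    have hk2' : k ≠ 2 := by omega
    -- now `k ≥ 3`
    have hk3 : 3 ≤ k := by omega
    have n1 := hnn 1 (by omega)
    have n2 := hnn 2 (by omega)
    rcases Nat.lt_or_ge (2 * 3 + 1) m with h7 | h7
    · have n3 := hnn 3 h7
      by_cases hD : 4 ≤ a * c
      · have := (uu_pos (a * c) hD (k - 1)).1
        have h' := (uu_pos (a * c) hD (k - 1)).2
        have e1 : (uu (a * c) (k - 1)).2 = (uu (a * c) k).1 := by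
          obtain ⟨k', rfl⟩ : ∃ k', k = k' + 1 := ⟨k - 1, by omega⟩
          rfl
        rw [e1, hlast] at h'
        omega
      · push Not at hD
        simp only [uu] at n1 n2 n3
        have : a * c = 0 ∨ a * c = 1 ∨ a * c = 2 ∨ a * c = 3 := by omega
        rcases this with h | h | h | h <;> rw [h] at n1 n2 n3 <;> revert n1 n2 n3 <;> norm_num
    · have hk4 : k = 3 := by omega
      subst hk4
      by_cases hD : 4 ≤ a * c
      · have h' := (uu_pos (a * c) hD 2).2
        have h'' := (uu_pos (a * c) hD 2).1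
        have e1 : (uu (a * c) 2).2 = (uu (a * c) 3).1 := rfl
        rw [e1, hlast] at h'
        omega
      · push Not at hD
        simp only [uu] at n1 n2 hlast
        have : a * c = 0 ∨ a * c = 1 ∨ a * c = 2 ∨ a * c = 3 := by omega
        rcases this with h | h | h | h <;> rw [h] at n1 n2 hlast <;>
          revert n1 n2 hlast <;> norm_num

end Pool.Agent.Helper49.Girth
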