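import Mathlib
import Pool.Agent.Helper49.Girth.Comb

set_option autoImplicit false

noncomputable section

namespace Pool.Agent.Helper49.Girth

open MvPolynomial

/-- A polynomial neighbourhood system: the neighbour with first coordinate `w` of a vertex `v`
of type `σ` has coordinates `N σ i (w, v)`. -/
structure Sys (K : Type*) [CommRing K] (m : ℕ) [NeZero m] where
  N : Bool → Fin m → MvPolynomial (Option (Fin m)) K
  fst : ∀ σ, N σ 0 = X none
  inv : ∀ σ i, aeval (fun o : Option (Fin m) => o.elim (X (some 0)) (N σ)) (N (!σ) i) =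
    (X (some i) : MvPolynomial (Option (Fin m)) K)

namespace Sys

variable {K : Type*} [CommRing K] {m : ℕ} [NeZero m] (S : Sys K m)

section points

variable {E : Type*} [CommRing E] [Algebra K E] {L : Type*} [CommRing L] [Algebra K L]

/-- The neighbour with first coordinate `w` of `v`. -/
def nb (σ : Bool) (v : Fin m → E) (w : E) : Fin m → E :=
  fun i => aeval (fun o : Option (Fin m) => o.elim w v) (S.N σ i)

theorem nb_zero (σ : Bool) (v : Fin m → E) (w : E) : S.nb σ v w 0 = w := by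
  simp [nb, S.fst]

theorem map_nb (φ : E →ₐ[K] L) (σ : Bool) (v : Fin m → E) (w : E) :
    (fun i => φ (S.nb σ v w i)) = S.nb σ (fun i => φ (v i)) (φ w) := by
  funext i
  simp only [nb]
  rw [MvPolynomial.comp_aeval_apply]
  congr 1
  apply MvPolynomial.algHom_ext
  intro o
  cases o <;> simp

theorem map_nb_apply (φ : E →ₐ[K] L) (σ : Bool) (v : Fin m → E) (w : E) (i : Fin m) :
    φ (S.nb σ v w i) = S.nb σ (fun i => φ (v i)) (φ w) i :=
  congrFun (S.map_nb φ σ v w) i

theorem nb_nb (σ : Bool) (v : Fin m → E) (w : E) :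
    S.nb (!σ) (S.nb σ v w) (v 0) = v := by
  funext i
  have h := congrArg (aeval (fun o : Option (Fin m) => o.elim w v)) (S.inv σ i)
  rw [MvPolynomial.comp_aeval_apply] at h
  simp only [aeval_X, Option.elim_some] at h
  rw [← h]
  simp only [nb]
  congr 1
  apply MvPolynomial.algHom_ext
  intro o
  cases o <;> simp [nb]

theorem nb_nb' (σ : Bool) (v : Fin m → E) (w : E) :
    S.nb σ (S.nb (!σ) v w) (v 0) = v := by
  have := S.nb_nb (!σ) v w
  rwa [Bool.not_not] at this

/-- The walk from `v` with first coordinates `ω 1, ω 2, ...`. -/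
def walk (σ : Bool) (v : Fin m → E) (ω : ℕ → E) : ℕ → Fin m → E
  | 0 => v
  | (k + 1) => S.nb (ty σ k) (walk σ v ω k) (ω (k + 1))

@[simp] theorem walk_zero (σ : Bool) (v : Fin m → E) (ω : ℕ → E) : S.walk σ v ω 0 = v := rfl

theorem walk_succ (σ : Bool) (v : Fin m → E) (ω : ℕ → E) (k : ℕ) :
    S.walk σ v ω (k + 1) = S.nb (ty σ k) (S.walk σ v ω k) (ω (k + 1)) := rfl

theorem walk_fst (σ : Bool) (v : Fin m → E) (ω : ℕ → E) (h : ω 0 = v 0) (k : ℕ) :
    S.walk σ v ω k 0 = ω k := by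
  cases k with
  | zero => simp [h]
  | succ k => rw [walk_succ, nb_zero]

theorem walk_add (σ : Bool) (v : Fin m → E) (ω : ℕ → E) (a c : ℕ) :
    S.walk σ v ω (a + c) = S.walk (ty σ a) (S.walk σ v ω a) (fun k => ω (a + k)) c := by
  induction c with
  | zero => rfl
  | succ c ih => rw [← Nat.add_assoc, walk_succ, ih, walk_succ, ty_add, Nat.add_assoc]

theorem walk_congr (σ : Bool) (v : Fin m → E) (ω ω' : ℕ → E) (n : ℕ)
    (h : ∀ k, 1 ≤ k → k ≤ n → ω k = ω' k) : S.walk σ v ω n = S.walk σ v ω' n := by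
  induction n with
  | zero => rfl
  | succ n ih =>
    rw [walk_succ, walk_succ, ih (fun k h1 h2 => h k h1 (by omega)), h (n + 1) (by omega) le_rfl]

theorem walk_rev (σ : Bool) (v : Fin m → E) (ω : ℕ → E) (k : ℕ) :
    S.walk σ v ω k = S.nb (ty σ (k + 1)) (S.walk σ v ω (k + 1)) (S.walk σ v ω k 0) := by
  rw [walk_succ, ty_succ, nb_nb]

theorem map_walk (φ : E →ₐ[K] L) (σ : Bool) (v : Fin m → E) (ω : ℕ → E) (n : ℕ) :
    (fun i => φ (S.walk σ v ω n i)) = S.walk σ (fun i => φ (v i)) (fun k => φ (ω k)) n := by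
  induction n with
  | zero => rfl
  | succ n ih => rw [walk_succ, map_nb, ih, walk_succ]

theorem map_walk_apply (φ : E →ₐ[K] L) (σ : Bool) (v : Fin m → E) (ω : ℕ → E) (n : ℕ)
    (i : Fin m) :
    φ (S.walk σ v ω n i) = S.walk σ (fun i => φ (v i)) (fun k => φ (ω k)) n i :=
  congrFun (S.map_walk φ σ v ω n) i

end points

/-- Non-backtracking walks of length `n` are determined by their ends. -/
def Inj (E : Type*) [CommRing E] [Algebra K E] (n : ℕ) : Prop :=
  ∀ (σ : Bool) (v : Fin m → E) (ω ω' : ℕ → E), ω 0 = v 0 → ω' 0 = v 0 →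
    (∀ k, 1 ≤ k → k < n → ω (k + 1) ≠ ω (k - 1)) →
    (∀ k, 1 ≤ k → k < n → ω' (k + 1) ≠ ω' (k - 1)) →
    S.walk σ v ω n = S.walk σ v ω' n → ∀ k, k ≤ n → ω k = ω' k

end Sys

end Pool.Agent.Helper49.Girth
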