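import Mathlib
import Pool.Agent.Helper49.Girth.Sys

set_option autoImplicit false

noncomputable section

namespace Pool.Agent.Helper49.Girth

open MvPolynomial

namespace Sys

variable {K : Type*} [Field K] {m : ℕ} [NeZero m] (S : Sys K m)

section

variable (K m)

/-- index type for a vertex and two walks -/
abbrev Ix2 (n : ℕ) := Fin m ⊕ (Fin n ⊕ Fin n)

variable {K m}

/-- The coordinates of a point with two walks. -/
def pt2 {L : Type*} (n : ℕ) (v : Fin m → L) (ω ω' : ℕ → L) : Ix2 m n → L :=
  Sum.elim v (Sum.elim (fun k => ω (k + 1)) (fun k => ω' (k + 1)))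

end

/-- Nullstellensatz: injectivity on points over all fields. -/
theorem inj_field [IsAlgClosed K] {n : ℕ} (h : S.Inj K n) (L : Type*) [Field L] [Algebra K L] :
    S.Inj L n := by
  classical
  intro σ v ω ω' h0 h0' ht ht' hw
  -- universal data
  let R := MvPolynomial (Ix2 m n) K
  let vu : Fin m → R := fun i => X (Sum.inl i)
  let ωu : ℕ → R := fun k => match k with
    | 0 => X (Sum.inl 0)
    | (k + 1) => if hk : k < n then X (Sum.inr (Sum.inl ⟨k, hk⟩)) else 0
  let ωu' : ℕ → R := fun k => match k with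
    | 0 => X (Sum.inl 0)
    | (k + 1) => if hk : k < n then X (Sum.inr (Sum.inr ⟨k, hk⟩)) else 0
  -- specialization at points
  have hspec : ∀ (M : Type _) [Field M] [Algebra K M] (a : Ix2 m n → M),
      ∀ k ≤ n, aeval a (ωu k) = (match k with
        | 0 => a (Sum.inl 0)
        | (k + 1) => if hk : k < n then a (Sum.inr (Sum.inl ⟨k, hk⟩)) else 0) := by
    intro M _ _ a k hk
    cases k with
    | zero => simp [ωu]
    | succ k =>
      have : k < n := by omega
      simp [ωu, this]
  have hspec' : ∀ (M : Type _) [Field M] [Algebra K M] (a : Ix2 m n → M),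
      ∀ k ≤ n, aeval a (ωu' k) = (match k with
        | 0 => a (Sum.inl 0)
        | (k + 1) => if hk : k < n then a (Sum.inr (Sum.inr ⟨k, hk⟩)) else 0) := by
    intro M _ _ a k hk
    cases k with
    | zero => simp [ωu']
    | succ k =>
      have : k < n := by omega
      simp [ωu', this]
  by_contra hcon
  push Not at hcon
  obtain ⟨j, hj, hne⟩ := hcon
  let I : Ideal R := Ideal.span (Set.range fun i : Fin m =>
    S.walk σ vu ωu n i - S.walk σ vu ωu' n i)
  let g : R := (∏ k ∈ Finset.Ico 1 n, (ωu (k + 1) - ωu (k - 1))) *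
    (∏ k ∈ Finset.Ico 1 n, (ωu' (k + 1) - ωu' (k - 1))) * (ωu j - ωu' j)
  have hg : g ∈ vanishingIdeal K (zeroLocus K I) := by
    rw [mem_vanishingIdeal_iff]
    intro a ha
    by_contra hga
    have hga' : aeval a g ≠ 0 := hga
    simp only [g, map_mul, map_prod, map_sub] at hga'
    have h1 : aeval a (ωu j) ≠ aeval a (ωu' j) := by
      intro hh; apply hga'; rw [hh, sub_self, mul_zero]
    have h2 : ∀ k ∈ Finset.Ico 1 n, aeval a (ωu (k + 1)) ≠ aeval a (ωu (k - 1)) := by
      intro k hk hh
      apply hga'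
      rw [Finset.prod_eq_zero hk (by rw [hh, sub_self]), zero_mul, zero_mul]
    have h3 : ∀ k ∈ Finset.Ico 1 n, aeval a (ωu' (k + 1)) ≠ aeval a (ωu' (k - 1)) := by
      intro k hk hh
      apply hga'
      rw [Finset.prod_eq_zero (s := Finset.Ico 1 n)
        (f := fun k => aeval a (ωu' (k + 1)) - aeval a (ωu' (k - 1))) hk (by rw [hh, sub_self]),
        mul_zero, zero_mul]
    refine h1 (h σ (fun i => aeval a (vu i)) (fun k => aeval a (ωu k)) (fun k => aeval a (ωu' k))
      rfl rfl ?_ ?_ ?_ j hj)
    · intro k hk1 hk2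
      exact h2 k (Finset.mem_Ico.mpr ⟨hk1, hk2⟩)
    · intro k hk1 hk2
      exact h3 k (Finset.mem_Ico.mpr ⟨hk1, hk2⟩)
    · rw [← S.map_walk, ← S.map_walk]
      funext i
      have h4 : aeval a (S.walk σ vu ωu n i - S.walk σ vu ωu' n i) = 0 := by
        have := (mem_zeroLocus_iff.mp ha) _ (Ideal.subset_span ⟨i, rfl⟩)
        exact this
      rw [map_sub, sub_eq_zero] at h4
      exact h4
  rw [vanishingIdeal_zeroLocus_eq_radical] at hg
  obtain ⟨N, hN⟩ := hg
  -- evaluate at the `L`-point
  let a : Ix2 m n → L := pt2 n v ω ω'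
  have e1 : ∀ k ≤ n, aeval a (ωu k) = ω k := by
    intro k hk
    rw [hspec L a k hk]
    cases k with
    | zero => exact h0.symm
    | succ k =>
      have : k < n := by omega
      simp [this, a, pt2]
  have e2 : ∀ k ≤ n, aeval a (ωu' k) = ω' k := by
    intro k hk
    rw [hspec' L a k hk]
    cases k with
    | zero => exact h0'.symm
    | succ k =>
      have : k < n := by omega
      simp [this, a, pt2]
  have e3 : (fun i => aeval a (vu i)) = v := by
    funext i; simp [vu, a, pt2]
  have hI : ∀ f ∈ I, aeval a f = 0 := by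
    intro f hf
    have : I ≤ RingHom.ker (aeval a : R →ₐ[K] L) := by
      rw [Ideal.span_le]
      rintro _ ⟨i, rfl⟩
      simp only [SetLike.mem_coe, RingHom.mem_ker, map_sub]
      rw [S.map_walk_apply, S.map_walk_apply, e3]
      rw [S.walk_congr σ v _ ω n (fun k _ hk => e1 k hk),
        S.walk_congr σ v _ ω' n (fun k _ hk => e2 k hk), hw, sub_self]
    exact this hf
  have h5 := hI _ hN
  rw [map_pow] at h5
  have h6 : aeval a g = 0 := IsReduced.eq_zero _ ⟨N, h5⟩
  simp only [g, map_mul, map_prod, map_sub] at h6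
  rw [mul_eq_zero, mul_eq_zero, Finset.prod_eq_zero_iff, Finset.prod_eq_zero_iff] at h6
  rcases h6 with (⟨k, hk, h7⟩ | ⟨k, hk, h7⟩) | h7
  · rw [Finset.mem_Ico] at hk
    rw [e1 (k + 1) (by omega), e1 (k - 1) (by omega), sub_eq_zero] at h7
    exact ht k hk.1 hk.2 h7
  · rw [Finset.mem_Ico] at hk
    rw [e2 (k + 1) (by omega), e2 (k - 1) (by omega), sub_eq_zero] at h7
    exact ht' k hk.1 hk.2 h7
  · rw [e1 _ hj, e2 _ hj, sub_eq_zero] at h7
    exact hne h7

/-- Two ring homomorphisms which agree on the ends of a generating walk agree. -/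
theorem ringHom_eq [IsAlgClosed K] {n : ℕ} (h : S.Inj K n) {E : Type*} [Field E] [Algebra K E]
    (σ : Bool) (v : Fin m → E) (ω : ℕ → E) (h0 : ω 0 = v 0)
    (ht : ∀ k, 1 ≤ k → k < n → ω (k + 1) ≠ ω (k - 1))
    (hgen : IntermediateField.adjoin K (Set.range v ∪ ω '' Set.Icc 1 n) = ⊤)
    {L : Type*} [Field L] (f g : E →+* L)
    (hK : f.comp (algebraMap K E) = g.comp (algebraMap K E))
    (hv : ∀ i, f (v i) = g (v i)) (hw : ∀ i, f (S.walk σ v ω n i) = g (S.walk σ v ω n i)) :
    f = g := by
  let _ : Algebra K L := (f.comp (algebraMap K E)).toAlgebra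
  let f' : E →ₐ[K] L := { f with commutes' := fun r => rfl }
  let g' : E →ₐ[K] L := { g with commutes' := fun r => (RingHom.congr_fun hK r).symm }
  have hf' : ∀ x, f' x = f x := fun _ => rfl
  have hg' : ∀ x, g' x = g x := fun _ => rfl
  have key := S.inj_field h L σ (fun i => f' (v i)) (fun k => f' (ω k)) (fun k => g' (ω k))
    (by simp [h0]) (by rw [h0, hg', hf', hv])
    (fun k h1 h2 hh => ht k h1 h2 (f'.injective hh))
    (fun k h1 h2 hh => ht k h1 h2 (g'.injective hh)) (by
      rw [← S.map_walk]
      have : (fun i => f' (v i)) = fun i => g' (v i) := by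
        funext i; exact hv i
      rw [this, ← S.map_walk]
      funext i
      exact hw i)
  have hfg : f' = g' := by
    have h1 : ∀ x ∈ IntermediateField.adjoin K (Set.range v ∪ ω '' Set.Icc 1 n), f' x = g' x := by
      intro x hx
      induction hx using IntermediateField.adjoin_induction with
      | mem x hx =>
        rcases hx with ⟨i, rfl⟩ | ⟨k, hk, rfl⟩
        · exact hv i
        · exact key k hk.2
      | algebraMap x => rw [f'.commutes, g'.commutes]
      | add x y _ _ hx hy => rw [map_add, map_add, hx, hy]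
      | inv x _ hx => rw [map_inv₀, map_inv₀, hx]
      | mul x y _ _ hx hy => rw [map_mul, map_mul, hx, hy]
    apply AlgHom.ext
    intro x
    exact h1 x (by rw [hgen]; trivial)
  ext x
  exact AlgHom.congr_fun hfg x

/-- In characteristic zero, the ends of a generating non-backtracking walk generate. -/
theorem gen_field [IsAlgClosed K] [CharZero K] {n : ℕ} (h : S.Inj K n) {E : Type*} [Field E]
    [Algebra K E]
    (σ : Bool) (v : Fin m → E) (ω : ℕ → E) (h0 : ω 0 = v 0)
    (ht : ∀ k, 1 ≤ k → k < n → ω (k + 1) ≠ ω (k - 1))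
    (hgen : IntermediateField.adjoin K (Set.range v ∪ ω '' Set.Icc 1 n) = ⊤) :
    IntermediateField.adjoin K (Set.range v ∪ Set.range (S.walk σ v ω n)) = ⊤ := by
  set F := IntermediateField.adjoin K (Set.range v ∪ Set.range (S.walk σ v ω n)) with hF
  have : CharZero F := charZero_of_injective_algebraMap (algebraMap K F).injective
  have hpi : IsPurelyInseparable F E := by
    have : Nonempty (E →+* AlgebraicClosure E) := ⟨algebraMap _ _⟩
    apply IsPurelyInseparable.of_injective_comp_algebraMap F E (AlgebraicClosure E)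
    intro f g hfg
    have h1 : ∀ x : F, f x = g x := fun x => RingHom.congr_fun hfg x
    refine S.ringHom_eq h σ v ω h0 ht hgen f g ?_ ?_ ?_
    · ext x
      exact h1 (algebraMap K F x)
    · intro i
      exact h1 ⟨v i, IntermediateField.subset_adjoin _ _ (Or.inl ⟨i, rfl⟩)⟩
    · intro i
      exact h1 ⟨S.walk σ v ω n i, IntermediateField.subset_adjoin _ _ (Or.inr ⟨i, rfl⟩)⟩
  have hs : Function.Surjective (algebraMap F E) :=
    IsPurelyInseparable.surjective_algebraMap_of_isSeparable F E
  rw [eq_top_iff]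
  intro x _
  obtain ⟨y, rfl⟩ := hs x
  exact y.2

end Sys

end Pool.Agent.Helper49.Girth
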