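import Mathlib
import Pool.Agent.Helper49.Girth.Pts

set_option autoImplicit false
set_option maxHeartbeats 400000

noncomputable section

namespace Pool.Agent.Helper49.Girth

open MvPolynomial

theorem adjoin_lift_eq_top {K R : Type*} [Field K] [Field R] [Algebra K R] (s : Set R)
    (t : Set (IntermediateField.adjoin K s))
    (ht : s ⊆ (IntermediateField.adjoin K s).val '' t) :
    IntermediateField.adjoin K t = ⊤ := by
  rw [eq_top_iff]
  intro x _
  have h1 : (x : R) ∈ (IntermediateField.adjoin K t).map (IntermediateField.adjoin K s).val := by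
    rw [IntermediateField.adjoin_map]
    exact IntermediateField.adjoin.mono K _ _ ht x.2
  obtain ⟨y, hy, hyx⟩ := h1
  have : y = x := Subtype.ext hyx
  rw [← this]
  exact hy

namespace Sys

variable {K : Type*} [Field K] {m : ℕ} [NeZero m] (S : Sys K m)

/-- The first coordinates of a non-backtracking walk are rational functions of its ends. -/
theorem gen_mem [IsAlgClosed K] [CharZero K] {n : ℕ} (h : S.Inj K n) {R : Type*} [Field R]
    [Algebra K R] (σ : Bool) (v : Fin m → R) (ω : ℕ → R) (h0 : ω 0 = v 0)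
    (ht : ∀ k, 1 ≤ k → k < n → ω (k + 1) ≠ ω (k - 1)) (k : ℕ) (hk : k ≤ n) :
    ω k ∈ IntermediateField.adjoin K (Set.range v ∪ Set.range (S.walk σ v ω n)) := by
  classical
  set s : Set R := Set.range v ∪ ω '' Set.Icc 1 n with hs
  have hv : ∀ i, v i ∈ IntermediateField.adjoin K s := fun i =>
    IntermediateField.subset_adjoin K s (Or.inl ⟨i, rfl⟩)
  have hω : ∀ k, k ≤ n → ω k ∈ IntermediateField.adjoin K s := by
    intro k hk
    rcases Nat.eq_zero_or_pos k with h1 | h1
    · rw [h1, h0]; exact hv 0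
    · exact IntermediateField.subset_adjoin K s (Or.inr ⟨k, ⟨h1, hk⟩, rfl⟩)
  let vE : Fin m → IntermediateField.adjoin K s := fun i => ⟨v i, hv i⟩
  let ωE : ℕ → IntermediateField.adjoin K s := fun k => if hk : k ≤ n then ⟨ω k, hω k hk⟩ else 0
  have hωE : ∀ k, k ≤ n → ((ωE k : IntermediateField.adjoin K s) : R) = ω k := by
    intro k hk
    simp [ωE, hk]
  have hgen : IntermediateField.adjoin K (Set.range vE ∪ ωE '' Set.Icc 1 n) = ⊤ := by
    apply adjoin_lift_eq_top
    rintro x (⟨i, rfl⟩ | ⟨k, hk, rfl⟩)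
    · exact ⟨vE i, Or.inl ⟨i, rfl⟩, rfl⟩
    · exact ⟨ωE k, Or.inr ⟨k, hk, rfl⟩, hωE k hk.2⟩
  have key := S.gen_field h σ vE ωE (by
    apply Subtype.ext
    rw [hωE 0 (Nat.zero_le _), h0]) (by
    intro k hk1 hk2 hh
    apply ht k hk1 hk2
    have : ((ωE (k + 1) : IntermediateField.adjoin K s) : R) =
      ((ωE (k - 1) : IntermediateField.adjoin K s) : R) := congrArg Subtype.val hh
    rwa [hωE (k + 1) (by omega), hωE (k - 1) (by omega)] at this) hgen
  have h1 : ωE k ∈ IntermediateField.adjoin K (Set.range vE ∪ Set.range (S.walk σ vE ωE n)) := by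
    rw [key]; trivial
  have h2 : (IntermediateField.adjoin K s).val (ωE k) ∈
      (IntermediateField.adjoin K (Set.range vE ∪ Set.range (S.walk σ vE ωE n))).map
        (IntermediateField.adjoin K s).val := ⟨ωE k, h1, rfl⟩
  rw [IntermediateField.adjoin_map] at h2
  have h3 : (IntermediateField.adjoin K s).val (ωE k) = ω k := hωE k hk
  rw [h3] at h2
  have h4 : ∀ i, (IntermediateField.adjoin K s).val (S.walk σ vE ωE n i) = S.walk σ v ω n i := by
    intro i
    rw [S.map_walk_apply (IntermediateField.adjoin K s).val σ vE ωE n i]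
    have e : (fun i => (IntermediateField.adjoin K s).val (vE i)) = v := rfl
    rw [e]
    exact congrFun (S.walk_congr σ v _ ω n (fun k _ hk => hωE k hk)) i
  refine IntermediateField.adjoin.mono K _ _ ?_ h2
  rintro x ⟨y, (⟨i, rfl⟩ | ⟨i, rfl⟩), rfl⟩
  · exact Or.inl ⟨i, rfl⟩
  · exact Or.inr ⟨i, (h4 i).symm⟩

end Sys

end Pool.Agent.Helper49.Girth
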