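import Mathlib

set_option autoImplicit false

noncomputable section

namespace Pool.Agent.Helper49.Girth

open MvPolynomial Cardinal

section cl

variable (K : Type*) {Ω : Type*} [Field K] [Field Ω] [Algebra K Ω]

/-- relative algebraic closure of the subfield generated by a set -/
def cl (s : Set Ω) : IntermediateField K Ω :=
  (algebraicClosure (IntermediateField.adjoin K s) Ω).restrictScalars K

variable {K}

theorem mem_cl {s : Set Ω} {a : Ω} :
    a ∈ cl K s ↔ IsAlgebraic (IntermediateField.adjoin K s) a := by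
  rw [cl, IntermediateField.mem_restrictScalars, mem_algebraicClosure_iff]

open scoped IntermediateField.algebraAdjoinAdjoin in
theorem mem_cl' {s : Set Ω} {a : Ω} :
    a ∈ cl K s ↔ IsAlgebraic (Algebra.adjoin K s) a := by
  rw [mem_cl, ← IsFractionRing.isAlgebraic_iff (Algebra.adjoin K s) (IntermediateField.adjoin K s) Ω]

theorem coe_cl (s : Set Ω) :
    (cl K s : Set Ω) = (AlgebraicIndependent.matroid K Ω).closure s := by
  ext a
  rw [AlgebraicIndependent.matroid_closure_eq, SetLike.mem_coe, mem_cl', SetLike.mem_coe,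
    Subalgebra.mem_algebraicClosure]

theorem subset_cl (s : Set Ω) : s ⊆ (cl K s : Set Ω) := by
  rw [coe_cl]
  exact Matroid.subset_closure _ s (by simp)

theorem mem_cl_of_mem {s : Set Ω} {a : Ω} (h : a ∈ s) : a ∈ cl K s := subset_cl s h

theorem cl_le_cl {s t : Set Ω} (h : ∀ a ∈ s, a ∈ cl K t) : cl K s ≤ cl K t := by
  have h' : s ⊆ (cl K t : Set Ω) := h
  rw [coe_cl] at h'
  have : (cl K s : Set Ω) ⊆ (cl K t : Set Ω) := by
    rw [coe_cl, coe_cl]
    exact Matroid.closure_subset_closure_of_subset_closure h'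
  exact this

theorem cl_mono {s t : Set Ω} (h : s ⊆ t) : cl K s ≤ cl K t :=
  cl_le_cl fun _ ha => mem_cl_of_mem (h ha)

theorem adjoin_le_cl (s : Set Ω) : IntermediateField.adjoin K s ≤ cl K s :=
  IntermediateField.adjoin_le_iff.mpr (subset_cl s)

theorem aeval_mem {ι : Type*} (F : IntermediateField K Ω) (f : ι → Ω) (hf : ∀ i, f i ∈ F)
    (P : MvPolynomial ι K) : aeval f P ∈ F := by
  have : aeval f P = F.val (aeval (fun i => (⟨f i, hf i⟩ : F)) P) := by
    rw [MvPolynomial.comp_aeval_apply]
    rfl
  rw [this]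
  exact (aeval (fun i => (⟨f i, hf i⟩ : F)) P).2

theorem root_mem_cl {s : Set Ω} {a : Ω} (p : Polynomial Ω) (hp : p ≠ 0)
    (hc : ∀ n, p.coeff n ∈ cl K s) (ha : p.eval a = 0) : a ∈ cl K s := by
  have h1 : p ∈ Polynomial.lifts (algebraMap (cl K s) Ω) := by
    rw [Polynomial.lifts_iff_coeff_lifts]
    intro n
    exact ⟨⟨_, hc n⟩, rfl⟩
  obtain ⟨q, hq⟩ := h1
  have hq0 : q ≠ 0 := by
    rintro rfl
    apply hp
    rw [← hq]; simp
  have h2 : IsAlgebraic (cl K s) a := by
    refine ⟨q, hq0, ?_⟩
    rw [Polynomial.aeval_def, ← Polynomial.eval_map]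
    have : Polynomial.map (algebraMap (cl K s) Ω) q = p := hq
    rw [this, ha]
  rw [mem_cl]
  have h3 : IsAlgebraic (algebraicClosure (IntermediateField.adjoin K s) Ω) a := h2
  exact h3.restrictScalars _

theorem cl_eq_top_iff {s : Set Ω} : cl K s = ⊤ ↔ Algebra.IsAlgebraic (Algebra.adjoin K s) Ω := by
  constructor
  · intro h
    refine ⟨fun a => mem_cl'.mp (by rw [h]; trivial)⟩
  · intro h
    rw [eq_top_iff]
    intro a _
    exact mem_cl'.mpr (h.isAlgebraic a)

/-- a spanning family of the right size is a transcendence basis -/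
theorem algebraicIndependent_of_cl_eq_top {ι : Type} [Finite ι] (x : ι → Ω)
    (h : cl K (Set.range x) = ⊤) (hcard : (Nat.card ι : Cardinal) ≤ Algebra.trdeg K Ω) :
    AlgebraicIndependent K x := by
  have := cl_eq_top_iff.mp h
  have h1 : IsTranscendenceBasis K x := by
    apply Algebra.IsAlgebraic.isTranscendenceBasis_of_lift_le_trdeg_of_finite
    have := Fintype.ofFinite ι
    rw [Cardinal.mk_fintype]
    rw [Nat.card_eq_fintype_card] at hcard
    simpa using hcard
  exact h1.1

/-- elements of an independent family are not in the closure of the others -/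
theorem notMem_cl_of_independent {ι : Type*} {x : ι → Ω} (hx : AlgebraicIndependent K x)
    {J : Set ι} {i : ι} (hi : i ∉ J) : x i ∉ cl K (x '' J) := by
  rw [mem_cl']
  exact hx.transcendental_adjoin hi

theorem trdeg_lt_of_dep {ι : Type} [Finite ι] {x : ι → Ω} (hx : AlgebraicIndependent K x) :
    (Nat.card ι : Cardinal) ≤ Algebra.trdeg K Ω := by
  have := hx.lift_cardinalMk_le_trdeg
  have h2 := Fintype.ofFinite ι
  rw [Cardinal.mk_fintype] at this
  rw [Nat.card_eq_fintype_card]
  simpa using this

/-- The kernel of a homomorphism from a polynomial ring in `n` variables whose image has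
transcendence degree at least `n - 1` is principal. -/
theorem ker_principal {ι : Type} [Finite ι] (φ : MvPolynomial ι K →ₐ[K] Ω)
    (hspan : cl K (Set.range fun i => φ (X i)) = ⊤)
    (htr : (Nat.card ι : Cardinal) ≤ Algebra.trdeg K Ω + 1)
    (hker : RingHom.ker φ ≠ ⊥) :
    ∃ F : MvPolynomial ι K, Prime F ∧ RingHom.ker φ = Ideal.span {F} := by
  classical
  have hprime : (RingHom.ker φ).IsPrime := RingHom.ker_isPrime φ
  obtain ⟨F, hFmem, hF⟩ := Ideal.IsPrime.exists_mem_prime_of_ne_bot hprime hker
  refine ⟨F, hF, ?_⟩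
  -- a transcendence basis among the values of the variables
  have halg := cl_eq_top_iff.mp hspan
  obtain ⟨t, ht, hbasis⟩ := exists_isTranscendenceBasis_subset (R := K) (A := Ω)
    (Set.range fun i => φ (X i))
  have htfin : Finite t := (Set.finite_range _).subset ht
  have hg : ∀ a : t, ∃ i : ι, φ (X i) = a := fun a => ht a.2
  choose g hg using hg
  have hcard : Algebra.trdeg K Ω = (Nat.card t : Cardinal) := by
    have := hbasis.cardinalMk_eq_trdeg
    rw [← this]
    have h2 := Fintype.ofFinite t
    rw [Cardinal.mk_fintype, Nat.card_eq_fintype_card]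
  have hn : Nat.card ι ≤ Nat.card t + 1 := by
    rw [hcard] at htr
    exact_mod_cast htr
  -- the quotient by `F`
  let I : Ideal (MvPolynomial ι K) := Ideal.span {F}
  have hIprime : I.IsPrime := (Ideal.span_singleton_prime hF.ne_zero).mpr hF
  let T := MvPolynomial ι K ⧸ I
  have hTdom : IsDomain T := Ideal.Quotient.isDomain I
  have hIker : ∀ a ∈ I, φ a = 0 := by
    intro a ha
    obtain ⟨c, rfl⟩ := Ideal.mem_span_singleton.mp ha
    rw [map_mul, (RingHom.mem_ker).mp hFmem, zero_mul]
  let ψ : T →ₐ[K] Ω := Ideal.Quotient.liftₐ I φ hIker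
  let mk : MvPolynomial ι K →ₐ[K] T := Ideal.Quotient.mkₐ K I
  have hψ : ∀ P, ψ (mk P) = φ P := fun P => rfl
  let y : t → T := fun a => mk (X (g a))
  have hψy : ψ ∘ y = ((↑) : t → Ω) := by
    funext a
    exact hg a
  have hy : AlgebraicIndependent K y := by
    have : AlgebraicIndependent K (ψ ∘ y) := by
      rw [hψy]; exact hbasis.1
    exact AlgebraicIndependent.of_comp ψ this
  -- transcendence degree of the quotient
  have hT1 : ¬ ((Nat.card ι : Cardinal) ≤ Algebra.trdeg K T) := by
    intro hle
    have hsurj : Function.Surjective mk := Ideal.Quotient.mkₐ_surjective K I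
    have htop : Algebra.adjoin K (Set.range fun i => mk (X i : MvPolynomial ι K)) = ⊤ := by
      have h1 := congrArg (Subalgebra.map mk) (MvPolynomial.adjoin_range_X (R := K) (σ := ι))
      rw [AlgHom.map_adjoin, ← Set.range_comp] at h1
      rw [Algebra.map_top, (AlgHom.range_eq_top mk).mpr hsurj] at h1
      exact h1
    have : Algebra.IsAlgebraic (Algebra.adjoin K (Set.range fun i => mk (X i : MvPolynomial ι K))) T := by
      refine ⟨fun a => ?_⟩
      exact isAlgebraic_algebraMap
        (⟨a, by rw [htop]; trivial⟩ :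
          Algebra.adjoin K (Set.range fun i => mk (X i : MvPolynomial ι K)))
    have h2 : IsTranscendenceBasis K (fun i => mk (X i : MvPolynomial ι K)) := by
      apply Algebra.IsAlgebraic.isTranscendenceBasis_of_lift_le_trdeg_of_finite
      have := Fintype.ofFinite ι
      rw [Cardinal.mk_fintype]
      rw [Nat.card_eq_fintype_card] at hle
      simpa using hle
    have h3 := h2.1.eq_zero_of_aeval_eq_zero F (by
      have : aeval (fun i => mk (X i : MvPolynomial ι K)) F = mk F := by
        rw [← MvPolynomial.comp_aeval_apply]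
        simp
      rw [this]
      exact Ideal.Quotient.eq_zero_iff_mem.mpr (Ideal.mem_span_singleton_self F))
    exact hF.ne_zero h3
  have hT2 : Algebra.trdeg K T ≤ (Nat.card t : Cardinal) := by
    push Not at hT1
    obtain ⟨d, hd⟩ := Cardinal.lt_aleph0.mp (hT1.trans (Cardinal.natCast_lt_aleph0))
    rw [hd] at hT1 ⊢
    have : d < Nat.card ι := by exact_mod_cast hT1
    exact_mod_cast (by omega : d ≤ Nat.card t)
  have hybasis : IsTranscendenceBasis K y := by
    apply AlgebraicIndependent.isTranscendenceBasis_of_lift_trdeg_le_of_finite hy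
    have := Fintype.ofFinite t
    rw [Cardinal.mk_fintype]
    rw [Nat.card_eq_fintype_card] at hT2
    refine (Cardinal.lift_le.mpr hT2).trans ?_
    simp
  apply le_antisymm
  · intro P hP
    by_contra hPF
    have hmk : mk P ≠ 0 := by
      intro h
      exact hPF (Ideal.Quotient.eq_zero_iff_mem.mp h)
    have h1 := hybasis.isAlgebraic.isAlgebraic (mk P)
    obtain ⟨r, hr0, hr⟩ := h1.exists_nonzero_dvd (mem_nonZeroDivisors_of_ne_zero hmk)
    have h2 : ψ (r : T) = 0 := by
      obtain ⟨c, hc⟩ := hr
      have : (r : T) = mk P * c := hc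
      rw [this, map_mul, hψ, (RingHom.mem_ker).mp hP, zero_mul]
    have h3 : ∃ R : MvPolynomial t K, aeval y R = (r : T) := by
      have : (r : T) ∈ (aeval (R := K) y).range := by
        rw [← Algebra.adjoin_range_eq_range_aeval]; exact r.2
      exact this
    obtain ⟨R, hR⟩ := h3
    rw [← hR, MvPolynomial.comp_aeval_apply] at h2
    have h4 : R = 0 := by
      apply hbasis.1.eq_zero_of_aeval_eq_zero R
      rw [← h2, ← hψy]
      rfl
    apply hr0
    apply Subtype.ext
    rw [← hR, h4, map_zero]
    rfl
  · rw [Ideal.span_le, Set.singleton_subset_iff]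
    exact hFmem

end cl

end Pool.Agent.Helper49.Girth
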