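import Mathlib
import Pool.Agent.Helper49.Girth.Sys
import Pool.Agent.Helper49.Girth.Dim

set_option autoImplicit false

noncomputable section

namespace Pool.Agent.Helper49.Girth

open MvPolynomial

namespace Sys

section A0

variable (K : Type*) [Field K] (m : ℕ)

/-- polynomials in `v` and `w` -/
def A0 : Type _ := Polynomial (MvPolynomial (Fin m) K)

instance : CommRing (A0 K m) :=
  inferInstanceAs (CommRing (Polynomial (MvPolynomial (Fin m) K)))

instance : Algebra K (A0 K m) :=
  inferInstanceAs (Algebra K (Polynomial (MvPolynomial (Fin m) K)))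

instance : IsDomain (A0 K m) :=
  inferInstanceAs (IsDomain (Polynomial (MvPolynomial (Fin m) K)))

instance [CharZero K] : CharZero (A0 K m) :=
  charZero_of_injective_algebraMap (algebraMap K (A0 K m)).injective

/-- the inclusion of polynomials in `v` -/
def cV : MvPolynomial (Fin m) K →ₐ[K] A0 K m :=
  (Polynomial.CAlgHom (R := MvPolynomial (Fin m) K) (A := MvPolynomial (Fin m) K)).restrictScalars K

/-- the variable `w` -/
def xw : A0 K m := (Polynomial.X : Polynomial (MvPolynomial (Fin m) K))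

/-- the variables `v` -/
def xv (i : Fin m) : A0 K m := cV K m (X i)

variable {K m}

/-- the degree in `w` -/
def wdeg (f : A0 K m) : ℕ := Polynomial.natDegree (R := MvPolynomial (Fin m) K) f

/-- the coefficients in `w` -/
def wcoeff (f : A0 K m) (n : ℕ) : MvPolynomial (Fin m) K :=
  Polynomial.coeff (R := MvPolynomial (Fin m) K) f n

variable {E : Type*} [CommRing E] [Algebra K E] {L : Type*} [CommRing L] [Algebra K L]

variable (K) in
/-- evaluation of a polynomial in `v` and `w` -/
def ev2 (v : Fin m → E) (w : E) : A0 K m →ₐ[K] E :=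
  Polynomial.aevalTower (R := MvPolynomial (Fin m) K) (aeval v) w

theorem ev2_apply (v : Fin m → E) (w : E) (p : A0 K m) :
    ev2 K v w p = Polynomial.eval₂ (R := MvPolynomial (Fin m) K)
      (aeval v : MvPolynomial (Fin m) K →ₐ[K] E).toRingHom w p := rfl

theorem ev2_cV (v : Fin m → E) (w : E) (p : MvPolynomial (Fin m) K) :
    ev2 K v w (cV K m p) = aeval v p :=
  Polynomial.aevalTower_C (R := MvPolynomial (Fin m) K) (aeval v) w p

theorem ev2_xv (v : Fin m → E) (w : E) (i : Fin m) :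
    ev2 K v w (xv K m i) = v i := by
  rw [xv, ev2_cV, aeval_X]

theorem ev2_xw (v : Fin m → E) (w : E) : ev2 K v w (xw K m) = w :=
  Polynomial.aevalTower_X (R := MvPolynomial (Fin m) K) (aeval v) w

theorem hom2_ext {f g : A0 K m →ₐ[K] E}
    (h1 : ∀ i, f (xv K m i) = g (xv K m i))
    (h2 : f (xw K m) = g (xw K m)) : f = g := by
  apply Polynomial.algHom_ext' (A := MvPolynomial (Fin m) K)
  · apply MvPolynomial.algHom_ext
    intro i
    exact h1 i
  · exact h2

theorem map_ev2 (φ : E →ₐ[K] L) (v : Fin m → E) (w : E) (p : A0 K m) :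
    φ (ev2 K v w p) = ev2 K (fun i => φ (v i)) (φ w) p := by
  have : φ.comp (ev2 K v w) = ev2 K (fun i => φ (v i)) (φ w) := by
    apply hom2_ext
    · intro i; simp [ev2_xv]
    · simp [ev2_xw]
  exact AlgHom.congr_fun this p

end A0

section A1

variable (K : Type*) [Field K] (m : ℕ)

/-- polynomials in `v`, `w` and `t` -/
abbrev A1 := Polynomial (A0 K m)

variable {K m}

variable {E : Type*} [CommRing E] [Algebra K E] {L : Type*} [CommRing L] [Algebra K L]

variable (K) in
/-- evaluation of a polynomial in `v`, `w` and `t` -/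
def ev3 (v : Fin m → E) (w t : E) : A1 K m →ₐ[K] E :=
  Polynomial.aevalTower (ev2 K v w) t

theorem ev3_apply (v : Fin m → E) (w t : E) (p : A1 K m) :
    ev3 K v w t p = p.eval₂ (ev2 K v w).toRingHom t := rfl

theorem ev3_C (v : Fin m → E) (w t : E) (p : A0 K m) :
    ev3 K v w t (Polynomial.C p) = ev2 K v w p := by
  simp [ev3]

theorem ev3_X (v : Fin m → E) (w t : E) :
    ev3 K v w t Polynomial.X = t := by
  simp [ev3]

theorem hom3_ext {f g : A1 K m →ₐ[K] E}
    (h1 : ∀ i, f (Polynomial.C (xv K m i)) = g (Polynomial.C (xv K m i)))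
    (h2 : f (Polynomial.C (xw K m)) = g (Polynomial.C (xw K m)))
    (h3 : f Polynomial.X = g Polynomial.X) : f = g := by
  apply Polynomial.algHom_ext'
  · exact hom2_ext h1 h2
  · exact h3

theorem map_ev3 (φ : E →ₐ[K] L) (v : Fin m → E) (w t : E) (p : A1 K m) :
    φ (ev3 K v w t p) = ev3 K (fun i => φ (v i)) (φ w) (φ t) p := by
  have : φ.comp (ev3 K v w t) = ev3 K (fun i => φ (v i)) (φ w) (φ t) := by
    apply hom3_ext
    · intro i; simp [ev3_C, ev2_xv]
    · simp [ev3_C, ev2_xw]
    · simp [ev3_X]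
  exact AlgHom.congr_fun this p

/-- constant term as an algebra homomorphism -/
def cc : A1 K m →ₐ[K] A0 K m := Polynomial.aevalTower (AlgHom.id K _) 0

theorem cc_apply (p : A1 K m) : cc p = p.coeff 0 := by
  rw [Polynomial.coeff_zero_eq_eval_zero]
  rfl

/-- constants as an algebra homomorphism -/
def c1 : A0 K m →ₐ[K] A1 K m :=
  (Polynomial.CAlgHom (R := A0 K m) (A := A0 K m)).restrictScalars K

theorem c1_apply (p : A0 K m) : c1 p = Polynomial.C p := rfl

end A1

variable {K : Type*} [Field K] {m : ℕ} [NeZero m] (S : Sys K m)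

/-- The jump `G(v; w, t)` as polynomials. -/
def G (σ : Bool) : Fin m → A1 K m :=
  S.nb (!σ) (S.nb σ (fun i => Polynomial.C (xv K m i)) (Polynomial.C (xw K m)))
    (Polynomial.C (xv K m 0) + Polynomial.X)

section

variable {E : Type*} [CommRing E] [Algebra K E]

theorem ev3_G (σ : Bool) (v : Fin m → E) (w t : E) (i : Fin m) :
    ev3 K v w t (S.G σ i) = S.nb (!σ) (S.nb σ v w) (v 0 + t) i := by
  have h0 := S.map_nb_apply (ev3 K v w t) (!σ)
    (S.nb σ (fun i => Polynomial.C (xv K m i)) (Polynomial.C (xw K m)))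
    (Polynomial.C (xv K m 0) + Polynomial.X) i
  have h1 := S.map_nb (ev3 K v w t) σ (fun i => Polynomial.C (xv K m i))
      (Polynomial.C (xw K m))
  rw [G, h0, h1]
  simp only [map_add, ev3_C, ev2_xv, ev2_xw, ev3_X]

theorem flow_pts (σ : Bool) (v : Fin m → E) (w t t' : E) :
    S.nb (!σ) (S.nb σ (S.nb (!σ) (S.nb σ v w) (v 0 + t')) w)
      (S.nb (!σ) (S.nb σ v w) (v 0 + t') 0 + t) =
    S.nb (!σ) (S.nb σ v w) (v 0 + (t' + t)) := by
  have h1 : S.nb σ (S.nb (!σ) (S.nb σ v w) (v 0 + t')) w = S.nb σ v w := by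
    have := S.nb_nb' σ (S.nb σ v w) (v 0 + t')
    rwa [S.nb_zero] at this
  rw [h1, S.nb_zero]
  congr 1
  ring

end

/-- the substitution `v ↦ G(v; w, t)` -/
def Θ (σ : Bool) : A0 K m →ₐ[K] A1 K m :=
  ev2 K (S.G σ) (Polynomial.C (xw K m))

theorem G_coeff_zero (σ : Bool) (i : Fin m) : (S.G σ i).coeff 0 = xv K m i := by
  have h := S.ev3_G σ (xv K m) (xw K m) 0 i
  rw [add_zero, S.nb_nb] at h
  rw [← h, ← cc_apply]
  have h2 : ev3 K (xv K m) (xw K m) 0 = cc := by
    apply hom3_ext
    · intro i; simp [ev3_C, ev2_xv, cc]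
    · simp [ev3_C, ev2_xw, cc]
    · simp [ev3_X, cc]
  rw [h2]

theorem Θ_coeff_zero (σ : Bool) (f : A0 K m) :
    (S.Θ σ f).coeff 0 = f := by
  have h0 := map_ev2 (cc : A1 K m →ₐ[K] A0 K m) (S.G σ) (Polynomial.C (xw K m)) f
  rw [← cc_apply, Θ, h0]
  have h2 : ev2 K (fun i => cc (S.G σ i)) (cc (Polynomial.C (xw K m))) =
      AlgHom.id K (A0 K m) := by
    apply hom2_ext
    · intro i; simp [ev2_xv, cc_apply, G_coeff_zero]
    · simp [ev2_xw, cc_apply]
  rw [h2]
  rfl

end Sys

end Pool.Agent.Helper49.Girth
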