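import Mathlib
import Pool.Agent.Helper49.Girth.FlowA

set_option autoImplicit false

noncomputable section

namespace Pool.Agent.Helper49.Girth

open MvPolynomial

namespace Sys

section

variable {K : Type*} [Field K] {m : ℕ}

/-- constants as an algebra homomorphism, one level up -/
def c2 : A1 K m →ₐ[K] Polynomial (A1 K m) :=
  (Polynomial.CAlgHom (R := A1 K m) (A := A1 K m)).restrictScalars K

theorem c2_apply (p : A1 K m) : c2 p = Polynomial.C p := rfl

end

variable {K : Type*} [Field K] {m : ℕ} [NeZero m] (S : Sys K m)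

theorem mapAlgHom_Θ (σ : Bool) : Polynomial.mapAlgHom (S.Θ σ) =
      ev3 K (fun i => c2 (S.G σ i)) (c2 (c1 (xw K m))) Polynomial.X := by
  apply hom3_ext
  · intro i
    rw [ev3_C, ev2_xv, Polynomial.coe_mapAlgHom, Polynomial.map_C, c2_apply]
    congr 1
    exact ev2_xv _ _ _
  · rw [ev3_C, ev2_xw, Polynomial.coe_mapAlgHom, Polynomial.map_C, c2_apply]
    congr 1
    exact ev2_xw _ _
  · rw [ev3_X, Polynomial.coe_mapAlgHom, Polynomial.map_X]

theorem eval₂_eq_ev3 (p : A1 K m) : p.eval₂ ((c2 (K := K) (m := m)).comp c1).toRingHom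
        (Polynomial.X + Polynomial.C Polynomial.X) =
      ev3 K (fun i => c2 (c1 (xv K m i)))
        (c2 (c1 (xw K m))) (Polynomial.C Polynomial.X + Polynomial.X) p := by
  have h : ev2 K (fun i => c2 (c1 (xv K m i))) (c2 (c1 (xw K m))) =
      (c2 (K := K) (m := m)).comp c1 := by
    apply hom2_ext
    · intro i; rw [ev2_xv]; rfl
    · rw [ev2_xw]; rfl
  rw [ev3_apply, h, add_comm]

theorem c2_G (σ : Bool) : (fun i => c2 (S.G σ i)) =
      S.nb (!σ) (S.nb σ (fun i => c2 (c1 (xv K m i))) (c2 (c1 (xw K m))))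
        (c2 (c1 (xv K m 0)) + Polynomial.C Polynomial.X) := by
  funext j
  have e1 := S.map_nb_apply (c2 (K := K) (m := m)) (!σ)
    (S.nb σ (fun i => Polynomial.C (xv K m i)) (Polynomial.C (xw K m)))
    (Polynomial.C (xv K m 0) + Polynomial.X) j
  have e2 := S.map_nb (c2 (K := K) (m := m)) σ
    (fun i => Polynomial.C (xv K m i)) (Polynomial.C (xw K m))
  rw [e2] at e1
  rw [G, e1, map_add]
  rfl

theorem G_zero (σ : Bool) : S.G σ 0 = Polynomial.C (xv K m 0) + Polynomial.X := by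
  rw [G, nb_zero]

/-- The flow law. -/
theorem flow_law (σ : Bool) (i : Fin m) :
    Polynomial.mapAlgHom (S.Θ σ) (S.G σ i) = (S.G σ i).eval₂
      ((c2 (K := K) (m := m)).comp c1).toRingHom
      (Polynomial.X + Polynomial.C Polynomial.X) := by
  have h3 := S.flow_pts σ (fun i => c2 (c1 (xv K m i))) (c2 (c1 (xw K m))) Polynomial.X
    (Polynomial.C Polynomial.X)
  rw [← c2_G] at h3
  beta_reduce at h3
  have e1 : Polynomial.mapAlgHom (S.Θ σ) (S.G σ i) =
      S.nb (!σ) (S.nb σ (fun i => c2 (S.G σ i)) (c2 (c1 (xw K m))))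
        (c2 (S.G σ 0) + Polynomial.X) i := by
    rw [mapAlgHom_Θ, ev3_G]
  have e2 : (S.G σ i).eval₂ ((c2 (K := K) (m := m)).comp c1).toRingHom
      (Polynomial.X + Polynomial.C Polynomial.X) =
      S.nb (!σ) (S.nb σ (fun i => c2 (c1 (xv K m i))) (c2 (c1 (xw K m))))
        (c2 (c1 (xv K m 0)) + (Polynomial.C Polynomial.X + Polynomial.X)) i := by
    rw [eval₂_eq_ev3, ev3_G]
  rw [e1, e2, ← h3]

end Sys

end Pool.Agent.Helper49.Girth
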