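import Mathlib
import Pool.Agent.Helper49.Girth.FlowB

set_option autoImplicit false
set_option maxHeartbeats 400000

noncomputable section

namespace Pool.Agent.Helper49.Girth

open MvPolynomial

namespace Sys

section wdeg

variable {K : Type*} [Field K] {m : ℕ}

theorem wdeg_add_le (f g : A0 K m) : wdeg (f + g) ≤ max (wdeg f) (wdeg g) :=
  Polynomial.natDegree_add_le (R := MvPolynomial (Fin m) K) f g

theorem wdeg_mul_le (f g : A0 K m) : wdeg (f * g) ≤ wdeg f + wdeg g :=
  Polynomial.natDegree_mul_le (R := MvPolynomial (Fin m) K) (p := f) (q := g)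

theorem wdeg_cV (p : MvPolynomial (Fin m) K) : wdeg (cV K m p) = 0 :=
  Polynomial.natDegree_C (R := MvPolynomial (Fin m) K) p

theorem wdeg_xv (i : Fin m) : wdeg (xv K m i) = 0 := wdeg_cV _

theorem wdeg_zero : wdeg (0 : A0 K m) = 0 :=
  Polynomial.natDegree_zero (R := MvPolynomial (Fin m) K)

theorem wdeg_xw_pow (n : ℕ) : wdeg (xw K m ^ n) = n :=
  Polynomial.natDegree_X_pow (R := MvPolynomial (Fin m) K) n

theorem wdeg_natCast_mul [CharZero K] (n : ℕ) (hn : n ≠ 0) (f : A0 K m) :
    wdeg ((n : A0 K m) * f) = wdeg f := by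
  have h1 : (n : A0 K m) = cV K m (C (n : K)) := by simp
  rw [h1]
  exact Polynomial.natDegree_C_mul (R := MvPolynomial (Fin m) K) (p := f) (a := C (n : K)) (by
    rw [Ne, MvPolynomial.C_eq_zero]
    exact_mod_cast hn)

theorem A0_eq_sum (f : A0 K m) :
    f = ∑ n ∈ Finset.range (wdeg f + 1), cV K m (wcoeff f n) * xw K m ^ n :=
  Polynomial.as_sum_range_C_mul_X_pow (R := MvPolynomial (Fin m) K) f

theorem wdeg_sum_le {ι : Type*} (s : Finset ι) (f : ι → A0 K m) (d : ℕ)
    (h : ∀ i ∈ s, wdeg (f i) ≤ d) : wdeg (∑ i ∈ s, f i) ≤ d :=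
  Polynomial.natDegree_sum_le_of_forall_le (S := MvPolynomial (Fin m) K) s f h

end wdeg

variable {K : Type*} [Field K] {m : ℕ} [NeZero m] (S : Sys K m)

/-- the derivation -/
def D (σ : Bool) : A0 K m →+ A0 K m :=
  AddMonoidHom.mk' (fun f => (S.Θ σ f).coeff 1) (fun f g => by
    rw [map_add, Polynomial.coeff_add])

theorem D_apply (σ : Bool) (f : A0 K m) : S.D σ f = (S.Θ σ f).coeff 1 := rfl

theorem D_mul (σ : Bool) (f g : A0 K m) :
    S.D σ (f * g) = f * S.D σ g + S.D σ f * g := by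
  rw [D_apply, map_mul, Polynomial.mul_coeff_one, Θ_coeff_zero, Θ_coeff_zero]
  rfl

theorem D_xw (σ : Bool) : S.D σ (xw K m) = 0 := by
  rw [D_apply, Θ, ev2_xw, Polynomial.coeff_C]
  simp

theorem D_xv (σ : Bool) (i : Fin m) : S.D σ (xv K m i) = (S.G σ i).coeff 1 := by
  rw [D_apply, Θ, ev2_xv]

theorem D_algebraMap (σ : Bool) (r : K) : S.D σ (algebraMap K (A0 K m) r) = 0 := by
  rw [D_apply, AlgHom.commutes]
  have : algebraMap K (A1 K m) r = Polynomial.C (algebraMap K (A0 K m) r) := rfl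
  rw [this, Polynomial.coeff_C]
  simp

theorem D_one (σ : Bool) : S.D σ 1 = 0 := by
  have := S.D_algebraMap σ 1
  rwa [map_one] at this

theorem D_xw_pow (σ : Bool) (n : ℕ) : S.D σ (xw K m ^ n) = 0 := by
  induction n with
  | zero => rw [pow_zero, D_one]
  | succ n ih => rw [pow_succ, D_mul, ih, D_xw]; simp

/-- The degree of the generator of the flow in `w`. -/
def bdeg (σ : Bool) : ℕ := Finset.univ.sup fun i : Fin m => wdeg ((S.G σ i).coeff 1)

theorem wdeg_D_cV (σ : Bool) (g : MvPolynomial (Fin m) K) :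
    wdeg (S.D σ (cV K m g)) ≤ S.bdeg σ := by
  induction g using MvPolynomial.induction_on with
  | C a =>
    have : cV K m (C a) = algebraMap K (A0 K m) a := (cV K m).commutes a
    rw [this, D_algebraMap, wdeg_zero]
    exact Nat.zero_le _
  | add p q hp hq =>
    rw [map_add, map_add]
    exact (wdeg_add_le _ _).trans (max_le hp hq)
  | mul_X p i hp =>
    have e : cV K m (p * X i) = cV K m p * xv K m i := by rw [map_mul]; rfl
    rw [e, D_mul]
    refine (wdeg_add_le _ _).trans (max_le ?_ ?_)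
    · refine (wdeg_mul_le _ _).trans ?_
      rw [wdeg_cV, Nat.zero_add, D_xv]
      exact Finset.le_sup (f := fun i : Fin m => wdeg ((S.G σ i).coeff 1)) (Finset.mem_univ i)
    · refine (wdeg_mul_le _ _).trans ?_
      rw [wdeg_xv, Nat.add_zero]
      exact hp

theorem wdeg_D (σ : Bool) (f : A0 K m) : wdeg (S.D σ f) ≤ wdeg f + S.bdeg σ := by
  have h := congrArg (S.D σ) (A0_eq_sum f)
  rw [h, map_sum]
  apply wdeg_sum_le
  intro n hn
  rw [D_mul, D_xw_pow, mul_zero, zero_add]
  refine (wdeg_mul_le _ _).trans ?_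
  rw [wdeg_xw_pow]
  have h1 := S.wdeg_D_cV σ (wcoeff f n)
  rw [Finset.mem_range] at hn
  omega

theorem hasseDeriv_map_C {R : Type*} [CommRing R] (n : ℕ) (p : Polynomial R) :
    Polynomial.hasseDeriv n (p.map (Polynomial.C : R →+* Polynomial R)) =
      (Polynomial.hasseDeriv n p).map Polynomial.C := by
  ext1 k
  rw [Polynomial.hasseDeriv_coeff, Polynomial.coeff_map, Polynomial.coeff_map,
    Polynomial.hasseDeriv_coeff, map_mul, map_natCast]

/-- The recursion for the coefficients of the flow. -/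
theorem D_coeff (σ : Bool) (i : Fin m) (n : ℕ) :
    S.D σ ((S.G σ i).coeff n) = ((n + 1 : ℕ) : A0 K m) * (S.G σ i).coeff (n + 1) := by
  have h := S.flow_law σ i
  have h1 : (S.G σ i).eval₂ ((c2 (K := K) (m := m)).comp c1).toRingHom
      (Polynomial.X + Polynomial.C Polynomial.X) =
      Polynomial.taylor Polynomial.X ((S.G σ i).map Polynomial.C) := by
    rw [Polynomial.taylor_apply, Polynomial.comp, Polynomial.eval₂_map]
    rfl
  rw [h1, Polynomial.coe_mapAlgHom] at h
  have h2 := congrArg (fun p => (p.coeff n).coeff 1) h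
  simp only [Polynomial.coeff_map, Polynomial.taylor_coeff] at h2
  rw [hasseDeriv_map_C, Polynomial.eval_map, Polynomial.eval₂_C_X, Polynomial.hasseDeriv_coeff] at h2
  have h3 : S.D σ ((S.G σ i).coeff n) = (S.Θ σ ((S.G σ i).coeff n)).coeff 1 := rfl
  rw [h3]
  have h4 : ((1 + n).choose n : ℕ) = n + 1 := by
    rw [Nat.add_comm, Nat.choose_succ_self_right]
  rw [h4, Nat.add_comm 1 n] at h2
  exact h2

/-- The degree bound. -/
theorem wdeg_coeff [CharZero K] (σ : Bool) (i : Fin m) (n : ℕ) :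
    wdeg ((S.G σ i).coeff n) ≤ S.bdeg σ * n := by
  induction n with
  | zero =>
    rw [G_coeff_zero, wdeg_xv]
    exact Nat.zero_le _
  | succ n ih =>
    have h1 := S.D_coeff σ i n
    have h2 := S.wdeg_D σ ((S.G σ i).coeff n)
    rw [h1, wdeg_natCast_mul (n + 1) (by omega)] at h2
    calc _ ≤ _ := h2
      _ ≤ S.bdeg σ * n + S.bdeg σ := by omega
      _ = _ := by ring

end Sys

end Pool.Agent.Helper49.Girth
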