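import Mathlib
import Pool.Agent.Helper49.Girth.FlowC

set_option autoImplicit false
set_option maxHeartbeats 400000

noncomputable section

namespace Pool.Agent.Helper49.Girth

open MvPolynomial

namespace Sys

section refl

variable {K : Type*} [Field K] {m : ℕ}

/-- reversal in the variable `w` -/
def wrefl (N : ℕ) (f : A0 K m) : A0 K m := Polynomial.reflect (R := MvPolynomial (Fin m) K) N f

theorem wcoeff_wrefl (N : ℕ) (f : A0 K m) : wcoeff (wrefl N f) 0 = wcoeff f N := by
  have := Polynomial.coeff_reflect (R := MvPolynomial (Fin m) K) N f 0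
  rw [Polynomial.revAt_zero] at this
  exact this

theorem wrefl_zero (N : ℕ) : wrefl N (0 : A0 K m) = 0 :=
  Polynomial.reflect_zero (R := MvPolynomial (Fin m) K)

theorem wrefl_cV (p : MvPolynomial (Fin m) K) : wrefl 0 (cV K m p) = cV K m p := by
  have := Polynomial.reflect_C (R := MvPolynomial (Fin m) K) p 0
  rw [pow_zero, mul_one] at this
  exact this

theorem ev2_wrefl {E : Type*} [Field E] [Algebra K E] (v : Fin m → E) (π : E) (hπ : π ≠ 0)
    (N : ℕ) (f : A0 K m) (hf : wdeg f ≤ N) :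
    ev2 K v π (wrefl N f) = ev2 K v π⁻¹ f * π ^ N := by
  let _ : Invertible (π⁻¹) := invertibleOfNonzero (inv_ne_zero hπ)
  have h := Polynomial.eval₂_reflect_mul_pow (R := MvPolynomial (Fin m) K)
    (aeval v : MvPolynomial (Fin m) K →ₐ[K] E).toRingHom π⁻¹ N f hf
  have h1 : ⅟(π⁻¹) = π := by
    rw [invOf_eq_inv, inv_inv]
  rw [h1] at h
  rw [ev2_apply, ev2_apply, ← h]
  have h2 : wrefl N f = Polynomial.reflect (R := MvPolynomial (Fin m) K) N f := rfl
  rw [h2, mul_assoc, ← mul_pow, inv_mul_cancel₀ hπ, one_pow, mul_one]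

theorem ev2_zero {E : Type*} [CommRing E] [Algebra K E] (v : Fin m → E) (f : A0 K m) :
    ev2 K v 0 f = aeval v (wcoeff f 0) := by
  rw [ev2_apply, Polynomial.eval₂_at_zero]
  rfl

theorem ev3_monomial {E : Type*} [CommRing E] [Algebra K E] (v : Fin m → E) (w t : E) (n : ℕ)
    (f : A0 K m) : ev3 K v w t (Polynomial.monomial n f) = ev2 K v w f * t ^ n := by
  rw [ev3_apply, Polynomial.eval₂_monomial]
  rfl

theorem ev3_eq_sum {E : Type*} [CommRing E] [Algebra K E] (v : Fin m → E) (w t : E)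
    (p : A1 K m) : ev3 K v w t p =
      ∑ n ∈ Finset.range (p.natDegree + 1), ev2 K v w (p.coeff n) * t ^ n := by
  rw [ev3_apply, Polynomial.eval₂_eq_sum_range]
  rfl

theorem ev2_mem {Ω : Type*} [Field Ω] [Algebra K Ω] (F : IntermediateField K Ω)
    (v : Fin m → Ω) (w : Ω) (hv : ∀ i, v i ∈ F) (hw : w ∈ F) (f : A0 K m) :
    ev2 K v w f ∈ F := by
  have h := map_ev2 F.val (fun i => (⟨v i, hv i⟩ : F)) ⟨w, hw⟩ f
  have h2 : ev2 K v w f = F.val (ev2 K (fun i => (⟨v i, hv i⟩ : F)) ⟨w, hw⟩ f) := by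
    rw [h]; rfl
  rw [h2]
  exact (ev2 K (fun i => (⟨v i, hv i⟩ : F)) ⟨w, hw⟩ f).2

end refl

variable {K : Type*} [Field K] {m : ℕ} [NeZero m] (S : Sys K m)

/-- the rescaled jump as polynomials in `v`, `π`, `τ` -/
def Ghat (σ : Bool) (i : Fin m) : A1 K m :=
  ∑ n ∈ Finset.range ((S.G σ i).natDegree + 1),
    Polynomial.monomial n (wrefl (S.bdeg σ * n) ((S.G σ i).coeff n))

theorem Ghat_coeff (σ : Bool) (i : Fin m) (n : ℕ) :
    (S.Ghat σ i).coeff n = wrefl (S.bdeg σ * n) ((S.G σ i).coeff n) := by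
  rw [Ghat, Polynomial.finsetSum_coeff]
  simp only [Polynomial.coeff_monomial]
  rw [Finset.sum_ite_eq']
  split_ifs with h
  · rfl
  · rw [Finset.mem_range, not_lt] at h
    rw [Polynomial.coeff_eq_zero_of_natDegree_lt (by omega), wrefl_zero]

/-- the rescaled jump `G(v; 1/π, τ π^b)` -/
def jump {E : Type*} [CommRing E] [Algebra K E] (σ : Bool) (v : Fin m → E) (π τ : E) :
    Fin m → E := fun i => ev3 K v π τ (S.Ghat σ i)

theorem map_jump {E : Type*} [CommRing E] [Algebra K E] {L : Type*} [CommRing L] [Algebra K L]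
    (φ : E →ₐ[K] L) (σ : Bool) (v : Fin m → E) (π τ : E) :
    (fun i => φ (S.jump σ v π τ i)) = S.jump σ (fun i => φ (v i)) (φ π) (φ τ) := by
  funext i
  exact map_ev3 φ v π τ _

theorem jump_eq [CharZero K] {E : Type*} [Field E] [Algebra K E] (σ : Bool) (v : Fin m → E)
    (π τ : E) (hπ : π ≠ 0) :
    S.jump σ v π τ = S.nb (!σ) (S.nb σ v π⁻¹) (v 0 + τ * π ^ S.bdeg σ) := by
  funext i
  rw [← ev3_G, jump, Ghat, map_sum, ev3_eq_sum]
  apply Finset.sum_congr rfl
  intro n _
  rw [ev3_monomial, ev2_wrefl v π hπ _ _ (S.wdeg_coeff σ i n), mul_pow, ← pow_mul]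
  ring

theorem jump_zero_right {E : Type*} [CommRing E] [Algebra K E] (σ : Bool) (v : Fin m → E)
    (π : E) : S.jump σ v π 0 = v := by
  funext i
  rw [jump, ev3_eq_sum, Finset.sum_range_succ']
  rw [Ghat_coeff, G_coeff_zero, mul_zero, xv, wrefl_cV, ev2_cV, aeval_X]
  simp

theorem bdeg_pos [CharZero K] (h : S.Inj K 2) (σ : Bool) : 1 ≤ S.bdeg σ := by
  by_contra hb
  have hb0 : S.bdeg σ = 0 := by omega
  have hw : ∀ i n, wdeg ((S.G σ i).coeff n) = 0 := by
    intro i n
    have := S.wdeg_coeff σ i n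
    rw [hb0, zero_mul] at this
    omega
  have hcst : ∀ (v : Fin m → K) (w w' t : K) (i : Fin m),
      ev3 K v w t (S.G σ i) = ev3 K v w' t (S.G σ i) := by
    intro v w w' t i
    rw [ev3_eq_sum, ev3_eq_sum]
    apply Finset.sum_congr rfl
    intro n _
    congr 1
    have h1 : (S.G σ i).coeff n = cV K m (wcoeff ((S.G σ i).coeff n) 0) :=
      Polynomial.eq_C_of_natDegree_eq_zero (R := MvPolynomial (Fin m) K) (hw i n)
    rw [h1, ev2_cV, ev2_cV]
  have h2 : S.nb (!σ) (S.nb σ (0 : Fin m → K) 0) (0 + 1) =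
      S.nb (!σ) (S.nb σ (0 : Fin m → K) 1) (0 + 1) := by
    funext i
    have := hcst 0 0 1 1 i
    rw [ev3_G, ev3_G] at this
    exact this
  let ω : ℕ → K := fun k => if k = 2 then 1 else 0
  let ω' : ℕ → K := fun k => if k = 0 then 0 else 1
  have h3 := h σ 0 ω ω' rfl rfl (by
    intro k hk1 hk2
    have : k = 1 := by omega
    subst this
    simp [ω]) (by
    intro k hk1 hk2
    have : k = 1 := by omega
    subst this
    simp [ω']) (by
    rw [walk_succ, walk_succ, walk_zero, walk_succ, walk_succ, walk_zero]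
    simpa [ω, ω', ty] using h2) 1 (by norm_num)
  simp [ω, ω'] at h3

theorem exists_lead [CharZero K] (h : S.Inj K 2) (σ : Bool) :
    ∃ i, wcoeff ((S.G σ i).coeff 1) (S.bdeg σ) ≠ 0 := by
  have h1 := S.bdeg_pos h σ
  obtain ⟨i, -, hi⟩ := Finset.exists_mem_eq_sup (Finset.univ : Finset (Fin m))
    ⟨0, Finset.mem_univ _⟩ (fun i : Fin m => wdeg ((S.G σ i).coeff 1))
  have hi' : S.bdeg σ = wdeg ((S.G σ i).coeff 1) := hi
  refine ⟨i, ?_⟩
  rw [hi']
  intro h2
  have h3 : (S.G σ i).coeff 1 = 0 :=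
    (Polynomial.leadingCoeff_eq_zero (R := MvPolynomial (Fin m) K)).mp h2
  rw [h3, wdeg_zero] at hi'
  omega

/-- `τ` is algebraic over `V` and its jump. -/
theorem tau_mem [CharZero K] (h : S.Inj K 2) {Ω : Type*} [Field Ω] [Algebra K Ω] (σ : Bool) (V : Fin m → Ω)
    (hV : AlgebraicIndependent K V) (τ : Ω) (s : Set Ω) (hs1 : ∀ i, V i ∈ cl K s)
    (hs2 : ∀ i, S.jump σ V 0 τ i ∈ cl K s) : τ ∈ cl K s := by
  obtain ⟨i, hi⟩ := S.exists_lead h σ
  apply root_mem_cl ((S.Ghat σ i).map (ev2 K V 0).toRingHom - Polynomial.C (S.jump σ V 0 τ i))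
  · intro h0
    have h1 := congrArg (fun p => Polynomial.coeff p 1) h0
    simp only [Polynomial.coeff_sub, Polynomial.coeff_map, Polynomial.coeff_C, one_ne_zero,
      if_false, sub_zero, Polynomial.coeff_zero] at h1
    rw [Ghat_coeff] at h1
    have h2 : ev2 K V 0 (wrefl (S.bdeg σ * 1) ((S.G σ i).coeff 1)) = 0 := h1
    rw [ev2_zero, wcoeff_wrefl, mul_one] at h2
    exact hi (hV.eq_zero_of_aeval_eq_zero _ h2)
  · intro n
    rw [Polynomial.coeff_sub, Polynomial.coeff_map, Polynomial.coeff_C]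
    apply sub_mem
    · exact ev2_mem _ _ _ hs1 (zero_mem _) _
    · split_ifs
      · exact hs2 i
      · exact zero_mem _
  · rw [Polynomial.eval_sub, Polynomial.eval_map, Polynomial.eval_C, sub_eq_zero]
    rfl

/-- The jump of a generic vertex is generic. -/
theorem jump_indep {Ω : Type*} [Field Ω] [Algebra K Ω] (σ : Bool) (V : Fin m → Ω) (τ : Ω)
    (hV : AlgebraicIndependent K (fun o : Option (Fin m) => o.elim τ V)) :
    AlgebraicIndependent K (S.jump σ V 0 τ) := by
  rw [algebraicIndependent_iff]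
  intro P hP
  let φ : MvPolynomial (Option (Fin m)) K →ₐ[K] Ω := aeval (fun o : Option (Fin m) => o.elim τ V)
  let Vu : Fin m → MvPolynomial (Option (Fin m)) K := fun i => X (some i)
  have h1 : φ (aeval (S.jump σ Vu 0 (X none)) P) = 0 := by
    rw [MvPolynomial.comp_aeval_apply]
    have e := S.map_jump φ σ Vu 0 (X none)
    rw [e]
    have e1 : (fun i => φ (Vu i)) = V := by
      funext i
      simp [φ, Vu]
    rw [e1, map_zero]
    have e2 : φ (X none) = τ := by simp [φ]
    rw [e2]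
    exact hP
  have h2 : aeval (S.jump σ Vu 0 (X none)) P = 0 := hV.eq_zero_of_aeval_eq_zero _ h1
  let ψ : MvPolynomial (Option (Fin m)) K →ₐ[K] MvPolynomial (Fin m) K :=
    aeval (fun o : Option (Fin m) => o.elim 0 X)
  have h3 := congrArg ψ h2
  rw [map_zero, MvPolynomial.comp_aeval_apply] at h3
  have e := S.map_jump ψ σ Vu 0 (X none)
  rw [e] at h3
  have e1 : (fun i => ψ (Vu i)) = X := by
    funext i
    simp [ψ, Vu]
  have e2 : ψ (X none) = 0 := by simp [ψ]
  rw [e1, e2, jump_zero_right, MvPolynomial.aeval_X_left] at h3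
  exact h3

/-- The neighbour of a generic vertex in a generic direction is generic. -/
theorem nb_indep {Ω : Type*} [Field Ω] [Algebra K Ω] (σ : Bool) (V : Fin m → Ω) (s : Ω)
    (hV : AlgebraicIndependent K (fun o : Option (Fin m) => o.elim s V)) :
    AlgebraicIndependent K (S.nb σ V s) := by
  rw [algebraicIndependent_iff]
  intro P hP
  let φ : MvPolynomial (Option (Fin m)) K →ₐ[K] Ω := aeval (fun o : Option (Fin m) => o.elim s V)
  let Vu : Fin m → MvPolynomial (Option (Fin m)) K := fun i => X (some i)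
  have h1 : φ (aeval (S.nb σ Vu (X none)) P) = 0 := by
    rw [MvPolynomial.comp_aeval_apply]
    have e := S.map_nb φ σ Vu (X none)
    rw [e]
    have e1 : (fun i => φ (Vu i)) = V := by
      funext i
      simp [φ, Vu]
    rw [e1]
    have e2 : φ (X none) = s := by simp [φ]
    rw [e2]
    exact hP
  have h2 : aeval (S.nb σ Vu (X none)) P = 0 := hV.eq_zero_of_aeval_eq_zero _ h1
  let W : Fin m → MvPolynomial (Fin m) K := S.nb (!σ) X 0
  let ψ : MvPolynomial (Option (Fin m)) K →ₐ[K] MvPolynomial (Fin m) K :=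
    aeval (fun o : Option (Fin m) => o.elim (X 0) W)
  have h3 := congrArg ψ h2
  rw [map_zero, MvPolynomial.comp_aeval_apply] at h3
  have e := S.map_nb ψ σ Vu (X none)
  rw [e] at h3
  have e1 : (fun i => ψ (Vu i)) = W := by
    funext i
    simp [ψ, Vu]
  have e2 : ψ (X none) = X 0 := by simp [ψ]
  rw [e1, e2, nb_nb', MvPolynomial.aeval_X_left] at h3
  exact h3

end Sys

end Pool.Agent.Helper49.Girth
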