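import Mathlib
import Pool.Agent.Helper49.Girth.GenMem
import Pool.Agent.Helper49.Girth.Jump

set_option autoImplicit false
set_option maxHeartbeats 400000

noncomputable section

namespace Pool.Agent.Helper49.Girth

open MvPolynomial

namespace Sys

section

variable {K : Type*} [Field K] {m : ℕ}

/-- An algebra homomorphism applied to the value of a polynomial at a pair of points. -/
theorem hom_aeval_pair {A B : Type*} [CommRing A] [Algebra K A] [CommRing B] [Algebra K B]
    (φ : A →ₐ[K] B) (u x : Fin m → A) (P : MvPolynomial (Fin m ⊕ Fin m) K) :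
    φ (aeval (Sum.elim u x) P) = aeval (Sum.elim (fun i => φ (u i)) (fun i => φ (x i))) P := by
  rw [MvPolynomial.comp_aeval_apply]
  congr 2
  funext i
  cases i <;> rfl

end

variable {K : Type*} [Field K] {m : ℕ} [NeZero m] (S : Sys K m)

/-- Step A: if `v 0` is transcendental over `v', x` then all relations between `v` and `x`
hold for `(N(v', T), x)`. -/
theorem stepA {Ω : Type*} [Field Ω] [Algebra K Ω] (σ : Bool) (v x : Fin m → Ω) (s : Ω)
    (htr : v 0 ∉ cl K (Set.range (S.nb σ v s) ∪ Set.range x))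
    (P : MvPolynomial (Fin m ⊕ Fin m) K) (hP : aeval (Sum.elim v x) P = 0) :
    aeval (Sum.elim (S.nb (!σ) (fun i => Polynomial.C (S.nb σ v s i)) Polynomial.X)
      (fun i => Polynomial.C (x i))) P = (0 : Polynomial Ω) := by
  set F0 := Algebra.adjoin K (Set.range (S.nb σ v s) ∪ Set.range x) with hF0
  have htr' : Transcendental F0 (v 0) := by
    intro h
    exact htr (mem_cl'.mpr h)
  let v' : Fin m → F0 := fun i => ⟨S.nb σ v s i, Algebra.subset_adjoin (Or.inl ⟨i, rfl⟩)⟩
  let x' : Fin m → F0 := fun i => ⟨x i, Algebra.subset_adjoin (Or.inr ⟨i, rfl⟩)⟩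
  let Q : Polynomial F0 := aeval (Sum.elim (S.nb (!σ) (fun i => Polynomial.C (v' i)) Polynomial.X)
      (fun i => Polynomial.C (x' i))) P
  -- evaluation at `v 0`
  let e : Polynomial F0 →ₐ[K] Ω := (Polynomial.aeval (R := F0) (v 0)).restrictScalars K
  have he1 : ∀ a : F0, e (Polynomial.C a) = a := fun a => Polynomial.aeval_C _ _
  have he2 : e Polynomial.X = v 0 := Polynomial.aeval_X _
  have h1 : e Q = 0 := by
    have h2 := hom_aeval_pair e (S.nb (!σ) (fun i => Polynomial.C (v' i)) Polynomial.X)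
      (fun i => Polynomial.C (x' i)) P
    have h3 : (fun i => e (S.nb (!σ) (fun i => Polynomial.C (v' i)) Polynomial.X i)) = v := by
      rw [S.map_nb e, he2]
      have : (fun i => e (Polynomial.C (v' i))) = S.nb σ v s := by
        funext i; rw [he1]
      rw [this, nb_nb]
    have h4 : (fun i => e (Polynomial.C (x' i))) = x := by
      funext i; rw [he1]
    rw [h3, h4] at h2
    rw [← hP, ← h2]
  have hQ : Q = 0 := by
    have := (transcendental_iff_injective.mp htr')
    apply this
    rw [map_zero]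
    exact h1
  -- map to `Ω[X]`
  let c : Polynomial F0 →ₐ[K] Polynomial Ω := Polynomial.mapAlgHom (F0.val)
  have hc1 : ∀ a : F0, c (Polynomial.C a) = Polynomial.C (a : Ω) := fun a => by
    rw [Polynomial.coe_mapAlgHom, Polynomial.map_C]; rfl
  have hc2 : c Polynomial.X = Polynomial.X := by
    rw [Polynomial.coe_mapAlgHom, Polynomial.map_X]
  have h5 : c Q = 0 := by rw [hQ, map_zero]
  have h2 := hom_aeval_pair c (S.nb (!σ) (fun i => Polynomial.C (v' i)) Polynomial.X)
      (fun i => Polynomial.C (x' i)) P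
  have h3 : (fun i => c (S.nb (!σ) (fun i => Polynomial.C (v' i)) Polynomial.X i)) =
      S.nb (!σ) (fun i => Polynomial.C (S.nb σ v s i)) Polynomial.X := by
    rw [S.map_nb c, hc2]
    congr 1
    funext i; rw [hc1]
  have h4 : (fun i => c (Polynomial.C (x' i))) = fun i => Polynomial.C (x i) := by
    funext i; rw [hc1]
  rw [h3, h4] at h2
  rw [← h2]
  exact h5

/-- Steps B and C for an abstract coordinate ring `Q` of the locus. -/
theorem two_steps_aux {Ω : Type*} [Field Ω] [Algebra K Ω] (σ : Bool) (v x : Fin m → Ω) (s : Ω)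
    (hs : s ∉ cl K (Set.range v ∪ Set.range x))
    (htr : v 0 ∉ cl K (Set.range (S.nb σ v s) ∪ Set.range x))
    {Q : Type*} [CommRing Q] [Algebra K Q] (ub xb : Fin m → Q) (j : Q →ₐ[K] Ω)
    (hj : Function.Injective j) (hju : ∀ i, j (ub i) = v i) (hjx : ∀ i, j (xb i) = x i)
    (hmem : ∀ a, j a ∈ Algebra.adjoin K (Set.range v ∪ Set.range x))
    {R : Type*} [CommRing R] [Algebra K R] (u y : Fin m → R) (ρ : Q →ₐ[K] R)
    (hρu : ∀ i, ρ (ub i) = u i) (hρx : ∀ i, ρ (xb i) = y i) (s1 s2 : R)
    (P : MvPolynomial (Fin m ⊕ Fin m) K) (hP : aeval (Sum.elim v x) P = 0) :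
    aeval (Sum.elim (S.nb (!σ) (S.nb σ u s1) s2) y) P = 0 := by
  -- the universal relation
  let c0 : Q →ₐ[K] Polynomial (Polynomial Q) :=
    ((Polynomial.CAlgHom (R := Polynomial Q) (A := Polynomial Q)).restrictScalars K).comp
      ((Polynomial.CAlgHom (R := Q) (A := Q)).restrictScalars K)
  let Q2 : Polynomial (Polynomial Q) := aeval (Sum.elim
    (S.nb (!σ) (S.nb σ (fun i => c0 (ub i)) (Polynomial.C Polynomial.X)) Polynomial.X)
    (fun i => c0 (xb i))) P
  -- evaluation `S ↦ s` is injective
  let g : Polynomial Q →ₐ[K] Ω := Polynomial.aevalTower j s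
  have hg1 : ∀ a, g (Polynomial.C a) = j a := fun a => Polynomial.aevalTower_C _ _ _
  have hg2 : g Polynomial.X = s := Polynomial.aevalTower_X _ _
  have hginj : Function.Injective g := by
    rw [injective_iff_map_eq_zero]
    intro p hp
    set F0 := Algebra.adjoin K (Set.range v ∪ Set.range x) with hF0
    have htr' : Transcendental F0 s := fun h => hs (mem_cl'.mpr h)
    let j' : Q →+* F0 := (j : Q →+* Ω).codRestrict F0 hmem
    have hj' : Function.Injective j' := fun a b hab => hj (congrArg Subtype.val hab)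
    have h1 : Polynomial.aeval s (p.map j') = 0 := by
      rw [Polynomial.aeval_def, Polynomial.eval₂_map]
      exact hp
    have h2 : p.map j' = 0 := (transcendental_iff.mp htr') _ h1
    exact (Polynomial.map_eq_zero_iff hj').mp h2
  have hQ2 : Q2 = 0 := by
    let g2 : Polynomial (Polynomial Q) →ₐ[K] Polynomial Ω := Polynomial.mapAlgHom g
    have hg2inj : Function.Injective g2 := by
      intro a b hab
      exact Polynomial.map_injective (g : Polynomial Q →+* Ω) hginj hab
    apply hg2inj
    rw [map_zero]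
    have e0 : ∀ a, g2 (c0 a) = Polynomial.C (j a) := by
      intro a
      have : g2 (c0 a) = Polynomial.C (g (Polynomial.C a)) := by
        change Polynomial.map _ (Polynomial.C (Polynomial.C a)) = _
        rw [Polynomial.map_C]
        rfl
      rw [this, hg1]
    have e1 : g2 (Polynomial.C Polynomial.X) = Polynomial.C s := by
      change Polynomial.map _ (Polynomial.C Polynomial.X) = _
      rw [Polynomial.map_C]
      exact congrArg _ hg2
    have e2 : g2 Polynomial.X = Polynomial.X := by
      change Polynomial.map _ Polynomial.X = _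
      rw [Polynomial.map_X]
    have h2 := hom_aeval_pair g2
      (S.nb (!σ) (S.nb σ (fun i => c0 (ub i)) (Polynomial.C Polynomial.X)) Polynomial.X)
      (fun i => c0 (xb i)) P
    have h3 : (fun i => g2 (S.nb (!σ) (S.nb σ (fun i => c0 (ub i)) (Polynomial.C Polynomial.X))
        Polynomial.X i)) =
        S.nb (!σ) (fun i => Polynomial.C (S.nb σ v s i)) Polynomial.X := by
      rw [S.map_nb g2, S.map_nb g2, e1, e2]
      congr 1
      let cΩ : Ω →ₐ[K] Polynomial Ω :=
        (Polynomial.CAlgHom (R := Ω) (A := Ω)).restrictScalars K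
      have h5 := S.map_nb cΩ σ v s
      have h6 : (fun i => Polynomial.C (S.nb σ v s i)) = fun i => cΩ (S.nb σ v s i) := rfl
      rw [h6, h5]
      congr 1
      funext i
      rw [e0, hju]
      rfl
    have h4 : (fun i => g2 (c0 (xb i))) = fun i => Polynomial.C (x i) := by
      funext i
      rw [e0, hjx]
    rw [h3, h4] at h2
    exact h2.trans (S.stepA σ v x s htr P hP)
  -- specialise
  let e : Polynomial (Polynomial Q) →ₐ[K] R :=
    Polynomial.aevalTower (Polynomial.aevalTower ρ s1) s2
  have e0 : ∀ a, e (c0 a) = ρ a := by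
    intro a
    change Polynomial.aevalTower (Polynomial.aevalTower ρ s1) s2
      (Polynomial.C (Polynomial.C a)) = _
    rw [Polynomial.aevalTower_C, Polynomial.aevalTower_C]
  have e1 : e (Polynomial.C Polynomial.X) = s1 := by
    change Polynomial.aevalTower (Polynomial.aevalTower ρ s1) s2
      (Polynomial.C Polynomial.X) = _
    rw [Polynomial.aevalTower_C, Polynomial.aevalTower_X]
  have e2 : e Polynomial.X = s2 := Polynomial.aevalTower_X _ _
  have h2 := hom_aeval_pair e
      (S.nb (!σ) (S.nb σ (fun i => c0 (ub i)) (Polynomial.C Polynomial.X)) Polynomial.X)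
      (fun i => c0 (xb i)) P
  have h3 : (fun i => e (S.nb (!σ) (S.nb σ (fun i => c0 (ub i)) (Polynomial.C Polynomial.X))
      Polynomial.X i)) = S.nb (!σ) (S.nb σ u s1) s2 := by
    rw [S.map_nb e, S.map_nb e, e1, e2]
    congr 2
    funext i
    rw [e0, hρu]
  have h4 : (fun i => e (c0 (xb i))) = y := by
    funext i
    rw [e0, hρx]
  rw [h3, h4] at h2
  rw [← h2]
  have : e Q2 = 0 := by rw [hQ2, map_zero]
  exact this

/-- Steps B and C: the locus of the relations between `v` and `x` is stable under two steps. -/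
theorem two_steps {Ω : Type*} [Field Ω] [Algebra K Ω] (σ : Bool) (v x : Fin m → Ω) (s : Ω)
    (hs : s ∉ cl K (Set.range v ∪ Set.range x))
    (htr : v 0 ∉ cl K (Set.range (S.nb σ v s) ∪ Set.range x))
    {R : Type*} [CommRing R] [Algebra K R] (u y : Fin m → R)
    (huy : ∀ P : MvPolynomial (Fin m ⊕ Fin m) K, aeval (Sum.elim v x) P = 0 →
      aeval (Sum.elim u y) P = 0) (s1 s2 : R)
    (P : MvPolynomial (Fin m ⊕ Fin m) K) (hP : aeval (Sum.elim v x) P = 0) :
    aeval (Sum.elim (S.nb (!σ) (S.nb σ u s1) s2) y) P = 0 := by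
  let φ : MvPolynomial (Fin m ⊕ Fin m) K →ₐ[K] Ω := aeval (Sum.elim v x)
  let mk : MvPolynomial (Fin m ⊕ Fin m) K →ₐ[K]
    (MvPolynomial (Fin m ⊕ Fin m) K ⧸ RingHom.ker φ) := Ideal.Quotient.mkₐ K (RingHom.ker φ)
  let j : (MvPolynomial (Fin m ⊕ Fin m) K ⧸ RingHom.ker φ) →ₐ[K] Ω := Ideal.kerLiftAlg φ
  let ρ : (MvPolynomial (Fin m ⊕ Fin m) K ⧸ RingHom.ker φ) →ₐ[K] R :=
    Ideal.Quotient.liftₐ (RingHom.ker φ) (aeval (Sum.elim u y)) (fun a ha => huy a ha)
  refine S.two_steps_aux σ v x s hs htr (fun i => mk (X (Sum.inl i))) (fun i => mk (X (Sum.inr i)))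
    j (Ideal.kerLiftAlg_injective φ) ?_ ?_ ?_ u y ρ ?_ ?_ s1 s2 P hP
  · intro i
    have : j (mk (X (Sum.inl i))) = φ (X (Sum.inl i)) := rfl
    rw [this]; simp [φ]
  · intro i
    have : j (mk (X (Sum.inr i))) = φ (X (Sum.inr i)) := rfl
    rw [this]; simp [φ]
  · intro a
    obtain ⟨p, rfl⟩ := Ideal.Quotient.mk_surjective a
    have : j (Ideal.Quotient.mk (RingHom.ker φ) p) = φ p := rfl
    rw [this]
    have h1 : Algebra.adjoin K (Set.range v ∪ Set.range x) =
        (aeval (R := K) (Sum.elim v x)).range := by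
      rw [← Algebra.adjoin_range_eq_range_aeval, Set.Sum.elim_range]
    rw [h1]
    exact ⟨p, rfl⟩
  · intro i
    have : ρ (mk (X (Sum.inl i))) = aeval (Sum.elim u y) (X (Sum.inl i)) := rfl
    rw [this]; simp
  · intro i
    have : ρ (mk (X (Sum.inr i))) = aeval (Sum.elim u y) (X (Sum.inr i)) := rfl
    rw [this]; simp

end Sys

end Pool.Agent.Helper49.Girth
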