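import Mathlib
import Pool.Agent.Helper49.Girth.NC

set_option autoImplicit false
set_option maxHeartbeats 400000

noncomputable section

namespace Pool.Agent.Helper49.Girth

open MvPolynomial

/-- The variables span the field of rational functions. -/
theorem cl_fractionRing_eq_top (Ω ι : Type*) [Field Ω] :
    cl Ω (Set.range fun k : ι => algebraMap (MvPolynomial ι Ω)
      (FractionRing (MvPolynomial ι Ω)) (X k)) = ⊤ := by
  rw [eq_top_iff]
  intro x _
  obtain ⟨a, b, hb, rfl⟩ := IsFractionRing.div_surjective (A := MvPolynomial ι Ω) x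
  have key : ∀ p : MvPolynomial ι Ω, algebraMap (MvPolynomial ι Ω)
      (FractionRing (MvPolynomial ι Ω)) p ∈ cl Ω (Set.range fun k : ι =>
        algebraMap (MvPolynomial ι Ω) (FractionRing (MvPolynomial ι Ω)) (X k)) := by
    intro p
    have h1 : algebraMap (MvPolynomial ι Ω) (FractionRing (MvPolynomial ι Ω)) p =
        aeval (fun k : ι => algebraMap (MvPolynomial ι Ω)
          (FractionRing (MvPolynomial ι Ω)) (X k)) p := by
      have h2 := MvPolynomial.comp_aeval_apply (R := Ω) X
        (IsScalarTower.toAlgHom Ω (MvPolynomial ι Ω) (FractionRing (MvPolynomial ι Ω))) p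
      rw [MvPolynomial.aeval_X_left] at h2
      exact h2
    rw [h1]
    exact aeval_mem _ _ (fun i => mem_cl_of_mem (Set.mem_range_self i)) p
  exact div_mem (key a) (key b)

/-- The variables are independent in the field of rational functions. -/
theorem indep_fractionRing (Ω ι : Type*) [Field Ω] :
    AlgebraicIndependent Ω (fun k : ι => algebraMap (MvPolynomial ι Ω)
      (FractionRing (MvPolynomial ι Ω)) (X k)) :=
  (MvPolynomial.algebraicIndependent_X ι Ω).map'
    (f := IsScalarTower.toAlgHom Ω (MvPolynomial ι Ω) (FractionRing (MvPolynomial ι Ω)))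
    (IsFractionRing.injective (MvPolynomial ι Ω) (FractionRing (MvPolynomial ι Ω)))

namespace Sys

variable {K : Type*} [Field K] {m : ℕ} [NeZero m] (S : Sys K m)

theorem nb_mem {Ω : Type*} [Field Ω] [Algebra K Ω] (F : IntermediateField K Ω) (σ : Bool)
    (v : Fin m → Ω) (w : Ω) (hv : ∀ i, v i ∈ F) (hw : w ∈ F) (i : Fin m) :
    S.nb σ v w i ∈ F := by
  apply aeval_mem
  intro o
  cases o with
  | none => exact hw
  | some i => exact hv i

theorem walk_mem {Ω : Type*} [Field Ω] [Algebra K Ω] (F : IntermediateField K Ω) (σ : Bool)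
    (v : Fin m → Ω) (ω : ℕ → Ω) (n : ℕ) (hv : ∀ i, v i ∈ F)
    (hω : ∀ k, 1 ≤ k → k ≤ n → ω k ∈ F) (i : Fin m) :
    S.walk σ v ω n i ∈ F := by
  induction n generalizing i with
  | zero => exact hv i
  | succ n ih =>
    rw [walk_succ]
    exact S.nb_mem F _ _ _ (fun i => ih (fun k h1 h2 => hω k h1 (by omega)) i)
      (hω (n + 1) (by omega) le_rfl) i

/-- going backwards along a walk -/
theorem walk_mem_rev {Ω : Type*} [Field Ω] [Algebra K Ω] (F : IntermediateField K Ω) (σ : Bool)
    (v : Fin m → Ω) (ω : ℕ → Ω) (h0 : ω 0 = v 0) (n a : ℕ)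
    (hn : ∀ i, S.walk σ v ω (a + n) i ∈ F)
    (hω : ∀ k, a ≤ k → k < a + n → ω k ∈ F) (i : Fin m) :
    S.walk σ v ω a i ∈ F := by
  induction n generalizing i with
  | zero => exact hn i
  | succ n ih =>
    refine ih (fun i => ?_) (fun k h1 h2 => hω k h1 (by omega)) i
    rw [walk_rev]
    refine S.nb_mem F _ _ _ (fun i => hn i) ?_ i
    rw [S.walk_fst σ v ω h0]
    exact hω (a + n) (by omega) (by omega)

/-- The end of a long generic walk is generic. -/
theorem walk_indep [IsAlgClosed K] [CharZero K] (hinj : S.Inj K m) {Ω R : Type*} [Field Ω]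
    [Algebra K Ω] [Field R] [Algebra K R] [Algebra Ω R] [IsScalarTower K Ω R] (σ : Bool)
    (v : Fin m → Ω) (ξ : Fin (2 * m) → R) (hξ : AlgebraicIndependent Ω ξ)
    (hspan : cl Ω (Set.range ξ) = ⊤) (ω : ℕ → R) (h0 : ω 0 = algebraMap Ω R (v 0))
    (hω : ∀ k (hk : k < 2 * m), ω (k + 1) = ξ ⟨k, hk⟩) :
    AlgebraicIndependent Ω (S.walk σ (fun i => algebraMap Ω R (v i)) ω (2 * m)) := by
  classical
  set vR : Fin m → R := fun i => algebraMap Ω R (v i) with hvR
  have hm : 0 < m := Nat.pos_of_ne_zero (NeZero.ne m)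
  let z : Fin m ⊕ Fin m → R := Sum.elim (S.walk σ vR ω (2 * m)) (fun i => ω (m + i))
  set F := cl Ω (Set.range z) with hF
  have hz : ∀ a, z a ∈ F := fun a => mem_cl_of_mem ⟨a, rfl⟩
  have hω1 : ∀ k, m ≤ k → k < 2 * m → ω k ∈ F := by
    intro k h1 h2
    have := hz (Sum.inr ⟨k - m, by omega⟩)
    simp only [z, Sum.elim_inr] at this
    rwa [Nat.add_sub_cancel' h1] at this
  have hvF : ∀ i, vR i ∈ F := fun i => F.algebraMap_mem (v i)
  have hend : ∀ i, S.walk σ vR ω (m + m) i ∈ F := by
    intro i
    have := hz (Sum.inl i)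
    simp only [z, Sum.elim_inl] at this
    rwa [← two_mul]
  have hmid : ∀ i, S.walk σ vR ω m i ∈ F := by
    let F' : IntermediateField K R := F.restrictScalars K
    have : ∀ i, S.walk σ vR ω m i ∈ F' :=
      S.walk_mem_rev F' σ vR ω h0 m m (fun i => hend i)
        (fun k h1 h2 => hω1 k h1 (by omega))
    exact this
  have hne : ∀ k, 1 ≤ k → k < m → ω (k + 1) ≠ ω (k - 1) := by
    intro k h1 h2 hh
    rw [hω k (by omega)] at hh
    rcases Nat.lt_or_ge k 2 with h3 | h3
    · have : k - 1 = 0 := by omega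
      rw [this, h0] at hh
      have h4 := hξ.transcendental ⟨k, by omega⟩
      rw [hh] at h4
      exact h4 (isAlgebraic_algebraMap _)
    · have : k - 1 = (k - 2) + 1 := by omega
      rw [this, hω (k - 2) (by omega)] at hh
      have := hξ.injective hh
      simp only [Fin.mk.injEq] at this
      omega
  have hω2 : ∀ k, k ≤ m → ω k ∈ F := by
    intro k hk
    have h1 := S.gen_mem hinj σ vR ω h0 hne k hk
    have h2 : IntermediateField.adjoin K (Set.range vR ∪ Set.range (S.walk σ vR ω m)) ≤
        F.restrictScalars K := by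
      rw [IntermediateField.adjoin_le_iff]
      rintro y (⟨i, rfl⟩ | ⟨i, rfl⟩)
      · exact hvF i
      · exact hmid i
    exact h2 h1
  have hall : ∀ k, k ≤ 2 * m → ω k ∈ F := by
    intro k hk
    rcases Nat.lt_or_ge k m with h1 | h1
    · exact hω2 k (by omega)
    · rcases Nat.lt_or_ge k (2 * m) with h2 | h2
      · exact hω1 k h1 h2
      · have h3 : k = 2 * m := by omega
        have := hz (Sum.inl 0)
        simp only [z, Sum.elim_inl] at this
        rw [S.walk_fst σ vR ω h0] at this
        rwa [h3]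
  have htop : cl Ω (Set.range z) = ⊤ := by
    rw [eq_top_iff, ← hspan]
    apply cl_le_cl
    rintro _ ⟨k, rfl⟩
    rw [← hω k.1 k.2]
    exact hall _ (by omega)
  have hzi : AlgebraicIndependent Ω z := by
    apply algebraicIndependent_of_cl_eq_top z htop
    have h1 := trdeg_lt_of_dep hξ
    refine le_trans (le_of_eq ?_) h1
    simp only [Nat.card_eq_fintype_card, Fintype.card_sum, Fintype.card_fin]
    congr 1
    ring
  exact hzi.comp Sum.inl Sum.inl_injective

/-- One step of the noncontraction argument. -/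
theorem nc_step [IsAlgClosed K] [CharZero K] (hinj : S.Inj K m) {Ω : Type*} [Field Ω]
    [Algebra K Ω] (htrdeg : Algebra.trdeg K Ω < (2 * m : ℕ)) (σ : Bool)
    (v x : Fin m → Ω) (hx : AlgebraicIndependent K x) (s : Ω)
    (hs : s ∉ cl K (Set.range v ∪ Set.range x)) :
    v 0 ∈ cl K (Set.range (S.nb σ v s) ∪ Set.range x) := by
  classical
  by_contra htr
  let R := FractionRing (MvPolynomial (Fin (2 * m)) Ω)
  let ξ : Fin (2 * m) → R := fun k => algebraMap (MvPolynomial (Fin (2 * m)) Ω) R (X k)
  have hξ : AlgebraicIndependent Ω ξ := indep_fractionRing Ω (Fin (2 * m))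
  have hspan : cl Ω (Set.range ξ) = ⊤ := cl_fractionRing_eq_top Ω (Fin (2 * m))
  let ω : ℕ → R := fun k => match k with
    | 0 => algebraMap Ω R (v 0)
    | (k + 1) => if h : k < 2 * m then ξ ⟨k, h⟩ else 0
  have hω0 : ω 0 = algebraMap Ω R (v 0) := rfl
  have hω : ∀ k (hk : k < 2 * m), ω (k + 1) = ξ ⟨k, hk⟩ := by
    intro k hk
    simp [ω, hk]
  have hwalk := S.walk_indep hinj σ v ξ hξ hspan ω hω0 hω
  have hboth := hx.sumElim_comp hwalk
  -- all relations hold along even walks
  have hrel : ∀ r, ∀ P : MvPolynomial (Fin m ⊕ Fin m) K, aeval (Sum.elim v x) P = 0 →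
      aeval (Sum.elim (S.walk σ (fun i => algebraMap Ω R (v i)) ω (2 * r))
        (fun i => algebraMap Ω R (x i))) P = 0 := by
    intro r
    induction r with
    | zero =>
      intro P hP
      have h1 := hom_aeval_pair (IsScalarTower.toAlgHom K Ω R) v x P
      rw [hP, map_zero] at h1
      exact h1.symm
    | succ r ih =>
      intro P hP
      have h1 := S.two_steps σ v x s hs htr _ _ ih (ω (2 * r + 1)) (ω (2 * r + 2)) P hP
      have h2 : ty σ (2 * r) = σ := by
        clear h1 ih
        induction r with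
        | zero => rfl
        | succ r ih => rw [Nat.mul_succ, ty_add_two, ih]
      have h3 : ty σ (2 * r + 1) = !σ := by rw [ty_succ, h2]
      have e : 2 * (r + 1) = 2 * r + 1 + 1 := by ring
      rw [e, walk_succ, walk_succ, h3, h2]
      exact h1
  have hindep : AlgebraicIndependent K (Sum.elim v x) := by
    rw [algebraicIndependent_iff]
    intro P hP
    exact hboth.eq_zero_of_aeval_eq_zero P (hrel m P hP)
  have h1 := trdeg_lt_of_dep hindep
  have h2 := h1.trans_lt htrdeg
  rw [Nat.card_eq_fintype_card, Fintype.card_sum, Fintype.card_fin] at h2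
  have h3 : m + m < 2 * m := by exact_mod_cast h2
  omega

end Sys

end Pool.Agent.Helper49.Girth
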