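import Mathlib
import Pool.Agent.Helper49.Girth.NC2

set_option autoImplicit false
set_option maxHeartbeats 400000

noncomputable section

namespace Pool.Agent.Helper49.Girth

open MvPolynomial

namespace Sys

variable {K : Type*} [Field K] {m : ℕ} [NeZero m] (S : Sys K m)

section good

omit [NeZero m]

variable (K) {Ω : Type*} [Field Ω] [Algebra K Ω]

/-- `x` and `y` are generic vertices, and `S₀` has the same closure as `x, y`. -/
structure Good (S0 : Set Ω) (x y : Fin m → Ω) : Prop where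
  gx : AlgebraicIndependent K x
  gy : AlgebraicIndependent K y
  hx : ∀ i, x i ∈ cl K S0
  hy : ∀ i, y i ∈ cl K S0
  hS : ∀ a ∈ S0, a ∈ cl K (Set.range x ∪ Set.range y)

variable {K}

theorem Good.symm {S0 : Set Ω} {x y : Fin m → Ω} (h : Good K S0 x y) : Good K S0 y x :=
  ⟨h.gy, h.gx, h.hy, h.hx, fun a ha => by rw [Set.union_comm]; exact h.hS a ha⟩

end good

theorem Good.step [IsAlgClosed K] [CharZero K] (hinj : S.Inj K m) {Ω : Type*} [Field Ω]
    [Algebra K Ω] (htrdeg : Algebra.trdeg K Ω < (2 * m : ℕ)) (σ : Bool) {S0 : Set Ω}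
    {x y : Fin m → Ω} (h : Good K S0 x y) {s : Ω} (hs : s ∉ cl K S0) :
    Good K (insert s S0) (S.nb σ x s) y := by
  have hle : cl K (Set.range x ∪ Set.range y) ≤ cl K S0 := by
    apply cl_le_cl
    rintro a (⟨i, rfl⟩ | ⟨i, rfl⟩)
    · exact h.hx i
    · exact h.hy i
  have hs1 : s ∉ cl K (Set.range x ∪ Set.range y) := fun h1 => hs (hle h1)
  have hs2 : s ∉ cl K (Set.range x) := fun h1 => hs1 (cl_mono Set.subset_union_left h1)
  have hle2 : cl K S0 ≤ cl K (insert s S0) := cl_mono (Set.subset_insert _ _)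
  have h0 : x 0 ∈ cl K (Set.range (S.nb σ x s) ∪ Set.range y) :=
    S.nc_step hinj htrdeg σ x y h.gy s hs1
  have hx' : ∀ i, x i ∈ cl K (Set.range (S.nb σ x s) ∪ Set.range y) := by
    intro i
    have h1 := S.nb_mem (cl K (Set.range (S.nb σ x s) ∪ Set.range y)) (!σ) (S.nb σ x s) (x 0)
      (fun i => mem_cl_of_mem (Or.inl ⟨i, rfl⟩)) h0 i
    rwa [nb_nb] at h1
  refine ⟨?_, h.gy, ?_, ?_, ?_⟩
  · apply S.nb_indep
    rw [h.gx.option_iff_transcendental]
    intro h1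
    exact hs2 (mem_cl'.mpr h1)
  · intro i
    exact S.nb_mem _ _ _ _ (fun i => hle2 (h.hx i)) (mem_cl_of_mem (Set.mem_insert _ _)) i
  · intro i
    exact hle2 (h.hy i)
  · rintro a (rfl | ha)
    · have h1 : S.nb σ x a 0 = a := S.nb_zero σ x a
      have h2 : S.nb σ x a 0 ∈ cl K (Set.range (S.nb σ x a) ∪ Set.range y) :=
        mem_cl_of_mem (Or.inl ⟨0, rfl⟩)
      rwa [h1] at h2
    · have h1 := h.hS a ha
      refine (cl_le_cl ?_) h1
      rintro b (⟨i, rfl⟩ | ⟨i, rfl⟩)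
      · exact hx' i
      · exact mem_cl_of_mem (Or.inr ⟨i, rfl⟩)

theorem jump_mem {Ω : Type*} [Field Ω] [Algebra K Ω] (F : IntermediateField K Ω) (σ : Bool)
    (v : Fin m → Ω) (π τ : Ω) (hv : ∀ i, v i ∈ F) (hπ : π ∈ F) (hτ : τ ∈ F) (i : Fin m) :
    S.jump σ v π τ i ∈ F := by
  have h := S.map_jump F.val σ (fun i => (⟨v i, hv i⟩ : F)) ⟨π, hπ⟩ ⟨τ, hτ⟩
  have h2 : S.jump σ v π τ i = F.val (S.jump σ (fun i => (⟨v i, hv i⟩ : F)) ⟨π, hπ⟩ ⟨τ, hτ⟩ i) := by
    rw [congrFun h i]; rfl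
  rw [h2]
  exact (S.jump σ (fun i => (⟨v i, hv i⟩ : F)) ⟨π, hπ⟩ ⟨τ, hτ⟩ i).2

/-- Noncontraction: the ends of a degenerate walk generate (up to algebraic elements) its field
of definition. -/
theorem chain [IsAlgClosed K] [CharZero K] (hinj : S.Inj K m) (hinj2 : S.Inj K 2)
    {Ω : Type*} [Field Ω] [Algebra K Ω] (htrdeg : Algebra.trdeg K Ω < (2 * m : ℕ)) (σ : Bool)
    (j : ℕ) (hj1 : 1 ≤ j) (hj : j < m) (v0 : Fin m → Ω) (ω : ℕ → Ω) (h0 : ω 0 = v0 0) (τ : Ω)
    (qq : ℕ → Ω) (hqq : ∀ k, k ≠ j + 1 → qq k = ω k) (hqq1 : qq (j + 1) = τ)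
    (hind : AlgebraicIndependent K (Sum.elim (S.walk σ v0 ω (j - 1))
      (fun k : {k : ℕ // k ≤ m ∧ k ≠ j - 1 ∧ k ≠ j} => qq k))) :
    Good K (Set.range (S.walk σ v0 ω (j - 1)) ∪ qq '' {k : ℕ | k ≤ m ∧ k ≠ j - 1 ∧ k ≠ j}) v0
      (S.walk (ty σ (j + 1)) (S.jump (ty σ (j - 1)) (S.walk σ v0 ω (j - 1)) 0 τ)
        (fun k => ω (j + 1 + k)) (m - j - 1)) := by
  set V := S.walk σ v0 ω (j - 1) with hV
  set V' := S.jump (ty σ (j - 1)) V 0 τ with hV'
  set A : Set ℕ := {k : ℕ | k ≤ m ∧ k ≠ j - 1 ∧ k ≠ j} with hA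
  -- freeness
  have hfree : ∀ (T : Set ℕ) (k : ℕ), T ⊆ A → k ∈ A → k ∉ T →
      qq k ∉ cl K (Set.range V ∪ qq '' T) := by
    intro T k hT hk hkT
    have h1 := notMem_cl_of_independent hind
      (J := Set.range Sum.inl ∪ Sum.inr '' {a : {k : ℕ // k ≤ m ∧ k ≠ j - 1 ∧ k ≠ j} | (a : ℕ) ∈ T})
      (i := Sum.inr ⟨k, hk⟩) (by
        rintro (⟨i, hi⟩ | ⟨a, ha, hi⟩)
        · cases hi
        · have := Sum.inr_injective hi
          rw [this] at ha
          exact hkT ha)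
    simp only [Sum.elim_inr] at h1
    intro h2
    apply h1
    refine (cl_mono ?_) h2
    rintro a (⟨i, rfl⟩ | ⟨k', hk', rfl⟩)
    · exact ⟨Sum.inl i, Or.inl ⟨i, rfl⟩, rfl⟩
    · exact ⟨Sum.inr ⟨k', hT hk'⟩, Or.inr ⟨⟨k', hT hk'⟩, hk', rfl⟩, rfl⟩
  have hVind : AlgebraicIndependent K V := hind.comp Sum.inl Sum.inl_injective
  have hj1A : j + 1 ∈ A := ⟨by omega, by omega, by omega⟩
  have hopt : AlgebraicIndependent K (fun o : Option (Fin m) => o.elim τ V) := by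
    rw [hVind.option_iff_transcendental]
    intro h1
    have h2 := hfree ∅ (j + 1) (Set.empty_subset _) hj1A (Set.notMem_empty _)
    rw [Set.image_empty, Set.union_empty, hqq1] at h2
    exact h2 (mem_cl'.mpr h1)
  -- the base case
  have base : Good K (Set.range V ∪ qq '' {j + 1}) V V' := by
    refine ⟨hVind, S.jump_indep _ V τ hopt, ?_, ?_, ?_⟩
    · intro i
      exact mem_cl_of_mem (Or.inl ⟨i, rfl⟩)
    · intro i
      exact S.jump_mem (cl K (Set.range V ∪ qq '' {j + 1})) (ty σ (j - 1)) V 0 τ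
        (fun i => mem_cl_of_mem (Or.inl ⟨i, rfl⟩)) (zero_mem _)
        (mem_cl_of_mem (Or.inr ⟨j + 1, rfl, hqq1⟩)) i
    · rintro a (⟨i, rfl⟩ | ⟨k, hk, rfl⟩)
      · exact mem_cl_of_mem (Or.inl ⟨i, rfl⟩)
      · rw [Set.mem_singleton_iff] at hk
        rw [hk, hqq1]
        exact S.tau_mem hinj2 (ty σ (j - 1)) V hVind τ _
          (fun i => mem_cl_of_mem (Or.inl ⟨i, rfl⟩)) (fun i => mem_cl_of_mem (Or.inr ⟨i, rfl⟩))
  -- steps to the right
  have right : ∀ c, c ≤ m - j - 1 → Good K (Set.range V ∪ qq '' {k | j + 1 ≤ k ∧ k ≤ j + 1 + c}) V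
      (S.walk (ty σ (j + 1)) V' (fun k => ω (j + 1 + k)) c) := by
    intro c
    induction c with
    | zero =>
      intro _
      have : {k : ℕ | j + 1 ≤ k ∧ k ≤ j + 1 + 0} = {j + 1} := by
        ext k; simp only [Set.mem_ofPred_eq, Set.mem_singleton_iff]; omega
      rw [this]
      exact base
    | succ c ih =>
      intro hc
      have hg := ih (by omega)
      have hfr := hfree {k | j + 1 ≤ k ∧ k ≤ j + 1 + c} (j + 1 + (c + 1))
        (fun k hk => by
          simp only [Set.mem_ofPred_eq] at hk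
          exact ⟨by omega, by omega, by omega⟩) ⟨by omega, by omega, by omega⟩ (by
          simp only [Set.mem_ofPred_eq]; omega)
      rw [hqq _ (by omega)] at hfr
      have h1 := (Good.step S hinj htrdeg (ty (ty σ (j + 1)) c) hg.symm hfr).symm
      have h2 : insert (ω (j + 1 + (c + 1))) (Set.range V ∪ qq '' {k | j + 1 ≤ k ∧ k ≤ j + 1 + c}) =
          Set.range V ∪ qq '' {k | j + 1 ≤ k ∧ k ≤ j + 1 + (c + 1)} := by
        have h3 : {k : ℕ | j + 1 ≤ k ∧ k ≤ j + 1 + (c + 1)} =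
            insert (j + 1 + (c + 1)) {k | j + 1 ≤ k ∧ k ≤ j + 1 + c} := by
          ext k; simp only [Set.mem_ofPred_eq, Set.mem_insert_iff]; omega
        rw [h3, Set.image_insert_eq, Set.union_insert, hqq _ (by omega)]
      rw [h2] at h1
      exact h1
  -- steps to the left
  have left : ∀ a, a ≤ j - 1 → Good K (Set.range V ∪ qq '' {k | (j + 1 ≤ k ∧ k ≤ m) ∨
      (j - 1 - a ≤ k ∧ k < j - 1)}) (S.walk σ v0 ω (j - 1 - a))
      (S.walk (ty σ (j + 1)) V' (fun k => ω (j + 1 + k)) (m - j - 1)) := by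
    intro a
    induction a with
    | zero =>
      intro _
      have h1 := right (m - j - 1) le_rfl
      have : {k : ℕ | (j + 1 ≤ k ∧ k ≤ m) ∨ (j - 1 - 0 ≤ k ∧ k < j - 1)} =
          {k | j + 1 ≤ k ∧ k ≤ j + 1 + (m - j - 1)} := by
        ext k; simp only [Set.mem_ofPred_eq]; omega
      rw [this]
      exact h1
    | succ a ih =>
      intro ha
      have hg := ih (by omega)
      set k0 := j - 1 - (a + 1) with hk0
      have hk1 : j - 1 - a = k0 + 1 := by omega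
      have hfr := hfree {k | (j + 1 ≤ k ∧ k ≤ m) ∨ (j - 1 - a ≤ k ∧ k < j - 1)} k0
        (fun k hk => by
          simp only [Set.mem_ofPred_eq] at hk
          exact ⟨by omega, by omega, by omega⟩) ⟨by omega, by omega, by omega⟩ (by
          simp only [Set.mem_ofPred_eq]; omega)
      rw [hqq _ (by omega)] at hfr
      have h1 := Good.step S hinj htrdeg (ty σ (k0 + 1)) hg hfr
      have h2 : insert (ω k0) (Set.range V ∪ qq '' {k | (j + 1 ≤ k ∧ k ≤ m) ∨
          (j - 1 - a ≤ k ∧ k < j - 1)}) =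
          Set.range V ∪ qq '' {k | (j + 1 ≤ k ∧ k ≤ m) ∨ (k0 ≤ k ∧ k < j - 1)} := by
        have h3 : {k : ℕ | (j + 1 ≤ k ∧ k ≤ m) ∨ (k0 ≤ k ∧ k < j - 1)} =
            insert k0 {k | (j + 1 ≤ k ∧ k ≤ m) ∨ (j - 1 - a ≤ k ∧ k < j - 1)} := by
          ext k; simp only [Set.mem_ofPred_eq, Set.mem_insert_iff]; omega
        rw [h3, Set.image_insert_eq, Set.union_insert, hqq _ (by omega)]
      rw [h2, hk1] at h1
      have h4 : S.nb (ty σ (k0 + 1)) (S.walk σ v0 ω (k0 + 1)) (ω k0) = S.walk σ v0 ω k0 := by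
        have := S.walk_rev σ v0 ω k0
        rw [S.walk_fst σ v0 ω h0] at this
        exact this.symm
      rw [h4] at h1
      exact h1
  have h1 := left (j - 1) le_rfl
  have h2 : {k : ℕ | (j + 1 ≤ k ∧ k ≤ m) ∨ (j - 1 - (j - 1) ≤ k ∧ k < j - 1)} = A := by
    ext k
    simp only [Set.mem_ofPred_eq, hA]
    omega
  rw [h2, Nat.sub_self] at h1
  exact h1

end Sys

end Pool.Agent.Helper49.Girth
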