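import Mathlib
import Pool.Agent.Helper49.Girth.Dim

set_option autoImplicit false
set_option maxHeartbeats 400000

noncomputable section

namespace Pool.Agent.Helper49.Girth

open MvPolynomial

universe u

/-- The residue field at a prime element of a polynomial ring. -/
theorem exists_residue {K : Type u} [Field K] {ι : Type} [Finite ι] (h : MvPolynomial ι K)
    (hh : Prime h) :
    ∃ (Ω : Type u) (_ : Field Ω) (_ : Algebra K Ω) (r : MvPolynomial ι K →ₐ[K] Ω),
      (∀ p, r p = 0 ↔ h ∣ p) ∧ cl K (Set.range fun i => r (X i)) = ⊤ ∧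
      Algebra.trdeg K Ω < (Nat.card ι : Cardinal) ∧
      (Nat.card ι : Cardinal) ≤ Algebra.trdeg K Ω + 1 := by
  classical
  let I : Ideal (MvPolynomial ι K) := Ideal.span {h}
  have hI : I.IsPrime := (Ideal.span_singleton_prime hh.ne_zero).mpr hh
  have hdom : IsDomain (MvPolynomial ι K ⧸ I) := Ideal.Quotient.isDomain I
  let Ω := FractionRing (MvPolynomial ι K ⧸ I)
  let mk : MvPolynomial ι K →ₐ[K] (MvPolynomial ι K ⧸ I) := Ideal.Quotient.mkₐ K I
  let r : MvPolynomial ι K →ₐ[K] Ω := (IsScalarTower.toAlgHom K (MvPolynomial ι K ⧸ I) Ω).comp mk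
  have hr : ∀ p, r p = 0 ↔ h ∣ p := by
    intro p
    have h1 : r p = algebraMap (MvPolynomial ι K ⧸ I) Ω (Ideal.Quotient.mk I p) := rfl
    rw [h1, map_eq_zero_iff _ (IsFractionRing.injective (MvPolynomial ι K ⧸ I) Ω),
      Ideal.Quotient.eq_zero_iff_mem, Ideal.mem_span_singleton]
  have hra : ∀ p, r p = aeval (fun i => r (X i)) p := by
    intro p
    rw [← MvPolynomial.comp_aeval_apply, MvPolynomial.aeval_X_left]
    rfl
  have hspan : cl K (Set.range fun i => r (X i)) = ⊤ := by
    rw [eq_top_iff]
    intro x _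
    obtain ⟨a, b, hb, rfl⟩ := IsFractionRing.div_surjective (A := MvPolynomial ι K ⧸ I) x
    have key : ∀ p : MvPolynomial ι K ⧸ I, algebraMap (MvPolynomial ι K ⧸ I) Ω p ∈
        cl K (Set.range fun i => r (X i)) := by
      intro p
      obtain ⟨p, rfl⟩ := Ideal.Quotient.mk_surjective p
      have h1 : algebraMap (MvPolynomial ι K ⧸ I) Ω (Ideal.Quotient.mk I p) = r p := rfl
      rw [h1, hra]
      exact aeval_mem _ _ (fun i => mem_cl_of_mem (Set.mem_range_self i)) p
    exact div_mem (key a) (key b)
  refine ⟨Ω, inferInstance, inferInstance, r, hr, hspan, ?_, ?_⟩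
  · by_contra hcon
    push Not at hcon
    have h1 := algebraicIndependent_of_cl_eq_top _ hspan hcon
    apply hh.ne_zero
    apply h1.eq_zero_of_aeval_eq_zero
    rw [← hra, hr]
  · -- a variable occurring in `h`
    obtain ⟨i0, hi0⟩ : ∃ i0, degreeOf i0 h ≠ 0 := by
      by_contra hcon
      push Not at hcon
      apply hh.not_isUnit
      have h1 : h.totalDegree = 0 := by
        rw [MvPolynomial.totalDegree_eq_zero_iff]
        intro m hm i
        have h2 := MvPolynomial.monomial_le_degreeOf i hm
        rw [hcon i] at h2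
        omega
      rw [MvPolynomial.totalDegree_eq_zero_iff_eq_C] at h1
      rw [h1]
      have h3 : coeff 0 h ≠ 0 := by
        intro h3
        rw [h3, map_zero] at h1
        exact hh.ne_zero h1
      exact (Ne.isUnit h3).map C
    have hind : AlgebraicIndependent K (fun i : {i : ι // i ≠ i0} => r (X (i : ι))) := by
      rw [algebraicIndependent_iff]
      intro P hP
      have h1 : r (rename Subtype.val P) = 0 := by
        rw [hra, MvPolynomial.aeval_rename]
        exact hP
      rw [hr] at h1
      obtain ⟨c, hc⟩ := h1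
      by_contra hP0
      have h2 : rename (Subtype.val : {i : ι // i ≠ i0} → ι) P ≠ 0 := by
        intro h3
        apply hP0
        exact (rename_injective _ Subtype.val_injective) (by rw [h3, map_zero])
      have hc0 : c ≠ 0 := by
        rintro rfl
        rw [mul_zero] at hc
        exact h2 hc
      have h4 := congrArg (degreeOf i0) hc
      rw [degreeOf_mul_eq hh.ne_zero hc0] at h4
      have h5 : degreeOf i0 (rename (Subtype.val : {i : ι // i ≠ i0} → ι) P) = 0 := by
        rw [MvPolynomial.degreeOf_eq_sup]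
        refine Nat.eq_zero_of_le_zero (Finset.sup_le ?_)
        intro m hm
        by_contra hmi'
        have hmi : m i0 ≠ 0 := by omega
        have h6 : i0 ∈ (rename (Subtype.val : {i : ι // i ≠ i0} → ι) P).vars := by
          rw [MvPolynomial.mem_vars_iff_mem_support]
          exact ⟨m, hm, Finsupp.mem_support_iff.mpr hmi⟩
        have h7 := MvPolynomial.vars_rename (Subtype.val : {i : ι // i ≠ i0} → ι) P h6
        rw [Finset.mem_image] at h7
        obtain ⟨i, -, hi⟩ := h7
        exact i.2 hi
      omega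
    have h1 := trdeg_lt_of_dep hind
    have h2 : Nat.card {i : ι // i ≠ i0} + 1 = Nat.card ι := by
      have := Fintype.ofFinite ι
      rw [Nat.card_eq_fintype_card, Nat.card_eq_fintype_card, Fintype.card_subtype_compl,
        Fintype.card_subtype_eq]
      have : 0 < Fintype.card ι := Fintype.card_pos_iff.mpr ⟨i0⟩
      omega
    rw [← h2]
    push_cast
    exact add_le_add_left h1 1

/-- Contraction of a prime element along `β`. -/
theorem exists_contraction {K : Type u} [Field K] {ι κ : Type} [Finite ι] [Finite κ]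
    (hcard : Nat.card κ = Nat.card ι) (h : MvPolynomial ι K)
    {Ω : Type u} [Field Ω] [Algebra K Ω] (r : MvPolynomial ι K →ₐ[K] Ω)
    (hr : ∀ p, r p = 0 ↔ h ∣ p) (htr1 : Algebra.trdeg K Ω < (Nat.card ι : Cardinal))
    (htr2 : (Nat.card ι : Cardinal) ≤ Algebra.trdeg K Ω + 1)
    (β : MvPolynomial κ K →ₐ[K] MvPolynomial ι K)
    (hspan : cl K (Set.range fun i => r (β (X i))) = ⊤) :
    ∃ F : MvPolynomial κ K, Prime F ∧ ∀ P, h ∣ β P ↔ F ∣ P := by
  obtain ⟨F, hF, hker⟩ := ker_principal (r.comp β) hspan (by rw [hcard]; exact htr2) (by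
    intro hbot
    have hind : AlgebraicIndependent K (fun i => r (β (X i))) := by
      rw [algebraicIndependent_iff]
      intro P hP
      have h1 : (r.comp β) P = 0 := by
        rw [← hP]
        have h2 := MvPolynomial.comp_aeval_apply (R := K) X (r.comp β) P
        rw [MvPolynomial.aeval_X_left] at h2
        exact h2
      have h2 : P ∈ RingHom.ker (r.comp β) := h1
      rw [hbot] at h2
      exact h2
    have h1 := trdeg_lt_of_dep hind
    rw [hcard] at h1
    exact absurd htr1 (not_lt.mpr h1))
  refine ⟨F, hF, fun P => ?_⟩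
  have h1 : P ∈ RingHom.ker (r.comp β) ↔ F ∣ P := by
    rw [hker, Ideal.mem_span_singleton]
  rw [← h1, ← hr]
  rfl

end Pool.Agent.Helper49.Girth
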