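import Mathlib
import Pool.Agent.Helper49.Girth.Chain
import Pool.Agent.Helper49.Girth.Res

set_option autoImplicit false
set_option maxHeartbeats 400000

noncomputable section

namespace Pool.Agent.Helper49.Girth

open MvPolynomial

universe u

namespace Sys

section

variable (K : Type u) [Field K] (m : ℕ) [NeZero m]

/-- the coordinate ring of walks -/
abbrev BB := MvPolynomial (Fin m ⊕ Fin m) K

/-- the universal starting vertex -/
def vB : Fin m → BB K m := fun i => X (Sum.inl i)

/-- the universal first coordinates -/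
def ωB (k : ℕ) : BB K m :=
  if h : 0 < k ∧ k ≤ m then X (Sum.inr ⟨k - 1, by omega⟩) else X (Sum.inl 0)

variable {K m}

theorem ωB_zero : ωB K m 0 = vB K m 0 := by
  simp [ωB, vB]

theorem ωB_pos (k : ℕ) (h1 : 0 < k) (h2 : k ≤ m) :
    ωB K m k = X (Sum.inr ⟨k - 1, by omega⟩) := by
  rw [ωB, dif_pos ⟨h1, h2⟩]

theorem ωB_inj {k l : ℕ} (hk : k ≤ m) (hl : l ≤ m) (h : ωB K m k = ωB K m l) : k = l := by
  rcases Nat.eq_zero_or_pos k with hk0 | hk0 <;> rcases Nat.eq_zero_or_pos l with hl0 | hl0
  · omega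
  · rw [hk0, ωB_zero, ωB_pos l hl0 hl, vB] at h
    have := MvPolynomial.X_injective h
    cases this
  · rw [hl0, ωB_zero, ωB_pos k hk0 hk, vB] at h
    have := MvPolynomial.X_injective h
    cases this
  · rw [ωB_pos l hl0 hl, ωB_pos k hk0 hk] at h
    have := MvPolynomial.X_injective h
    simp only [Sum.inr.injEq, Fin.mk.injEq] at this
    omega

omit [NeZero m] in
theorem X_inl (i : Fin m) : (X (Sum.inl i) : BB K m) = vB K m i := rfl

theorem X_inr (i : Fin m) : (X (Sum.inr i) : BB K m) = ωB K m (i + 1) := by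
  rw [ωB_pos _ (by omega) (by omega)]
  simp

/-- membership of all variables in a subfield -/
theorem all_X_mem {Ω : Type*} [Field Ω] [Algebra K Ω] (r : BB K m →ₐ[K] Ω)
    (F : IntermediateField K Ω) (hv : ∀ i, r (vB K m i) ∈ F)
    (hω : ∀ k, 1 ≤ k → k ≤ m → r (ωB K m k) ∈ F) (i : Fin m ⊕ Fin m) : r (X i) ∈ F := by
  rcases i with i | i
  · exact hv i
  · rw [X_inr]
    exact hω _ (by omega) (by omega)

theorem cl_eq_top_of_all {Ω : Type*} [Field Ω] [Algebra K Ω] (r : BB K m →ₐ[K] Ω)
    (hspan : cl K (Set.range fun i => r (X i)) = ⊤) (s : Set Ω)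
    (hv : ∀ i, r (vB K m i) ∈ cl K s)
    (hω : ∀ k, 1 ≤ k → k ≤ m → r (ωB K m k) ∈ cl K s) : cl K s = ⊤ := by
  rw [eq_top_iff, ← hspan]
  apply cl_le_cl
  rintro _ ⟨i, rfl⟩
  exact all_X_mem r _ hv hω i

end

variable {K : Type u} [Field K] {m : ℕ} [NeZero m] (S : Sys K m)

/-- the ends of the universal walk -/
def α (σ : Bool) : BB K m →ₐ[K] BB K m :=
  aeval (Sum.elim (vB K m) (S.walk σ (vB K m) (ωB K m) m))

theorem α_inl (σ : Bool) (i : Fin m) : S.α σ (X (Sum.inl i)) = vB K m i := by
  simp [α]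

theorem α_inr (σ : Bool) (i : Fin m) :
    S.α σ (X (Sum.inr i)) = S.walk σ (vB K m) (ωB K m) m i := by
  simp [α]

/-- Values of all polynomials in the ends. -/
theorem hom_α {Ω : Type*} [CommRing Ω] [Algebra K Ω] (r : BB K m →ₐ[K] Ω) (σ : Bool)
    (P : BB K m) : r (S.α σ P) = aeval (Sum.elim (fun i => r (vB K m i))
      (S.walk σ (fun i => r (vB K m i)) (fun k => r (ωB K m k)) m)) P := by
  rw [α, MvPolynomial.comp_aeval_apply]
  congr 2
  funext i
  rcases i with i | i
  · rfl
  · simp only [Sum.elim_inr]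
    exact S.map_walk_apply r σ _ _ _ _

/-- all first coordinates are rational functions of the ends, over any residue field -/
theorem α_span [IsAlgClosed K] [CharZero K] (hinj : S.Inj K m) {Ω : Type*} [Field Ω]
    [Algebra K Ω] (r : BB K m →ₐ[K] Ω) (σ : Bool)
    (hne : ∀ k, 1 ≤ k → k < m → r (ωB K m (k + 1)) ≠ r (ωB K m (k - 1))) (k : ℕ) (hk : k ≤ m) :
    r (ωB K m k) ∈ IntermediateField.adjoin K (Set.range fun i => r (S.α σ (X i))) := by
  have h1 := S.gen_mem hinj σ (fun i => r (vB K m i)) (fun k => r (ωB K m k))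
    (by simp only [ωB_zero]) hne k hk
  refine IntermediateField.adjoin.mono K _ _ ?_ h1
  rintro _ (⟨i, rfl⟩ | ⟨i, rfl⟩)
  · exact ⟨Sum.inl i, by simp only [α_inl]⟩
  · refine ⟨Sum.inr i, ?_⟩
    simp only [α_inr]
    exact S.map_walk_apply r σ _ _ _ _

/-- Contraction of primes which do not divide the `t_k`. -/
theorem α_contraction [IsAlgClosed K] [CharZero K] (hinj : S.Inj K m) (σ : Bool)
    (h : BB K m) (hh : Prime h)
    (hne : ∀ k, 1 ≤ k → k < m → ¬ h ∣ ωB K m (k + 1) - ωB K m (k - 1)) :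
    ∃ F : BB K m, Prime F ∧ ∀ P, h ∣ S.α σ P ↔ F ∣ P := by
  obtain ⟨Ω, _, _, r, hr, hspan, htr1, htr2⟩ := exists_residue h hh
  apply exists_contraction rfl h r hr htr1 htr2
  have hne' : ∀ k, 1 ≤ k → k < m → r (ωB K m (k + 1)) ≠ r (ωB K m (k - 1)) := by
    intro k h1 h2 h3
    apply hne k h1 h2
    rw [← hr, map_sub, h3, sub_self]
  apply cl_eq_top_of_all r hspan
  · intro i
    exact mem_cl_of_mem ⟨Sum.inl i, by simp only [α_inl]⟩
  · intro k h1 h2
    exact adjoin_le_cl _ (S.α_span hinj r σ hne' k h2)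

/-- Fractions with numerators and denominators in the ring of the ends. -/
theorem α_frac [IsAlgClosed K] [CharZero K] (hinj : S.Inj K m) (σ : Bool) :
    Function.Injective (S.α σ) ∧
    ∀ b : BB K m, ∃ P Q : BB K m, Q ≠ 0 ∧ b * S.α σ Q = S.α σ P ∧ IsRelPrime P Q := by
  classical
  let R := FractionRing (BB K m)
  let r : BB K m →ₐ[K] R := IsScalarTower.toAlgHom K (BB K m) R
  have hrinj : Function.Injective r := IsFractionRing.injective (BB K m) R
  have hne : ∀ k, 1 ≤ k → k < m → r (ωB K m (k + 1)) ≠ r (ωB K m (k - 1)) := by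
    intro k h1 h2 h3
    have := ωB_inj (by omega) (by omega) (hrinj h3)
    omega
  have hind0 : AlgebraicIndependent K (fun i => r (X i)) := indep_fractionRing K (Fin m ⊕ Fin m)
  have hspan0 : cl K (Set.range fun i => r (X i)) = ⊤ := cl_fractionRing_eq_top K (Fin m ⊕ Fin m)
  have hspan : cl K (Set.range fun i => r (S.α σ (X i))) = ⊤ := by
    apply cl_eq_top_of_all r hspan0
    · intro i
      exact mem_cl_of_mem ⟨Sum.inl i, by simp only [α_inl]⟩
    · intro k h1 h2
      exact adjoin_le_cl _ (S.α_span hinj r σ hne k h2)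
  have hind : AlgebraicIndependent K (fun i => r (S.α σ (X i))) :=
    algebraicIndependent_of_cl_eq_top _ hspan (trdeg_lt_of_dep hind0)
  have hra : ∀ P, r (S.α σ P) = aeval (fun i => r (S.α σ (X i))) P := by
    intro P
    have h2 := MvPolynomial.comp_aeval_apply (R := K) X (r.comp (S.α σ)) P
    rw [MvPolynomial.aeval_X_left] at h2
    exact h2
  have hαinj : Function.Injective (S.α σ) := by
    rw [injective_iff_map_eq_zero]
    intro P hP
    apply hind.eq_zero_of_aeval_eq_zero
    rw [← hra, hP, map_zero]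
  refine ⟨hαinj, fun b => ?_⟩
  have hb : r b ∈ IntermediateField.adjoin K (Set.range fun i => r (S.α σ (X i))) := by
    have h1 : r b = aeval (fun i => r (X i)) b := by
      have h2 := MvPolynomial.comp_aeval_apply (R := K) X r b
      rw [MvPolynomial.aeval_X_left] at h2
      exact h2
    rw [h1]
    apply aeval_mem
    intro i
    apply all_X_mem r
    · intro i
      exact IntermediateField.subset_adjoin _ _ ⟨Sum.inl i, by simp only [α_inl]⟩
    · intro k h1 h2
      exact S.α_span hinj r σ hne k h2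
  rw [IntermediateField.mem_adjoin_range_iff] at hb
  obtain ⟨p, q, hpq⟩ := hb
  rw [← hra, ← hra] at hpq
  by_cases hq : q = 0
  · rw [hq, map_zero, map_zero, div_zero] at hpq
    have hb0 : b = 0 := hrinj (by rw [hpq, map_zero])
    refine ⟨0, 1, one_ne_zero, by rw [hb0]; simp, isRelPrime_one_right⟩
  · obtain ⟨p', q', c, hrel, hp', hq'⟩ :=
      UniqueFactorizationMonoid.exists_reduced_factors' p q hq
    have hc : c ≠ 0 := by
      rintro rfl
      rw [zero_mul] at hq'
      exact hq hq'.symm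
    have hq'0 : q' ≠ 0 := by
      rintro rfl
      rw [mul_zero] at hq'
      exact hq hq'.symm
    refine ⟨p', q', hq'0, ?_, hrel⟩
    have hαq : r (S.α σ q) ≠ 0 := by
      intro h
      exact hq (hαinj (hrinj (by rw [h, map_zero, map_zero])))
    rw [eq_div_iff hαq] at hpq
    have h1 : b * S.α σ q = S.α σ p := hrinj (by rw [map_mul, hpq])
    rw [← hp', ← hq', map_mul, map_mul] at h1
    have hαc : S.α σ c ≠ 0 := by
      intro h
      exact hc (hαinj (by rw [h, map_zero]))
    apply mul_left_cancel₀ hαc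
    rw [← h1]
    ring

end Sys

end Pool.Agent.Helper49.Girth
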