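import Mathlib
import Pool.Agent.Helper49.Girth.Rings
import Pool.Agent.Helper49.Girth.Linear

set_option autoImplicit false
set_option maxHeartbeats 400000

noncomputable section

namespace Pool.Agent.Helper49.Girth

open MvPolynomial

universe u

namespace Sys

variable {K : Type u} [Field K] {m : ℕ} [NeZero m] (S : Sys K m)

/-- the last vertex of the universal walk with a jump at `j` (the variables `ω_j` and
`ω_{j+1}` play the roles of `π` and `τ`) -/
def endJ (σ : Bool) (j : ℕ) : Fin m → BB K m :=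
  S.walk (ty σ (j + 1)) (S.jump (ty σ (j - 1)) (S.walk σ (vB K m) (ωB K m) (j - 1))
    (ωB K m j) (ωB K m (j + 1))) (fun k => ωB K m (j + 1 + k)) (m - j - 1)

/-- the ends of the universal walk with a jump -/
def αJ (σ : Bool) (j : ℕ) : BB K m →ₐ[K] BB K m :=
  aeval (Sum.elim (vB K m) (S.endJ σ j))

theorem αJ_inl (σ : Bool) (j : ℕ) (i : Fin m) : S.αJ σ j (X (Sum.inl i)) = vB K m i := by
  simp [αJ]

theorem αJ_inr (σ : Bool) (j : ℕ) (i : Fin m) :
    S.αJ σ j (X (Sum.inr i)) = S.endJ σ j i := by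
  simp [αJ]

theorem hom_endJ {Ω : Type*} [CommRing Ω] [Algebra K Ω] (r : BB K m →ₐ[K] Ω) (σ : Bool) (j : ℕ)
    (i : Fin m) : r (S.endJ σ j i) =
      S.walk (ty σ (j + 1)) (S.jump (ty σ (j - 1))
        (S.walk σ (fun i => r (vB K m i)) (fun k => r (ωB K m k)) (j - 1))
        (r (ωB K m j)) (r (ωB K m (j + 1)))) (fun k => r (ωB K m (j + 1 + k))) (m - j - 1) i := by
  rw [endJ, S.map_walk_apply r, S.map_jump r, S.map_walk r]

omit [NeZero m] in
/-- The number of parameters. -/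
theorem card_params (j : ℕ) (hj1 : 1 ≤ j) (hj : j < m) :
    Nat.card (Fin m ⊕ {k : ℕ // k ≤ m ∧ k ≠ j - 1 ∧ k ≠ j}) + 1 = Nat.card (Fin m ⊕ Fin m) := by
  classical
  have hfin : {k : ℕ | k ≤ m ∧ k ≠ j - 1 ∧ k ≠ j} =
      (((Finset.range (m + 1)).erase (j - 1)).erase j : Finset ℕ) := by
    ext k
    simp only [Set.mem_ofPred_eq, Finset.coe_erase, Finset.coe_range, Set.mem_sdiff, Set.mem_Iio,
      Set.mem_singleton_iff]
    omega
  have h1 : Nat.card {k : ℕ // k ≤ m ∧ k ≠ j - 1 ∧ k ≠ j} = m - 1 := by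
    have h2 : Nat.card {k : ℕ // k ≤ m ∧ k ≠ j - 1 ∧ k ≠ j} =
        Set.ncard {k : ℕ | k ≤ m ∧ k ≠ j - 1 ∧ k ≠ j} := rfl
    rw [h2, hfin, Set.ncard_coe_finset, Finset.card_erase_of_mem, Finset.card_erase_of_mem,
      Finset.card_range]
    · omega
    · simp; omega
    · simp; omega
  have hfin' : Finite {k : ℕ // k ≤ m ∧ k ≠ j - 1 ∧ k ≠ j} := by
    apply Set.Finite.to_subtype
    change Set.Finite {k : ℕ | k ≤ m ∧ k ≠ j - 1 ∧ k ≠ j}
    rw [hfin]
    exact Finset.finite_toSet _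
  rw [Nat.card_sum, h1, Nat.card_sum, Nat.card_eq_fintype_card, Fintype.card_fin]
  omega

/-- Contraction of the prime `π = ω_j`. -/
theorem αJ_contraction [IsAlgClosed K] [CharZero K] (hinj : S.Inj K m) (hinj2 : S.Inj K 2)
    (σ : Bool) (j : ℕ) (hj1 : 1 ≤ j) (hj : j < m) :
    ∃ F : BB K m, Prime F ∧ ∀ P, ωB K m j ∣ S.αJ σ j P ↔ F ∣ P := by
  have hπ : Prime (ωB K m j) := by
    rw [ωB_pos j (by omega) (by omega)]
    exact prime_X' _
  obtain ⟨Ω, _, _, r, hr, hspan, htr1, htr2⟩ := exists_residue (ωB K m j) hπ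
  apply exists_contraction rfl _ r hr htr1 htr2
  have hπ0 : r (ωB K m j) = 0 := (hr _).mpr dvd_rfl
  set v0 : Fin m → Ω := fun i => r (vB K m i) with hv0
  set ω : ℕ → Ω := fun k => r (ωB K m k) with hω
  have h0 : ω 0 = v0 0 := by simp only [hω, hv0, ωB_zero]
  have hcard2 : (Nat.card (Fin m ⊕ Fin m)) = 2 * m := by
    rw [Nat.card_eq_fintype_card, Fintype.card_sum, Fintype.card_fin]; ring
  have htrdeg : Algebra.trdeg K Ω < (2 * m : ℕ) := by
    rw [← hcard2]; exact htr1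
  -- independence of the parameters
  have hfin' : Finite {k : ℕ // k ≤ m ∧ k ≠ j - 1 ∧ k ≠ j} := by
    apply Set.Finite.to_subtype
    exact (Set.finite_Iic m).subset (fun k hk => hk.1)
  have hind : AlgebraicIndependent K (Sum.elim (S.walk σ v0 ω (j - 1))
      (fun k : {k : ℕ // k ≤ m ∧ k ≠ j - 1 ∧ k ≠ j} => ω k)) := by
    have key : AlgebraicIndependent K (Sum.elim (S.walk σ v0 ω (j - 1))
        (fun k : {k : ℕ // k ≤ m ∧ k ≠ j - 1 ∧ k ≠ j} => ω k)) := by
      -- spanning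
      set s : Set Ω := Set.range (Sum.elim (S.walk σ v0 ω (j - 1))
        (fun k : {k : ℕ // k ≤ m ∧ k ≠ j - 1 ∧ k ≠ j} => ω k)) with hs
      have h1 : ∀ i, S.walk σ v0 ω (j - 1) i ∈ cl K s := fun i =>
        mem_cl_of_mem ⟨Sum.inl i, rfl⟩
      have h2 : ∀ k, k ≤ m → ω k ∈ cl K s := by
        intro k hk
        by_cases hk1 : k = j - 1
        · rw [hk1, ← S.walk_fst σ v0 ω h0]
          exact h1 0
        · by_cases hk2 : k = j
          · rw [hk2, hω]
            simp only [hπ0]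
            exact zero_mem _
          · exact mem_cl_of_mem ⟨Sum.inr ⟨k, hk, hk1, hk2⟩, rfl⟩
      have h3 : ∀ i, v0 i ∈ cl K s := by
        intro i
        have := S.walk_mem_rev (cl K s) σ v0 ω h0 (j - 1) 0 (by
          intro i; rw [Nat.zero_add]; exact h1 i) (fun k _ hk => h2 k (by omega)) i
        exact this
      have htop : cl K s = ⊤ := cl_eq_top_of_all r hspan s h3 (fun k _ hk => h2 k hk)
      have : Finite (Fin m ⊕ {k : ℕ // k ≤ m ∧ k ≠ j - 1 ∧ k ≠ j}) := inferInstance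
      -- counting
      have hc := card_params (m := m) j hj1 hj
      obtain ⟨d, hd⟩ := Cardinal.lt_aleph0.mp (htr1.trans Cardinal.natCast_lt_aleph0)
      have hle : (Nat.card (Fin m ⊕ {k : ℕ // k ≤ m ∧ k ≠ j - 1 ∧ k ≠ j}) : Cardinal) ≤
          Algebra.trdeg K Ω := by
        rw [hd] at htr2 ⊢
        rw [← hc] at htr2
        have h5 : Nat.card (Fin m ⊕ {k : ℕ // k ≤ m ∧ k ≠ j - 1 ∧ k ≠ j}) + 1 ≤ d + 1 := by
          exact_mod_cast htr2
        exact_mod_cast (by omega : Nat.card (Fin m ⊕ {k : ℕ // k ≤ m ∧ k ≠ j - 1 ∧ k ≠ j}) ≤ d)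
      -- the counting lemma needs a type in `Type`
      exact algebraicIndependent_of_cl_eq_top _ htop hle
    exact key
  have hgood := S.chain hinj hinj2 htrdeg σ j hj1 hj v0 ω h0 (ω (j + 1)) ω (fun _ _ => rfl) rfl hind
  -- all variables are algebraic over the ends
  set u := S.walk (ty σ (j + 1)) (S.jump (ty σ (j - 1)) (S.walk σ v0 ω (j - 1)) 0 (ω (j + 1)))
    (fun k => ω (j + 1 + k)) (m - j - 1) with hu
  have hsub : ∀ a ∈ Set.range v0 ∪ Set.range u,
      a ∈ cl K (Set.range fun i => r (S.αJ σ j (X i))) := by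
    rintro a (⟨i, rfl⟩ | ⟨i, rfl⟩)
    · exact mem_cl_of_mem ⟨Sum.inl i, by simp only [αJ_inl, hv0]⟩
    · refine mem_cl_of_mem ⟨Sum.inr i, ?_⟩
      simp only [αJ_inr]
      rw [S.hom_endJ r, hπ0]
  have hle := cl_le_cl hsub
  apply cl_eq_top_of_all r hspan
  · intro i
    exact hle (mem_cl_of_mem (Or.inl ⟨i, rfl⟩))
  · intro k hk1 hk
    by_cases hk1 : k = j - 1
    · have : r (ωB K m k) = S.walk σ v0 ω (j - 1) 0 := by
        rw [S.walk_fst σ v0 ω h0, hk1]
      rw [this]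
      exact hle (hgood.hS _ (Or.inl ⟨0, rfl⟩))
    · by_cases hk2 : k = j
      · rw [hk2, hπ0]
        exact zero_mem _
      · exact hle (hgood.hS _ (Or.inr ⟨k, ⟨hk, hk1, hk2⟩, rfl⟩))

end Sys

end Pool.Agent.Helper49.Girth
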