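import Mathlib
import Pool.Agent.Helper49.Girth.JRing

set_option autoImplicit false
set_option maxHeartbeats 400000

noncomputable section

namespace Pool.Agent.Helper49.Girth

open MvPolynomial

universe u

namespace Sys

variable {K : Type u} [Field K] {m : ℕ} [NeZero m] (S : Sys K m)

variable (K m) in
/-- the field of rational functions -/
abbrev RR := FractionRing (BB K m)

variable (K m) in
/-- the inclusion of polynomials into rational functions -/
def cR : BB K m →ₐ[K] RR K m := IsScalarTower.toAlgHom K (BB K m) (RR K m)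

omit [NeZero m] in
theorem cR_injective : Function.Injective (cR K m) :=
  IsFractionRing.injective (BB K m) (RR K m)

theorem cR_ωB_ne_zero (k : ℕ) : cR K m (ωB K m k) ≠ 0 := by
  intro h
  have h1 : ωB K m k = 0 := cR_injective (by rw [h, map_zero])
  rw [ωB] at h1
  split_ifs at h1
  · exact (prime_X' _).ne_zero h1
  · exact (prime_X' _).ne_zero h1

/-- the first coordinates of the walk with a jump at `j` -/
def ωF (σ : Bool) (j : ℕ) (k : ℕ) : RR K m :=
  if k = j then (cR K m (ωB K m j))⁻¹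
  else if k = j + 1 then cR K m (ωB K m (j - 1)) +
    cR K m (ωB K m (j + 1)) * cR K m (ωB K m j) ^ S.bdeg (ty σ (j - 1))
  else cR K m (ωB K m k)

/-- the change of coordinates -/
def θ (σ : Bool) (j : ℕ) : BB K m →ₐ[K] RR K m :=
  aeval (Sum.elim (fun i => cR K m (vB K m i)) (fun k : Fin m => S.ωF σ j (k + 1)))

theorem θ_vB (σ : Bool) (j : ℕ) (i : Fin m) : S.θ σ j (vB K m i) = cR K m (vB K m i) := by
  simp [θ, vB]

theorem θ_ωB (σ : Bool) (j : ℕ) (hj1 : 1 ≤ j) (k : ℕ) (hk : k ≤ m) :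
    S.θ σ j (ωB K m k) = S.ωF σ j k := by
  rcases Nat.eq_zero_or_pos k with h | h
  · subst h
    rw [ωB_zero, θ_vB, ωF, if_neg (by omega), if_neg (by omega), ωB_zero]
  · rw [ωB_pos k h hk, θ, aeval_X]
    simp only [Sum.elim_inr]
    congr 1
    omega

/-- The walk with a jump passes through `endJ`. -/
theorem walk_θ [CharZero K] (σ : Bool) (j : ℕ) (hj1 : 1 ≤ j) (hj : j < m) (i : Fin m) :
    S.walk σ (fun i => cR K m (vB K m i)) (fun k => S.θ σ j (ωB K m k)) m i =
      cR K m (S.endJ σ j i) := by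
  set v : Fin m → RR K m := fun i => cR K m (vB K m i) with hv
  set ω : ℕ → RR K m := fun k => S.θ σ j (ωB K m k) with hω
  have h0 : ω 0 = v 0 := by
    simp only [hω, hv, ωB_zero, θ_vB]
  have hm : m = (j + 1) + (m - j - 1) := by omega
  have e1 : S.walk σ v ω m = S.walk (ty σ (j + 1)) (S.walk σ v ω (j + 1))
      (fun k => ω (j + 1 + k)) (m - j - 1) := by
    rw [← S.walk_add σ v ω (j + 1) (m - j - 1), ← hm]
  rw [e1, S.hom_endJ (cR K m)]
  -- before the jump
  have e2 : S.walk σ v ω (j - 1) = S.walk σ v (fun k => cR K m (ωB K m k)) (j - 1) := by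
    apply S.walk_congr
    intro k h1 h2
    simp only [hω]
    rw [S.θ_ωB σ j hj1 k (by omega), ωF, if_neg (by omega), if_neg (by omega)]
  set V := S.walk σ v (fun k => cR K m (ωB K m k)) (j - 1) with hV
  have hV0 : V 0 = cR K m (ωB K m (j - 1)) := by
    rw [hV, S.walk_fst σ v (fun k => cR K m (ωB K m k)) (by simp only [hv, ωB_zero])]
  -- the jump
  have e3 : S.walk σ v ω (j + 1) = S.jump (ty σ (j - 1)) V (cR K m (ωB K m j))
      (cR K m (ωB K m (j + 1))) := by
    rw [S.jump_eq _ _ _ _ (cR_ωB_ne_zero j)]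
    have hj' : j = (j - 1) + 1 := by omega
    have e4 : S.walk σ v ω j = S.nb (ty σ (j - 1)) (S.walk σ v ω (j - 1)) (ω j) := by
      conv_lhs => rw [hj']
      rw [walk_succ, ← hj']
    have e5 : ty σ j = !(ty σ (j - 1)) := by
      conv_lhs => rw [hj']
      rw [ty_succ]
    rw [walk_succ, e4, e5, e2, hV0]
    have e6 : ω j = (cR K m (ωB K m j))⁻¹ := by
      simp only [hω]
      rw [S.θ_ωB σ j hj1 j (by omega), ωF, if_pos rfl]
    have e7 : ω (j + 1) = cR K m (ωB K m (j - 1)) +
        cR K m (ωB K m (j + 1)) * cR K m (ωB K m j) ^ S.bdeg (ty σ (j - 1)) := by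
      simp only [hω]
      rw [S.θ_ωB σ j hj1 (j + 1) (by omega), ωF, if_neg (by omega), if_pos rfl]
    rw [e6, e7]
  rw [e3]
  -- after the jump
  apply congrFun
  apply S.walk_congr
  intro k h1 h2
  simp only [hω]
  rw [S.θ_ωB σ j hj1 _ (by omega), ωF, if_neg (by omega), if_neg (by omega)]

/-- `θ ∘ α = αJ`. -/
theorem θ_α [CharZero K] (σ : Bool) (j : ℕ) (hj1 : 1 ≤ j) (hj : j < m) (P : BB K m) :
    S.θ σ j (S.α σ P) = cR K m (S.αJ σ j P) := by
  rw [S.hom_α (S.θ σ j), αJ, MvPolynomial.comp_aeval_apply]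
  congr 2
  funext i
  rcases i with i | i
  · simp only [Sum.elim_inl, θ_vB]
  · simp only [Sum.elim_inr, θ_vB]
    exact S.walk_θ σ j hj1 hj i

/-- `θ` is injective. -/
theorem θ_injective (σ : Bool) (j : ℕ) (hj1 : 1 ≤ j) (hj : j < m) :
    Function.Injective (S.θ σ j) := by
  have hind0 : AlgebraicIndependent K (fun i => cR K m (X i)) :=
    indep_fractionRing K (Fin m ⊕ Fin m)
  have hspan0 : cl K (Set.range fun i => cR K m (X i)) = ⊤ :=
    cl_fractionRing_eq_top K (Fin m ⊕ Fin m)
  set F := cl K (Set.range fun i => S.θ σ j (X i)) with hF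
  have hv : ∀ i, cR K m (vB K m i) ∈ F := by
    intro i
    exact mem_cl_of_mem ⟨Sum.inl i, by simp only [X_inl, θ_vB]⟩
  have hω : ∀ k, k ≤ m → S.ωF σ j k ∈ F := by
    intro k hk
    rcases Nat.eq_zero_or_pos k with h | h
    · rw [← S.θ_ωB σ j hj1 k hk, h, ωB_zero, θ_vB]
      exact hv 0
    · refine mem_cl_of_mem ⟨Sum.inr ⟨k - 1, by omega⟩, ?_⟩
      simp only
      rw [← S.θ_ωB σ j hj1 k hk, ωB_pos k h hk]
  have hother : ∀ k, k ≤ m → k ≠ j → k ≠ j + 1 → cR K m (ωB K m k) ∈ F := by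
    intro k hk h1 h2
    have := hω k hk
    rwa [ωF, if_neg h1, if_neg h2] at this
  have hπ : cR K m (ωB K m j) ∈ F := by
    have := hω j (by omega)
    rw [ωF, if_pos rfl] at this
    have h2 := F.inv_mem this
    rwa [inv_inv] at h2
  have hτ : cR K m (ωB K m (j + 1)) ∈ F := by
    have h1 := hω (j + 1) (by omega)
    rw [ωF, if_neg (by omega), if_pos rfl] at h1
    have h2 := hother (j - 1) (by omega) (by omega) (by omega)
    have h3 := div_mem (sub_mem h1 h2) (pow_mem hπ (S.bdeg (ty σ (j - 1))))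
    rw [add_sub_cancel_left, mul_div_assoc, div_self (pow_ne_zero _ (cR_ωB_ne_zero j)),
      mul_one] at h3
    exact h3
  have hspan : F = ⊤ := by
    apply cl_eq_top_of_all (cR K m) hspan0
    · exact hv
    · intro k h1 h2
      by_cases hk1 : k = j
      · rw [hk1]; exact hπ
      · by_cases hk2 : k = j + 1
        · rw [hk2]; exact hτ
        · exact hother k h2 hk1 hk2
  have hind : AlgebraicIndependent K (fun i => S.θ σ j (X i)) :=
    algebraicIndependent_of_cl_eq_top _ hspan (trdeg_lt_of_dep hind0)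
  rw [injective_iff_map_eq_zero]
  intro P hP
  apply hind.eq_zero_of_aeval_eq_zero
  have h2 := MvPolynomial.comp_aeval_apply (R := K) X (S.θ σ j) P
  rw [MvPolynomial.aeval_X_left] at h2
  exact h2.symm.trans hP

end Sys

end Pool.Agent.Helper49.Girth
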