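import Mathlib
import Pool.Agent.Helper49.Girth.Theta

set_option autoImplicit false
set_option maxHeartbeats 400000

noncomputable section

namespace Pool.Agent.Helper49.Girth

open MvPolynomial

universe u

/-- An element of a factorial ring all of whose prime factors divide one of finitely many primes
`t k` is a unit times a monomial in the `t k`. -/
theorem factor_lemma {R : Type*} [CommRing R] [IsDomain R] [UniqueFactorizationMonoid R]
    (s : Finset ℕ) (t : ℕ → R) (ht : ∀ k ∈ s, Prime (t k)) (f : R) (hf : f ≠ 0)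
    (h : ∀ p, Prime p → p ∣ f → ∃ k ∈ s, p ∣ t k) :
    ∃ (x : ℕ → ℕ) (u : R), IsUnit u ∧ (∀ k, k ∉ s → x k = 0) ∧
      f = u * ∏ k ∈ s, t k ^ x k := by
  classical
  induction f using UniqueFactorizationMonoid.induction_on_prime with
  | h₁ => exact absurd rfl hf
  | h₂ f hu => exact ⟨fun _ => 0, f, hu, fun _ _ => rfl, by simp⟩
  | h₃ a p ha hp ih =>
    obtain ⟨x, u, hu, hx, hfx⟩ := ih ha (fun q hq hqa => h q hq (hqa.mul_left p))
    obtain ⟨k, hk, hpk⟩ := h p hp (dvd_mul_right p a)
    have hassoc : Associated p (t k) := hp.associated_of_dvd (ht k hk) hpk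
    obtain ⟨v, hv⟩ := hassoc.symm
    refine ⟨fun l => if l = k then x l + 1 else x l, v * u, v.isUnit.mul hu, ?_, ?_⟩
    · intro l hl
      have : l ≠ k := by rintro rfl; exact hl hk
      simp only [if_neg this]
      exact hx l hl
    · have e : ∏ l ∈ s, t l ^ (if l = k then x l + 1 else x l) =
          t k * ∏ l ∈ s, t l ^ x l := by
        have : ∀ l ∈ s, t l ^ (if l = k then x l + 1 else x l) =
            (if l = k then t k else 1) * t l ^ x l := by
          intro l _
          split_ifs with h1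
          · rw [h1, pow_succ, mul_comm]
          · rw [one_mul]
        rw [Finset.prod_congr rfl this, Finset.prod_mul_distrib, Finset.prod_ite_eq' s k,
          if_pos hk]
      rw [e, hfx, ← hv]
      ring

/-- Comparing orders at a prime. -/
theorem order_eq {R : Type*} [CommRing R] [IsDomain R] {π U W : R} (hπ : Prime π)
    (hU : ¬ π ∣ U) (hW : ¬ π ∣ W) {p q : ℕ} (h : π ^ p * U = π ^ q * W) : p = q := by
  rcases lt_trichotomy p q with h1 | h1 | h1
  · exfalso
    obtain ⟨d, rfl⟩ : ∃ d, q = p + 1 + d := ⟨q - p - 1, by omega⟩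
    have h2 : U = π * (π ^ d * W) := by
      apply mul_left_cancel₀ (pow_ne_zero p hπ.ne_zero)
      rw [h]; ring
    exact hU ⟨_, h2⟩
  · exact h1
  · exfalso
    obtain ⟨d, rfl⟩ : ∃ d, p = q + 1 + d := ⟨p - q - 1, by omega⟩
    have h2 : W = π * (π ^ d * U) := by
      apply mul_left_cancel₀ (pow_ne_zero q hπ.ne_zero)
      rw [← h]; ring
    exact hW ⟨_, h2⟩

namespace Sys

variable {K : Type u} [Field K] {m : ℕ} [NeZero m] (S : Sys K m)

variable (K m) in
/-- the difference whose vanishing means backtracking at the `k`-th vertex -/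
def tB (k : ℕ) : BB K m := ωB K m (k + 1) - ωB K m (k - 1)

theorem tB_prime (k : ℕ) (h1 : 1 ≤ k) (h2 : k < m) : Prime (tB K m k) := by
  rw [tB, ωB_pos (k + 1) (by omega) (by omega)]
  rcases Nat.eq_zero_or_pos (k - 1) with h | h
  · rw [h, ωB_zero, vB]
    exact prime_X_sub_X (by simp)
  · rw [ωB_pos (k - 1) h (by omega)]
    apply prime_X_sub_X
    intro hh
    simp only [Sum.inr.injEq, Fin.mk.injEq] at hh
    omega

open Classical in
/-- setting `ω_j = 0` -/
def z0 (j : ℕ) : BB K m →ₐ[K] BB K m :=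
  aeval (fun i => if (X i : BB K m) = ωB K m j then 0 else X i)

open Classical in
theorem z0_ωB (j : ℕ) (hj : j ≤ m) (k : ℕ) (hk : k ≤ m) :
    z0 j (ωB K m k) = if k = j then 0 else ωB K m k := by
  have key : ∀ i, (X i : BB K m) = ωB K m k → z0 j (ωB K m k) =
      if k = j then 0 else ωB K m k := by
    intro i hi
    have e : z0 j (ωB K m k) = if (X i : BB K m) = ωB K m j then 0 else X i := by
      rw [← hi, z0, aeval_X]
    rw [e]
    by_cases h : k = j
    · have h2 : (X i : BB K m) = ωB K m j := by rw [hi, h]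
      rw [if_pos h2, if_pos h]
    · have h2 : (X i : BB K m) ≠ ωB K m j := by
        intro h2
        exact h (ωB_inj hk hj (by rw [← hi, h2]))
      rw [if_neg h, if_neg h2, hi]
  rw [ωB]
  rcases Nat.eq_zero_or_pos k with h | h
  · have := key (Sum.inl 0) (by rw [h, ωB_zero]; rfl)
    rw [ωB] at this
    exact this
  · have := key (Sum.inr ⟨k - 1, by omega⟩) (by rw [ωB_pos k h hk])
    rw [ωB] at this
    exact this

theorem not_dvd_of_z0 (j : ℕ) (hj : j ≤ m) (T : BB K m) (h : z0 j T ≠ 0) :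
    ¬ ωB K m j ∣ T := by
  rintro ⟨c, rfl⟩
  apply h
  rw [map_mul, z0_ωB j hj j hj, if_pos rfl, zero_mul]

/-- The order of `t_k` along `π = ω_j`. -/
theorem t_order (σ : Bool) (j : ℕ) (hj1 : 1 ≤ j) (hj : j < m)
    (hb : 1 ≤ S.bdeg (ty σ (j - 1))) (k : ℕ) (hk1 : 1 ≤ k) (hk : k < m) :
    ∃ T : BB K m, ¬ ωB K m j ∣ T ∧
      S.θ σ j (tB K m k) * cR K m (ωB K m j) ^ (if k + 1 = j ∨ k = j + 1 then 1 else 0) =
      cR K m T * cR K m (ωB K m j) ^ (if k = j then S.bdeg (ty σ (j - 1)) else 0) := by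
  have hπ0 := cR_ωB_ne_zero (K := K) (m := m) j
  have hθ : S.θ σ j (tB K m k) = S.ωF σ j (k + 1) - S.ωF σ j (k - 1) := by
    rw [tB, map_sub, S.θ_ωB σ j hj1 _ (by omega), S.θ_ωB σ j hj1 _ (by omega)]
  by_cases c1 : k = j
  · refine ⟨ωB K m (j + 1), ?_, ?_⟩
    · apply not_dvd_of_z0 j (by omega)
      rw [z0_ωB j (by omega) _ (by omega), if_neg (by omega)]
      rw [ωB_pos _ (by omega) (by omega)]
      exact (prime_X' _).ne_zero
    · rw [hθ, if_neg (by omega), if_pos c1, c1]
      rw [ωF, if_neg (by omega), if_pos rfl, ωF, if_neg (by omega), if_neg (by omega)]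
      ring
  by_cases c2 : k + 1 = j
  · refine ⟨1 - ωB K m (k - 1) * ωB K m j, ?_, ?_⟩
    · apply not_dvd_of_z0 j (by omega)
      rw [map_sub, map_one, map_mul, z0_ωB j (by omega) j (by omega), if_pos rfl, mul_zero,
        sub_zero]
      exact one_ne_zero
    · rw [hθ, if_pos (Or.inl c2), if_neg c1]
      rw [ωF, if_pos c2, ωF, if_neg (by omega), if_neg (by omega), map_sub, map_one, map_mul]
      rw [pow_one, pow_zero, mul_one, sub_mul, inv_mul_cancel₀ hπ0]
  by_cases c3 : k = j + 1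
  · refine ⟨ωB K m (k + 1) * ωB K m j - 1, ?_, ?_⟩
    · apply not_dvd_of_z0 j (by omega)
      rw [map_sub, map_one, map_mul, z0_ωB j (by omega) j (by omega), if_pos rfl, mul_zero,
        zero_sub]
      exact neg_ne_zero.mpr one_ne_zero
    · rw [hθ, if_pos (Or.inr c3), if_neg c1]
      rw [ωF, if_neg (by omega), if_neg (by omega), ωF, if_pos (by omega), map_sub, map_one,
        map_mul]
      rw [pow_one, pow_zero, mul_one, sub_mul, inv_mul_cancel₀ hπ0]
  by_cases c4 : k = j + 2
  · refine ⟨ωB K m (k + 1) - (ωB K m (j - 1) +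
      ωB K m (j + 1) * ωB K m j ^ S.bdeg (ty σ (j - 1))), ?_, ?_⟩
    · apply not_dvd_of_z0 j (by omega)
      rw [map_sub, map_add, map_mul, map_pow, z0_ωB j (by omega) j (by omega), if_pos rfl,
        zero_pow (by omega), mul_zero, add_zero, z0_ωB j (by omega) _ (by omega),
        if_neg (by omega), z0_ωB j (by omega) _ (by omega), if_neg (by omega)]
      intro h
      have := ωB_inj (by omega) (by omega) (sub_eq_zero.mp h)
      omega
    · rw [hθ, if_neg (by omega), if_neg c1]
      rw [ωF, if_neg (by omega), if_neg (by omega), ωF, if_neg (by omega), if_pos (by omega)]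
      rw [map_sub, map_add, map_mul, map_pow]
  · refine ⟨ωB K m (k + 1) - ωB K m (k - 1), ?_, ?_⟩
    · apply not_dvd_of_z0 j (by omega)
      rw [map_sub, z0_ωB j (by omega) _ (by omega), if_neg (by omega),
        z0_ωB j (by omega) _ (by omega), if_neg (by omega)]
      intro h
      have := ωB_inj (by omega) (by omega) (sub_eq_zero.mp h)
      omega
    · rw [hθ, if_neg (by omega), if_neg c1]
      rw [ωF, if_neg (by omega), if_neg (by omega), ωF, if_neg (by omega), if_neg (by omega),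
        map_sub]

/-- The order equation. -/
theorem order_main [CharZero K] (σ : Bool) (j : ℕ) (hj1 : 1 ≤ j) (hj : j < m)
    (hb : 1 ≤ S.bdeg (ty σ (j - 1))) (F : BB K m) (u : BB K m) (hu : IsUnit u) (x : ℕ → ℕ)
    (hx : ∀ k, k ∉ Finset.Ico 1 m → x k = 0)
    (hF : S.α σ F = u * ∏ k ∈ Finset.Ico 1 m, tB K m k ^ x k)
    (a : ℕ) (U : BB K m) (hU : ¬ ωB K m j ∣ U) (hFU : S.αJ σ j F = ωB K m j ^ a * U) :
    S.bdeg (ty σ (j - 1)) * x j = x (j - 1) + x (j + 1) + a := by
  classical
  set b := S.bdeg (ty σ (j - 1)) with hb'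
  set π := ωB K m j with hπ
  have hπprime : Prime π := by
    rw [hπ, ωB_pos j (by omega) (by omega)]
    exact prime_X' _
  have hT : ∀ k : ℕ, ∃ T : BB K m, k ∈ Finset.Ico 1 m → ¬ π ∣ T ∧
      S.θ σ j (tB K m k) * cR K m π ^ (if k + 1 = j ∨ k = j + 1 then 1 else 0) =
      cR K m T * cR K m π ^ (if k = j then b else 0) := by
    intro k
    by_cases hk : k ∈ Finset.Ico 1 m
    · rw [Finset.mem_Ico] at hk
      obtain ⟨T, hT⟩ := S.t_order σ j hj1 hj hb k hk.1 hk.2
      exact ⟨T, fun _ => hT⟩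
    · exact ⟨0, fun h => absurd h hk⟩
  choose T hT using hT
  -- the unit is a constant
  obtain ⟨c0, hc0, rfl⟩ : ∃ c0 : K, c0 ≠ 0 ∧ u = C c0 := by
    have h1 := (MvPolynomial.isUnit_iff_totalDegree_of_isReduced.mp hu)
    refine ⟨coeff 0 u, h1.1.ne_zero, ?_⟩
    exact totalDegree_eq_zero_iff_eq_C.mp h1.2
  -- apply `θ`
  have h1 := S.θ_α σ j hj1 hj F
  rw [hF, map_mul, map_prod] at h1
  have h2 : S.θ σ j (C c0) = cR K m (C c0) := by
    have e1 : (C c0 : BB K m) = algebraMap K (BB K m) c0 := rfl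
    rw [e1, AlgHom.commutes, AlgHom.commutes]
  rw [h2] at h1
  set s1 := ∑ k ∈ Finset.Ico 1 m, (if k + 1 = j ∨ k = j + 1 then 1 else 0) * x k with hs1
  set s2 := ∑ k ∈ Finset.Ico 1 m, (if k = j then b else 0) * x k with hs2
  have h3 : (∏ k ∈ Finset.Ico 1 m, S.θ σ j (tB K m k ^ x k)) * cR K m π ^ s1 =
      cR K m (∏ k ∈ Finset.Ico 1 m, T k ^ x k) * cR K m π ^ s2 := by
    rw [hs1, hs2, ← Finset.prod_pow_eq_pow_sum, ← Finset.prod_pow_eq_pow_sum, map_prod,
      ← Finset.prod_mul_distrib, ← Finset.prod_mul_distrib]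
    apply Finset.prod_congr rfl
    intro k hk
    rw [map_pow, map_pow, pow_mul, pow_mul, ← mul_pow, (hT k hk).2, mul_pow]
  have h4 : S.αJ σ j F * π ^ s1 = C c0 * (∏ k ∈ Finset.Ico 1 m, T k ^ x k) * π ^ s2 := by
    apply cR_injective (K := K) (m := m)
    rw [map_mul, ← h1, map_pow, map_mul, map_mul, map_pow, mul_assoc, h3]
    ring
  have hW : ¬ π ∣ C c0 * ∏ k ∈ Finset.Ico 1 m, T k ^ x k := by
    intro h
    rcases hπprime.dvd_or_dvd h with h5 | h5
    · exact hπprime.not_isUnit (isUnit_of_dvd_unit h5 hu)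
    · obtain ⟨k, hk, h6⟩ := (hπprime.dvd_finsetProd_iff _).mp h5
      exact (hT k hk).1 (hπprime.dvd_of_dvd_pow h6)
  have h5 : a + s1 = s2 := by
    apply order_eq hπprime hU hW
    rw [pow_add, mul_comm (π ^ s2), ← h4, hFU]
    ring
  have h6 : s2 = b * x j := by
    rw [hs2, Finset.sum_eq_single j]
    · rw [if_pos rfl]
    · intro k _ hk
      rw [if_neg hk, zero_mul]
    · intro h
      exact absurd (Finset.mem_Ico.mpr ⟨hj1, hj⟩) h
  have h7 : s1 = x (j - 1) + x (j + 1) := by
    have e1 : ∀ k ∈ Finset.Ico 1 m, (if k + 1 = j ∨ k = j + 1 then 1 else 0) * x k =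
        (if k = j - 1 then x k else 0) + (if k = j + 1 then x k else 0) := by
      intro k hk
      rw [Finset.mem_Ico] at hk
      by_cases c1 : k + 1 = j
      · rw [if_pos (Or.inl c1), if_pos (by omega), if_neg (by omega)]; ring
      · by_cases c2 : k = j + 1
        · rw [if_pos (Or.inr c2), if_neg (by omega), if_pos c2]; ring
        · rw [if_neg (by omega), if_neg (by omega), if_neg c2]; ring
    rw [hs1, Finset.sum_congr rfl e1, Finset.sum_add_distrib, Finset.sum_ite_eq',
      Finset.sum_ite_eq']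
    congr 1
    · split_ifs with h
      · rfl
      · exact (hx _ h).symm
    · split_ifs with h
      · rfl
      · exact (hx _ h).symm
  omega

end Sys

end Pool.Agent.Helper49.Girth
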