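import Mathlib
import Pool.Agent.Helper49.Girth.Order

set_option autoImplicit false
set_option maxHeartbeats 400000

noncomputable section

namespace Pool.Agent.Helper49.Girth

open MvPolynomial

universe u

namespace Sys

variable {K : Type u} [Field K] {m : ℕ} [NeZero m] (S : Sys K m)

/-- The exponents. -/
theorem exists_exponents [IsAlgClosed K] [CharZero K] (hm : 2 ≤ m) (hinj : S.Inj K m)
    (hinj2 : S.Inj K 2) (σ : Bool) :
    ∃ x : ℕ → ℕ, x 0 = 0 ∧ x m = 0 ∧ ∀ j, 1 ≤ j → j < m →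
      S.bdeg (ty σ (j - 1)) * x j = x (j - 1) + x (j + 1) + if j = 1 then 1 else 0 := by
  classical
  have hb : ∀ σ, 1 ≤ S.bdeg σ := fun σ => S.bdeg_pos hinj2 σ
  obtain ⟨hαinj, hfrac⟩ := S.α_frac hinj σ
  have hπprime : ∀ j, 1 ≤ j → j < m → Prime (ωB K m j) := by
    intro j h1 h2
    rw [ωB_pos j (by omega) (by omega)]
    exact prime_X' _
  obtain ⟨F, hF, hFiff⟩ := S.αJ_contraction hinj hinj2 σ 1 le_rfl (by omega)
  -- the first coordinate as a fraction
  obtain ⟨P, Q, hQ0, hPQ, hrel⟩ := hfrac (ωB K m 1)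
  -- for `j = 1`
  have hPQ1 : S.αJ σ 1 Q = ωB K m 1 * S.αJ σ 1 P := by
    apply cR_injective (K := K) (m := m)
    rw [map_mul, ← S.θ_α σ 1 le_rfl (by omega), ← S.θ_α σ 1 le_rfl (by omega), ← hPQ, map_mul,
      S.θ_ωB σ 1 le_rfl 1 (by omega), ωF, if_pos rfl, ← mul_assoc,
      mul_inv_cancel₀ (cR_ωB_ne_zero 1), one_mul]
  have hFQ : F ∣ Q := (hFiff Q).mp ⟨_, hPQ1⟩
  have hFP : ¬ F ∣ P := fun h => hF.not_isUnit (hrel h hFQ)
  obtain ⟨U, hU⟩ := (hFiff F).mpr dvd_rfl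
  have hUnd : ¬ ωB K m 1 ∣ U := by
    intro h
    apply hFP
    rw [← hFiff]
    obtain ⟨Q', hQ'⟩ := hFQ
    have h1 : ωB K m 1 * S.αJ σ 1 P = ωB K m 1 * (U * S.αJ σ 1 Q') := by
      rw [← hPQ1, hQ', map_mul, hU]; ring
    have h2 := mul_left_cancel₀ (hπprime 1 le_rfl (by omega)).ne_zero h1
    rw [h2]
    exact h.mul_right _
  -- for `j ≥ 2`
  have hjge : ∀ j, 2 ≤ j → j < m → ¬ ωB K m j ∣ S.αJ σ j F := by
    intro j h1 h2 hdvd
    obtain ⟨Fj, hFj, hFjiff⟩ := S.αJ_contraction hinj hinj2 σ j (by omega) h2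
    have h3 : Fj ∣ F := (hFjiff F).mp hdvd
    have h4 : F ∣ Fj := (hFj.associated_of_dvd hF h3).symm.dvd
    have hPQj : S.αJ σ j P = ωB K m 1 * S.αJ σ j Q := by
      apply cR_injective (K := K) (m := m)
      rw [map_mul, ← S.θ_α σ j (by omega) h2, ← S.θ_α σ j (by omega) h2, ← hPQ, map_mul,
        S.θ_ωB σ j (by omega) 1 (by omega), ωF, if_neg (by omega), if_neg (by omega)]
    have h5 : ωB K m j ∣ S.αJ σ j Q := (hFjiff Q).mpr (h3.trans hFQ)
    have h6 : ωB K m j ∣ S.αJ σ j P := by rw [hPQj]; exact h5.mul_left _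
    exact hFP (h4.trans ((hFjiff P).mp h6))
  -- prime factors of `F`
  have hfac : ∀ p, Prime p → p ∣ S.α σ F → ∃ k ∈ Finset.Ico 1 m, p ∣ tB K m k := by
    intro h hh hhF
    by_contra hcon
    push Not at hcon
    obtain ⟨Fh, hFh, hFhiff⟩ := S.α_contraction hinj σ h hh (by
      intro k h1 h2
      exact hcon k (Finset.mem_Ico.mpr ⟨h1, h2⟩))
    have h3 : Fh ∣ F := (hFhiff F).mp hhF
    have h4 : F ∣ Fh := (hFh.associated_of_dvd hF h3).symm.dvd
    obtain ⟨P', Q', hQ0', hPQ', hrel'⟩ := hfrac (tB K m 1)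
    -- on the side of the jump
    have h5 : ωB K m 1 ∣ S.αJ σ 1 P' := by
      have h6 : S.αJ σ 1 P' = ωB K m 2 * ωB K m 1 ^ S.bdeg (ty σ 0) * S.αJ σ 1 Q' := by
        apply cR_injective (K := K) (m := m)
        rw [map_mul, ← S.θ_α σ 1 le_rfl (by omega), ← S.θ_α σ 1 le_rfl (by omega), ← hPQ',
          map_mul]
        congr 1
        rw [tB, map_sub, S.θ_ωB σ 1 le_rfl _ (by omega), S.θ_ωB σ 1 le_rfl _ (by omega), ωF,
          if_neg (by omega), if_pos rfl, ωF, if_neg (by omega), if_neg (by omega), map_mul,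
          map_pow]
        ring
      rw [h6]
      have h7 : S.bdeg (ty σ 0) = S.bdeg (ty σ 0) - 1 + 1 := by
        have := hb (ty σ 0)
        omega
      rw [h7, pow_succ]
      exact ⟨ωB K m 2 * ωB K m 1 ^ (S.bdeg (ty σ 0) - 1) * S.αJ σ 1 Q', by ring⟩
    have hFP' : F ∣ P' := (hFiff P').mp h5
    -- on the other side
    have h8 : h ∣ S.α σ P' := (hFhiff P').mpr (h3.trans hFP')
    rw [← hPQ'] at h8
    rcases hh.dvd_or_dvd h8 with h9 | h9
    · exact hcon 1 (Finset.mem_Ico.mpr ⟨le_rfl, by omega⟩) h9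
    · have hFQ' : F ∣ Q' := h4.trans ((hFhiff Q').mp h9)
      exact hF.not_isUnit (hrel' hFP' hFQ')
  have hαF : S.α σ F ≠ 0 := by
    intro h
    exact hF.ne_zero (hαinj (by rw [h, map_zero]))
  obtain ⟨x, u, hu, hx, hxF⟩ := factor_lemma (Finset.Ico 1 m) (tB K m)
    (fun k hk => by
      rw [Finset.mem_Ico] at hk
      exact tB_prime k hk.1 hk.2) (S.α σ F) hαF hfac
  refine ⟨x, hx 0 (by simp), hx m (by simp), ?_⟩
  intro j h1 h2
  by_cases hj : j = 1
  · subst hj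
    rw [if_pos rfl]
    exact S.order_main σ 1 h1 h2 (hb _) F u hu x hx hxF 1 U hUnd (by rw [hU, pow_one])
  · rw [if_neg hj]
    exact S.order_main σ j h1 h2 (hb _) F u hu x hx hxF 0 (S.αJ σ j F) (hjge j (by omega) h2)
      (by rw [pow_zero, one_mul])

/-- The Feit-Higman theorem for polynomial neighbourhood systems. -/
theorem main_sys [IsAlgClosed K] [CharZero K] (hm : 2 ≤ m) (hinj : S.Inj K m)
    (hinj2 : S.Inj K 2) : m = 2 ∨ m = 3 ∨ m = 5 := by
  choose x h0 hm0 hx using fun σ => S.exists_exponents hm hinj hinj2 σ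
  exact comb m hm S.bdeg x h0 hm0 hx

end Sys

end Pool.Agent.Helper49.Girth
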