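import Mathlib
import Pool.Agent.Helper49.Girth.Defs
import Pool.Agent.Helper49.Girth.MainSys
import Pool.Agent.Helper61.Sym.Basic

set_option autoImplicit false
set_option maxHeartbeats 400000

noncomputable section

namespace Pool.Agent.Helper49.Girth

open MvPolynomial

open Pool.Agent.Helper61.Sym (NB exists_cycle)

section walks

variable {V : Type*} {G : SimpleGraph V}

theorem NB_of_fun (y : ℕ → V) (n : ℕ) (hadj : ∀ i < n, G.Adj (y i) (y (i + 1)))
    (hnb : ∀ i, 1 ≤ i → i < n → y (i + 1) ≠ y (i - 1)) (a : ℕ) :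
    ∀ k, a + k + 1 ≤ n → NB G k (y a) (y (a + 1)) (y (a + k)) (y (a + k + 1)) := by
  intro k
  induction k with
  | zero =>
    intro h
    exact NB.base (hadj a (by omega))
  | succ k ih =>
    intro h
    refine NB.step (ih (by omega)) (hadj _ (by omega)) ?_
    have := hnb (a + k + 1) (by omega) (by omega)
    rwa [Nat.add_sub_cancel] at this

theorem closed_of_two {z u u' : V} (huu : u ≠ u') :
    ∀ {s : ℕ} {p p' x : V}, NB G s z u p x → NB G s z u' p' x →
      ∃ l, l ≤ 2 * s + 1 ∧ NB G l z u u' z := by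
  intro s
  induction s with
  | zero =>
    intro p p' x h h'
    cases h
    cases h'
    exact absurd rfl huu
  | succ s ih =>
    intro p p' x h h'
    cases h with
    | @step _ _ _ c d _ h hd hne =>
      cases h' with
      | @step _ _ _ c' d' _ h' hd' hne' =>
        by_cases hp : p = p'
        · subst hp
          obtain ⟨l, hl, hnb⟩ := ih h h'
          exact ⟨l, by omega, hnb⟩
        · have h1 : NB G (s + 1) z u p x := NB.step h hd hne
          have h2 : NB G (s + 1) z u' p' x := NB.step h' hd' hne'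
          have h4 := NB.trans h1 h2.symm (Ne.symm hp)
          exact ⟨_, by omega, h4⟩

/-- Two different non-backtracking walks with the same ends give a short cycle. -/
theorem cycle_of_two_walks (y y' : ℕ → V) (n : ℕ)
    (hadj : ∀ i < n, G.Adj (y i) (y (i + 1))) (hnb : ∀ i, 1 ≤ i → i < n → y (i + 1) ≠ y (i - 1))
    (hadj' : ∀ i < n, G.Adj (y' i) (y' (i + 1)))
    (hnb' : ∀ i, 1 ≤ i → i < n → y' (i + 1) ≠ y' (i - 1)) (h0 : y 0 = y' 0) (hn : y n = y' n)
    (hne : ∃ k ≤ n, y k ≠ y' k) : G.egirth ≤ ((2 * n : ℕ) : ℕ∞) := by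
  classical
  have hex : ∃ k, k ≤ n ∧ y k ≠ y' k := hne
  obtain ⟨hr, hrne⟩ := Nat.find_spec hex
  set r := Nat.find hex with hrdef
  have hr0 : r ≠ 0 := by
    intro h
    rw [h] at hrne
    exact hrne h0
  have hr1 : y (r - 1) = y' (r - 1) := by
    by_contra h
    exact Nat.find_min hex (m := r - 1) (by omega) ⟨by omega, h⟩
  have hrn : r ≠ n := by
    intro h
    rw [h] at hrne
    exact hrne hn
  obtain ⟨a, ha⟩ : ∃ a, r = a + 1 := ⟨r - 1, by omega⟩
  rw [ha, Nat.add_sub_cancel] at hr1
  rw [ha] at hrne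
  have h1 := NB_of_fun y n hadj hnb a (n - a - 1) (by omega)
  have h2 := NB_of_fun y' n hadj' hnb' a (n - a - 1) (by omega)
  have e : a + (n - a - 1) + 1 = n := by omega
  rw [e] at h1 h2
  rw [← hr1, ← hn] at h2
  obtain ⟨l, hl, hnb3⟩ := closed_of_two hrne h1 h2
  obtain ⟨v, w, hw, hwl⟩ := exists_cycle hnb3
  refine (SimpleGraph.egirth_le_length hw).trans ?_
  exact_mod_cast (by omega : w.length ≤ 2 * n)

end walks

section sysOf

variable {K : Type*} [CommRing K] {m : ℕ}

/-- coordinates of the neighbour with first coordinate `w` -/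
def Nrec (f : (i : Fin m) → MvPolynomial (Fin (i : ℕ) ⊕ Fin (i : ℕ)) K) (σ : Bool) (i : ℕ) :
    MvPolynomial (Option (Fin m)) K :=
  if h : i < m then
    if i = 0 then X none
    else aeval (Sum.elim
      (fun k : Fin i => if σ then X (some ⟨k, k.2.trans h⟩) else Nrec f σ k)
      (fun k : Fin i => if σ then Nrec f σ k else X (some ⟨k, k.2.trans h⟩))) (f ⟨i, h⟩) -
      X (some ⟨i, h⟩)
  else 0
termination_by i
decreasing_by all_goals exact k.2

/-- Adjacency over an algebra. -/
def AdjE (f : (i : Fin m) → MvPolynomial (Fin (i : ℕ) ⊕ Fin (i : ℕ)) K) {E : Type*} [CommRing E]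
    [Algebra K E] (p l : Fin m → E) : Prop :=
  ∀ i : Fin m, 0 < (i : ℕ) → p i + l i =
    aeval (Sum.elim (fun k : Fin (i : ℕ) => p (Fin.castLE i.isLt.le k))
      (fun k : Fin (i : ℕ) => l (Fin.castLE i.isLt.le k))) (f i)

variable (f : (i : Fin m) → MvPolynomial (Fin (i : ℕ) ⊕ Fin (i : ℕ)) K)

theorem AdjE_iff_AlgAdj (p l : Fin m → K) : AdjE f p l ↔ AlgAdj f p l := by
  rw [AdjE, AlgAdj]
  simp only [MvPolynomial.aeval_eq_eval]

theorem AdjE_unique {E : Type*} [CommRing E] [Algebra K E] {p l p' l' : Fin m → E}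
    (h : AdjE f p l) (h' : AdjE f p' l') (hfst : ∀ i : Fin m, (i : ℕ) = 0 → p i = p' i ∧ l i = l' i)
    (hor : p = p' ∨ l = l') : p = p' ∧ l = l' := by
  have key : ∀ n : ℕ, ∀ hn : n < m, p ⟨n, hn⟩ = p' ⟨n, hn⟩ ∧ l ⟨n, hn⟩ = l' ⟨n, hn⟩ := by
    intro n
    induction n using Nat.strong_induction_on with
    | _ n ih =>
      intro hn
      rcases Nat.eq_zero_or_pos n with h0 | h0
      · exact hfst ⟨n, hn⟩ h0
      · have e1 := h ⟨n, hn⟩ h0
        have e2 := h' ⟨n, hn⟩ h0
        have e3 : (fun k : Fin n => p (Fin.castLE hn.le k)) =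
            fun k : Fin n => p' (Fin.castLE hn.le k) := by
          funext k
          exact (ih k k.2 _).1
        have e4 : (fun k : Fin n => l (Fin.castLE hn.le k)) =
            fun k : Fin n => l' (Fin.castLE hn.le k) := by
          funext k
          exact (ih k k.2 _).2
        have e5 : p ⟨n, hn⟩ + l ⟨n, hn⟩ = p' ⟨n, hn⟩ + l' ⟨n, hn⟩ := by
          rw [e1, e2]
          simp only
          rw [e3, e4]
        rcases hor with h3 | h3
        · refine ⟨by rw [h3], ?_⟩
          rw [h3] at e5
          exact add_left_cancel e5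
        · refine ⟨?_, by rw [h3]⟩
          rw [h3] at e5
          exact add_right_cancel e5
  constructor
  · funext i; exact (key i i.2).1
  · funext i; exact (key i i.2).2

variable [NeZero m]

theorem Nrec_zero (σ : Bool) : Nrec f σ 0 = X none := by
  rw [Nrec, dif_pos (Nat.pos_of_ne_zero (NeZero.ne m)), if_pos rfl]

omit [NeZero m] in
theorem Nrec_true (i : Fin m) (hi : 0 < (i : ℕ)) : Nrec f true i =
    aeval (Sum.elim (fun k : Fin (i : ℕ) => X (some (Fin.castLE i.isLt.le k)))
      (fun k : Fin (i : ℕ) => Nrec f true k)) (f i) - X (some i) := by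
  rw [Nrec, dif_pos i.2, if_neg (by omega)]
  simp only [if_true]
  rfl

omit [NeZero m] in
theorem Nrec_false (i : Fin m) (hi : 0 < (i : ℕ)) : Nrec f false i =
    aeval (Sum.elim (fun k : Fin (i : ℕ) => Nrec f false k)
      (fun k : Fin (i : ℕ) => X (some (Fin.castLE i.isLt.le k)))) (f i) - X (some i) := by
  rw [Nrec, dif_pos i.2, if_neg (by omega)]
  simp only [Bool.false_eq_true, if_false]
  rfl

section nbE

variable {E : Type*} [CommRing E] [Algebra K E]

/-- the neighbour, computed from the recursive formulas -/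
def nbE (σ : Bool) (v : Fin m → E) (w : E) : Fin m → E :=
  fun i => aeval (fun o : Option (Fin m) => o.elim w v) (Nrec f σ i)

theorem nbE_zero (σ : Bool) (v : Fin m → E) (w : E) : nbE f σ v w 0 = w := by
  have : ((0 : Fin m) : ℕ) = 0 := rfl
  rw [nbE, this, Nrec_zero, aeval_X]
  rfl

omit [NeZero m] in
theorem AdjE_nbE_true (v : Fin m → E) (w : E) : AdjE f v (nbE f true v w) := by
  intro i hi
  have h1 : nbE f true v w i = aeval (Sum.elim (fun k : Fin (i : ℕ) => v (Fin.castLE i.isLt.le k))
      (fun k : Fin (i : ℕ) => nbE f true v w (Fin.castLE i.isLt.le k))) (f i) - v i := by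
    rw [nbE, Nrec_true f i hi, map_sub, aeval_X, MvPolynomial.comp_aeval_apply]
    congr 1
    congr 2
    funext a
    rcases a with a | a
    · simp
    · rfl
  rw [h1]
  ring

omit [NeZero m] in
theorem AdjE_nbE_false (v : Fin m → E) (w : E) : AdjE f (nbE f false v w) v := by
  intro i hi
  have h1 : nbE f false v w i = aeval (Sum.elim
      (fun k : Fin (i : ℕ) => nbE f false v w (Fin.castLE i.isLt.le k))
      (fun k : Fin (i : ℕ) => v (Fin.castLE i.isLt.le k))) (f i) - v i := by
    rw [nbE, Nrec_false f i hi, map_sub, aeval_X, MvPolynomial.comp_aeval_apply]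
    congr 1
    congr 2
    funext a
    rcases a with a | a
    · rfl
    · simp
  rw [h1]
  ring

theorem nbE_nbE (σ : Bool) (v : Fin m → E) (w : E) :
    nbE f (!σ) (nbE f σ v w) (v 0) = v := by
  cases σ with
  | true =>
    have h1 := AdjE_nbE_true f v w
    have h2 := AdjE_nbE_false f (nbE f true v w) (v 0)
    exact (AdjE_unique f h2 h1 (fun i hi => by
      have : i = 0 := Fin.ext hi
      rw [this]
      exact ⟨nbE_zero f _ _ _, rfl⟩) (Or.inr rfl)).1
  | false =>
    have h1 := AdjE_nbE_false f v w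
    have h2 := AdjE_nbE_true f (nbE f false v w) (v 0)
    exact (AdjE_unique f h2 h1 (fun i hi => by
      have : i = 0 := Fin.ext hi
      rw [this]
      exact ⟨rfl, nbE_zero f _ _ _⟩) (Or.inl rfl)).2

end nbE

/-- The neighbourhood system of an algebraically defined graph. -/
def sysOf : Sys K m where
  N σ i := Nrec f σ i
  fst σ := Nrec_zero f σ
  inv σ i := by
    have h := congrFun (nbE_nbE f σ (fun i => (X (some i) : MvPolynomial (Option (Fin m)) K))
      (X none)) i
    have h1 : nbE f σ (fun i => (X (some i) : MvPolynomial (Option (Fin m)) K)) (X none) =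
        fun i : Fin m => Nrec f σ i := by
      funext j
      rw [nbE]
      have : (fun o : Option (Fin m) => o.elim (X none : MvPolynomial (Option (Fin m)) K)
          (fun i => X (some i))) = X := by
        funext o
        cases o <;> rfl
      rw [this, MvPolynomial.aeval_X_left]
      rfl
    rw [h1] at h
    exact h

theorem sysOf_nb {E : Type*} [CommRing E] [Algebra K E] (σ : Bool) (v : Fin m → E) (w : E) :
    (sysOf f).nb σ v w = nbE f σ v w := rfl

/-- the vertex of the graph of type `σ` with the given coordinates -/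
def vert (σ : Bool) (v : Fin m → K) : (Fin m → K) ⊕ (Fin m → K) :=
  if σ then Sum.inl v else Sum.inr v

omit [CommRing K] [NeZero m] in
theorem vert_injective (σ : Bool) : Function.Injective (vert (K := K) (m := m) σ) := by
  cases σ
  · intro a b h; simpa [vert] using h
  · intro a b h; simpa [vert] using h

theorem adj_vert (σ : Bool) (v : Fin m → K) (w : K) :
    (algGraph f).Adj (vert σ v) (vert (!σ) ((sysOf f).nb σ v w)) := by
  cases σ with
  | true =>
    have h := (AdjE_iff_AlgAdj f _ _).mp (AdjE_nbE_true f v w)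
    simp only [vert, if_true, Bool.not_true, Bool.false_eq_true, if_false]
    exact (algGraph_adj_inl_inr f _ _).mpr h
  | false =>
    have h := (AdjE_iff_AlgAdj f _ _).mp (AdjE_nbE_false f v w)
    simp only [vert, if_true, Bool.not_false, Bool.false_eq_true, if_false]
    exact (algGraph_adj_inr_inl f _ _).mpr h

/-- Large girth implies that non-backtracking walks are determined by their ends. -/
theorem inj_of_girth {n : ℕ} (h : ((2 * n : ℕ) : ℕ∞) < (algGraph f).egirth) :
    (sysOf f).Inj K n := by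
  intro σ v ω ω' h0 h0' ht ht' hw
  by_contra hcon
  push Not at hcon
  obtain ⟨k, hk, hne⟩ := hcon
  have key : ∀ ω : ℕ → K, ω 0 = v 0 → (∀ k, 1 ≤ k → k < n → ω (k + 1) ≠ ω (k - 1)) →
      (∀ i < n, (algGraph f).Adj (vert (ty σ i) ((sysOf f).walk σ v ω i))
        (vert (ty σ (i + 1)) ((sysOf f).walk σ v ω (i + 1)))) ∧
      (∀ i, 1 ≤ i → i < n → vert (ty σ (i + 1)) ((sysOf f).walk σ v ω (i + 1)) ≠
        vert (ty σ (i - 1)) ((sysOf f).walk σ v ω (i - 1))) := by
    intro ω h0 ht
    constructor
    · intro i _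
      rw [Sys.walk_succ, ty_succ]
      exact adj_vert f _ _ _
    · intro i h1 h2 heq
      have e : ty σ (i + 1) = ty σ (i - 1) := by
        have : i + 1 = (i - 1) + 2 := by omega
        rw [this, ty_add_two]
      rw [e] at heq
      have h3 := congrFun (vert_injective _ heq) 0
      rw [Sys.walk_fst _ _ _ _ h0, Sys.walk_fst _ _ _ _ h0] at h3
      exact ht i h1 h2 h3
  obtain ⟨a1, a2⟩ := key ω h0 ht
  obtain ⟨b1, b2⟩ := key ω' h0' ht'
  have h5 := cycle_of_two_walks (G := algGraph f)
    (fun i => vert (ty σ i) ((sysOf f).walk σ v ω i))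
    (fun i => vert (ty σ i) ((sysOf f).walk σ v ω' i)) n a1 a2 b1 b2 rfl (by
      rw [hw]) ⟨k, hk, fun heq => hne (by
      have h3 := congrFun (vert_injective _ heq) 0
      rwa [Sys.walk_fst _ _ _ _ h0, Sys.walk_fst _ _ _ _ h0'] at h3)⟩
  exact absurd h (not_lt.mpr h5)

end sysOf

/-- **Main theorem over algebraically closed fields of characteristic zero.** -/
theorem main_field {K : Type*} [Field K] [IsAlgClosed K] [CharZero K] {m : ℕ}
    (hm : m = 4 ∨ 6 ≤ m) (f : (i : Fin m) → MvPolynomial (Fin (i : ℕ) ⊕ Fin (i : ℕ)) K) :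
    (algGraph f).egirth ≤ ((2 * m : ℕ) : ℕ∞) := by
  by_contra hcon
  push Not at hcon
  have : NeZero m := ⟨by omega⟩
  have h1 : (sysOf f).Inj K m := inj_of_girth f hcon
  have h2 : (sysOf f).Inj K 2 := by
    apply inj_of_girth f
    refine lt_of_le_of_lt ?_ hcon
    exact_mod_cast (by omega : 2 * 2 ≤ 2 * m)
  have h3 := (sysOf f).main_sys (by omega) h1 h2
  omega

end Pool.Agent.Helper49.Girth
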