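import Pool.Agent.Helper49.Girth.Transfer

set_option autoImplicit false

/-! # Transfer of girth bounds from algebraically closed fields to finite fields,
uniformly in the characteristic -/

namespace Pool.Agent.Helper49.Girth

open MvPolynomial SimpleGraph Filter

universe u

section ultra2

variable (F E : ℕ → Type u) [∀ N, Field (F N)] [∀ N, Field (E N)] [∀ N, Algebra (F N) (E N)]
  (U : Ultrafilter ℕ)

/-- the product of the structure maps -/
def prodMap : ((N : ℕ) → F N) →+* ((N : ℕ) → E N) :=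
  RingHom.pi fun N => (algebraMap (F N) (E N)).comp (Pi.evalRingHom (fun N => F N) N)

theorem prodMap_apply (x : (N : ℕ) → F N) (N : ℕ) :
    prodMap F E x N = algebraMap (F N) (E N) (x N) := rfl

/-- the map of ultraproducts -/
def ultraMap : ((N : ℕ) → F N) ⧸ uI F U →+* ((N : ℕ) → E N) ⧸ uI E U :=
  Ideal.Quotient.lift (uI F U) ((Ideal.Quotient.mk (uI E U)).comp (prodMap F E)) (by
    intro x hx
    rw [RingHom.comp_apply, mk_eq_zero_iff]
    rw [mem_uI] at hx
    filter_upwards [hx] with N hN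
    rw [prodMap_apply, hN, map_zero])

theorem ultraMap_comp : (ultraMap F E U).comp (Ideal.Quotient.mk (uI F U)) =
    (Ideal.Quotient.mk (uI E U)).comp (prodMap F E) := by
  ext x
  simp [ultraMap]

/-- a monic polynomial of positive degree over the ultraproduct of the `F N` has a root in the
ultraproduct of the `E N` as soon as the degrees of the extensions are eventually divisible
by every positive integer -/
theorem ultra_root (hU : (U : Filter ℕ) ≤ cofinite) [∀ N, Finite (E N)]
    (hdvd : ∀ N, N.factorial ∣ Module.finrank (F N) (E N))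
    (p : Polynomial (((N : ℕ) → F N) ⧸ uI F U)) (hp : p.Monic) (hpos : 0 < p.natDegree) :
    ∃ x : ((N : ℕ) → E N) ⧸ uI E U, p.eval₂ (ultraMap F E U) x = 0 := by
  classical
  obtain ⟨q, hq, hdeg, hqm⟩ := Polynomial.lifts_and_natDegree_eq_and_monic
    (f := Ideal.Quotient.mk (uI F U)) (p := p)
    ((Polynomial.lifts_iff_coeff_lifts _).2 fun n => Ideal.Quotient.mk_surjective _) hp
  have hroot : ∀ N, ∃ x : E N, p.natDegree ≤ N →
      (q.map (Pi.evalRingHom (fun N => F N) N)).eval₂ (algebraMap (F N) (E N)) x = 0 := by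
    intro N
    by_cases hN : p.natDegree ≤ N
    swap
    · exact ⟨0, fun h => absurd h hN⟩
    set r := q.map (Pi.evalRingHom (fun N => F N) N) with hr
    have hrm : r.Monic := hqm.map _
    have hrd : r.natDegree = p.natDegree := by
      rw [hr, hqm.natDegree_map, hdeg]
    have hnu : ¬ IsUnit r := by
      intro h
      rw [hrm.isUnit_iff] at h
      rw [h, Polynomial.natDegree_one] at hrd
      omega
    obtain ⟨s, hs, hsr⟩ := WfDvdMonoid.exists_irreducible_factor hnu hrm.ne_zero
    have : Fact (Irreducible s) := ⟨hs⟩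
    have hsd : s.natDegree ≤ N := by
      refine le_trans (Polynomial.natDegree_le_of_dvd hsr hrm.ne_zero) ?_
      rw [hrd]; exact hN
    have hfin : Module.finrank (F N) (AdjoinRoot s) = s.natDegree := by
      rw [(AdjoinRoot.powerBasis hs.ne_zero).finrank, AdjoinRoot.powerBasis_dim]
    have hdv : Module.finrank (F N) (AdjoinRoot s) ∣ Module.finrank (F N) (E N) := by
      rw [hfin]
      exact (Nat.dvd_factorial hs.natDegree_pos hsd).trans (hdvd N)
    obtain ⟨ψ⟩ := FiniteField.nonempty_algHom_of_finrank_dvd (F := F N) (K := AdjoinRoot s)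
      (L := E N) hdv
    refine ⟨ψ (AdjoinRoot.root s), fun _ => ?_⟩
    obtain ⟨t, ht⟩ := hsr
    have h1 : s.eval₂ (algebraMap (F N) (E N)) (ψ (AdjoinRoot.root s)) = 0 := by
      have h2 : Polynomial.aeval (ψ (AdjoinRoot.root s)) s = ψ (Polynomial.aeval
        (AdjoinRoot.root s) s) := Polynomial.aeval_algHom_apply ψ _ _
      rw [AdjoinRoot.aeval_eq, AdjoinRoot.mk_self, map_zero] at h2
      exact h2
    rw [ht, Polynomial.eval₂_mul, h1, zero_mul]
  choose x hx using hroot
  refine ⟨Ideal.Quotient.mk _ x, ?_⟩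
  have h1 : p.eval₂ (ultraMap F E U) (Ideal.Quotient.mk (uI E U) x) =
      Ideal.Quotient.mk (uI E U) (q.eval₂ (prodMap F E) x) := by
    rw [← hq, Polynomial.eval₂_map, ultraMap_comp, ← Polynomial.hom_eval₂]
  rw [h1, mk_eq_zero_iff]
  have h2 : ∀ᶠ N in (U : Filter ℕ), p.natDegree ≤ N := by
    apply hU
    rw [Nat.cofinite_eq_atTop]
    exact eventually_ge_atTop _
  filter_upwards [h2] with N hN
  have h3 := hx N hN
  rw [Polynomial.eval₂_map] at h3
  have h4 := Polynomial.hom_eval₂ q (prodMap F E) (Pi.evalRingHom (fun N => E N) N) x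
  have h5 : (Pi.evalRingHom (fun N => E N) N).comp (prodMap F E) =
      (algebraMap (F N) (E N)).comp (Pi.evalRingHom (fun N => F N) N) := by
    ext y
    rfl
  rw [h5] at h4
  exact h4.trans h3

end ultra2

/-- Transfer from algebraically closed fields to finite fields, with a divisibility condition on
the degree of the extension that depends only on the number and the degrees of the equations. -/
theorem transfer2 (m : ℕ)
    (H : ∀ (K : Type u) [Field K] [IsAlgClosed K]
      (f : (i : Fin m) → MvPolynomial (Fin (i : ℕ) ⊕ Fin (i : ℕ)) K),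
      (algGraph f).egirth ≤ ((2 * m : ℕ) : ℕ∞)) (d : ℕ) :
    ∃ n₀ : ℕ, 0 < n₀ ∧ ∀ (F : Type u) [Field F] [Finite F]
      (f : (i : Fin m) → MvPolynomial (Fin (i : ℕ) ⊕ Fin (i : ℕ)) F),
        (∀ i, (f i).totalDegree ≤ d) →
        ∀ (E : Type u) [Field E] [Algebra F E] [Finite E],
          n₀ ∣ Module.finrank F E →
          (algGraph fun i => MvPolynomial.map (algebraMap F E) (f i)).egirth ≤
            ((2 * m : ℕ) : ℕ∞) := by
  by_contra hcon
  push Not at hcon
  choose F fF finF g hdeg E fE aE finE hdvd hbad using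
    fun N : ℕ => hcon N.factorial (Nat.factorial_pos N)
  let U : Ultrafilter ℕ := hyperfilter ℕ
  have hU : (U : Filter ℕ) ≤ cofinite := hyperfilter_le_cofinite
  choose f hf using fun i => exists_lift_poly F (fun N => g N i) d fun N => hdeg N i
  let _ : Algebra (((N : ℕ) → F N) ⧸ uI F U) (((N : ℕ) → E N) ⧸ uI E U) :=
    (ultraMap F E U).toAlgebra
  have hac : IsAlgClosure (((N : ℕ) → F N) ⧸ uI F U)
      (algebraicClosure (((N : ℕ) → F N) ⧸ uI F U) (((N : ℕ) → E N) ⧸ uI E U)) := by
    refine IsAlgClosure.of_exists_root fun p hp hirr => ?_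
    obtain ⟨x, hx⟩ := ultra_root F E U hU hdvd p hp hirr.natDegree_pos
    have hx' : Polynomial.aeval x p = 0 := hx
    have hint : IsIntegral (((N : ℕ) → F N) ⧸ uI F U) x := ⟨p, hp, hx'⟩
    refine ⟨⟨x, mem_algebraicClosure_iff'.2 hint⟩, ?_⟩
    apply Subtype.ext
    have h1 := Polynomial.aeval_algHom_apply
      (algebraicClosure (((N : ℕ) → F N) ⧸ uI F U) (((N : ℕ) → E N) ⧸ uI E U)).val
      ⟨x, mem_algebraicClosure_iff'.2 hint⟩ p
    exact h1.symm.trans hx'
  have hac' : IsAlgClosed
      (algebraicClosure (((N : ℕ) → F N) ⧸ uI F U) (((N : ℕ) → E N) ⧸ uI E U)) :=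
    hac.isAlgClosed
  obtain ⟨n, hn, hnm, h⟩ := egirth_le_iff.1
    (H (algebraicClosure (((N : ℕ) → F N) ⧸ uI F U) (((N : ℕ) → E N) ⧸ uI E U)) fun i =>
      MvPolynomial.map (algebraMap (((N : ℕ) → F N) ⧸ uI F U)
        (algebraicClosure (((N : ℕ) → F N) ⧸ uI F U) (((N : ℕ) → E N) ⧸ uI E U)))
        (MvPolynomial.map (Ideal.Quotient.mk (uI F U)) (f i)))
  have h2 := contained_map (algebraMap (algebraicClosure (((N : ℕ) → F N) ⧸ uI F U)
    (((N : ℕ) → E N) ⧸ uI E U)) (((N : ℕ) → E N) ⧸ uI E U))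
    (algebraMap (algebraicClosure (((N : ℕ) → F N) ⧸ uI F U)
    (((N : ℕ) → E N) ⧸ uI E U)) (((N : ℕ) → E N) ⧸ uI E U)).injective _ h
  have h3 : ∀ i, MvPolynomial.map (algebraMap (algebraicClosure (((N : ℕ) → F N) ⧸ uI F U)
    (((N : ℕ) → E N) ⧸ uI E U)) (((N : ℕ) → E N) ⧸ uI E U))
      (MvPolynomial.map (algebraMap (((N : ℕ) → F N) ⧸ uI F U)
        (algebraicClosure (((N : ℕ) → F N) ⧸ uI F U) (((N : ℕ) → E N) ⧸ uI E U)))
        (MvPolynomial.map (Ideal.Quotient.mk (uI F U)) (f i))) =
      MvPolynomial.map (Ideal.Quotient.mk (uI E U)) (MvPolynomial.map (prodMap F E) (f i)) := by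
    intro i
    rw [MvPolynomial.map_map, MvPolynomial.map_map, MvPolynomial.map_map,
      ← IsScalarTower.algebraMap_eq, ← ultraMap_comp]
    rfl
  simp only [h3] at h2
  obtain ⟨N, hN⟩ := ultra_graph E U (fun i => MvPolynomial.map (prodMap F E) (f i)) h2
  have h4 : ∀ i, MvPolynomial.map (Pi.evalRingHom (fun N => E N) N)
      (MvPolynomial.map (prodMap F E) (f i)) =
      MvPolynomial.map (algebraMap (F N) (E N)) (g N i) := by
    intro i
    rw [← hf i N, MvPolynomial.map_map, MvPolynomial.map_map]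
    rfl
  simp only [h4] at hN
  exact absurd (egirth_le_iff.2 ⟨n, hn, hnm, hN⟩) (not_le.2 (hbad N))

end Pool.Agent.Helper49.Girth
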