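import Pool.Agent.Helper49.Girth.Defs

set_option autoImplicit false

/-! # Transfer of girth bounds from characteristic zero to large characteristic -/

namespace Pool.Agent.Helper49.Girth

open MvPolynomial SimpleGraph Filter

universe u

/-! ### Girth and finite subgraphs -/

theorem egirth_le_iff {V : Type*} {G : SimpleGraph V} {N : ℕ} :
    G.egirth ≤ (N : ℕ∞) ↔ ∃ n, 2 < n ∧ n ≤ N ∧ cycleGraph n ⊑ G := by
  constructor
  · intro h
    have h1 : ¬ G.IsAcyclic := by
      rw [← egirth_eq_top]
      intro h2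
      rw [h2] at h
      exact absurd h (by simp)
    obtain ⟨a, w, hw, hl⟩ := exists_egirth_eq_length.2 h1
    rw [hl] at h
    refine ⟨w.length, hw.three_le_length, by exact_mod_cast h, ?_⟩
    exact (cycleGraph_isContained_iff hw.three_le_length).2 ⟨a, w, hw, rfl⟩
  · rintro ⟨n, hn, hnN, h⟩
    obtain ⟨v, p, hp, hl⟩ := (cycleGraph_isContained_iff hn).1 h
    refine (egirth_le_length hp).trans ?_
    rw [hl]
    exact_mod_cast hnN

section vmap

variable {R S : Type*} {m : ℕ}

/-- the map of vertices induced by a map of rings -/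
def vmap (φ : R → S) (x : (Fin m → R) ⊕ (Fin m → R)) : (Fin m → S) ⊕ (Fin m → S) :=
  Sum.map (fun p i => φ (p i)) (fun p i => φ (p i)) x

theorem vmap_inj {φ : R → S} (hφ : Function.Injective φ) :
    Function.Injective (vmap (m := m) φ) := by
  refine Function.Injective.sumMap ?_ ?_ <;>
  · intro p q h
    funext i
    exact hφ (congrFun h i)

theorem vmap_surj {φ : R → S} (hφ : Function.Surjective φ) :
    Function.Surjective (vmap (m := m) φ) := by
  refine Function.Surjective.sumMap ?_ ?_ <;>
  · intro p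
    choose q hq using fun i => hφ (p i)
    exact ⟨q, funext hq⟩

variable [CommRing R] [CommRing S]

/-- the defect of the `i`-th incidence equation -/
noncomputable def defect (f : (i : Fin m) → MvPolynomial (Fin (i : ℕ) ⊕ Fin (i : ℕ)) R)
    (p l : Fin m → R) (i : Fin m) : R :=
  p i + l i - eval (Sum.elim (fun k : Fin (i : ℕ) => p (Fin.castLE i.isLt.le k))
      (fun k : Fin (i : ℕ) => l (Fin.castLE i.isLt.le k))) (f i)

theorem algAdj_iff (f : (i : Fin m) → MvPolynomial (Fin (i : ℕ) ⊕ Fin (i : ℕ)) R)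
    (p l : Fin m → R) : AlgAdj f p l ↔ ∀ i : Fin m, 0 < (i : ℕ) → defect f p l i = 0 := by
  unfold AlgAdj defect
  simp only [sub_eq_zero]

theorem defect_map (φ : R →+* S)
    (f : (i : Fin m) → MvPolynomial (Fin (i : ℕ) ⊕ Fin (i : ℕ)) R) (p l : Fin m → R)
    (i : Fin m) :
    defect (fun i => MvPolynomial.map φ (f i)) (fun i => φ (p i)) (fun i => φ (l i)) i =
      φ (defect f p l i) := by
  unfold defect
  rw [map_sub, map_add]
  congr 1
  rw [eval_map, ← eval₂_id, eval₂_comp_left, RingHom.comp_id]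
  congr 1
  funext k
  rcases k with k | k <;> rfl

/-- the incidence of two vertices as a finite conjunction of equations -/
theorem adj_map_iff (φ : R →+* S)
    (f : (i : Fin m) → MvPolynomial (Fin (i : ℕ) ⊕ Fin (i : ℕ)) R)
    (p l : Fin m → R) :
    (algGraph fun i => MvPolynomial.map φ (f i)).Adj (Sum.inl fun i => φ (p i))
      (Sum.inr fun i => φ (l i)) ↔ ∀ i : Fin m, 0 < (i : ℕ) → φ (defect f p l i) = 0 := by
  rw [algGraph_adj_inl_inr, algAdj_iff]
  simp only [defect_map]

theorem adj_vmap (φ : R →+* S) (hφ : Function.Injective φ)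
    (f : (i : Fin m) → MvPolynomial (Fin (i : ℕ) ⊕ Fin (i : ℕ)) R)
    (x y : (Fin m → R) ⊕ (Fin m → R)) :
    (algGraph fun i => MvPolynomial.map φ (f i)).Adj (vmap φ x) (vmap φ y) ↔
      (algGraph f).Adj x y := by
  have key : ∀ p l : Fin m → R,
      (algGraph fun i => MvPolynomial.map φ (f i)).Adj (Sum.inl fun i => φ (p i))
      (Sum.inr fun i => φ (l i)) ↔ (algGraph f).Adj (Sum.inl p) (Sum.inr l) := by
    intro p l
    rw [adj_map_iff, algGraph_adj_inl_inr, algAdj_iff]
    simp only [map_eq_zero_iff φ hφ]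
  rcases x with p | l <;> rcases y with p' | l'
  · simp only [vmap, Sum.map_inl]
    exact iff_of_false (algGraph_not_adj_inl_inl _ _ _) (algGraph_not_adj_inl_inl _ _ _)
  · exact key p l'
  · have := key p' l
    rw [adj_comm, (algGraph f).adj_comm]
    exact this
  · simp only [vmap, Sum.map_inr]
    exact iff_of_false (algGraph_not_adj_inr_inr _ _ _) (algGraph_not_adj_inr_inr _ _ _)

/-- pushing a finite subgraph forward along an injective homomorphism -/
theorem contained_map (φ : R →+* S) (hφ : Function.Injective φ)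
    (f : (i : Fin m) → MvPolynomial (Fin (i : ℕ) ⊕ Fin (i : ℕ)) R) {n : ℕ}
    (h : cycleGraph n ⊑ algGraph f) :
    cycleGraph n ⊑ algGraph fun i => MvPolynomial.map φ (f i) := by
  obtain ⟨c⟩ := h
  exact ⟨⟨⟨fun a => vmap φ (c a), fun {a b} hab => (adj_vmap φ hφ f _ _).2 (c.toHom.map_adj hab)⟩,
    (vmap_inj hφ).comp c.injective⟩⟩

end vmap

/-! ### From the algebraic closure to finite extensions -/

theorem closure_step {m : ℕ} {F : Type u} [Field F]
    (f : (i : Fin m) → MvPolynomial (Fin (i : ℕ) ⊕ Fin (i : ℕ)) F)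
    (h : (algGraph fun i => MvPolynomial.map (algebraMap F (AlgebraicClosure F)) (f i)).egirth ≤
      ((2 * m : ℕ) : ℕ∞)) :
    ∃ n₀ : ℕ, 0 < n₀ ∧ ∀ (E : Type u) [Field E] [Algebra F E] [Finite E],
      n₀ ∣ Module.finrank F E →
      (algGraph fun i => MvPolynomial.map (algebraMap F E) (f i)).egirth ≤
        ((2 * m : ℕ) : ℕ∞) := by
  obtain ⟨n, hn, hnm, ⟨c⟩⟩ := egirth_le_iff.1 h
  -- coordinates of the cycle
  let co : ((Fin m → AlgebraicClosure F) ⊕ (Fin m → AlgebraicClosure F)) → Fin m →
    AlgebraicClosure F := fun x => Sum.elim id id x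
  let T : Set (AlgebraicClosure F) := Set.range fun q : Fin n × Fin m => co (c q.1) q.2
  have hT : T.Finite := Set.finite_range _
  let E₀ : IntermediateField F (AlgebraicClosure F) := IntermediateField.adjoin F T
  have hfin : FiniteDimensional F E₀ := by
    have : Finite T := hT
    exact IntermediateField.finiteDimensional_adjoin fun x _ =>
      (Algebra.IsAlgebraic.isAlgebraic (R := F) x).isIntegral
  -- lift to `E₀`
  have hlift : ∀ a : Fin n, ∃ x : (Fin m → E₀) ⊕ (Fin m → E₀),
      vmap (algebraMap E₀ (AlgebraicClosure F)) x = c a := by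
    intro a
    have hmem : ∀ i, co (c a) i ∈ E₀ := fun i =>
      IntermediateField.subset_adjoin F T ⟨(a, i), rfl⟩
    rcases hca : c a with p | l
    · have : ∀ i, p i ∈ E₀ := by
        intro i
        have := hmem i
        rw [hca] at this
        exact this
      exact ⟨Sum.inl fun i => ⟨p i, this i⟩, rfl⟩
    · have : ∀ i, l i ∈ E₀ := by
        intro i
        have := hmem i
        rw [hca] at this
        exact this
      exact ⟨Sum.inr fun i => ⟨l i, this i⟩, rfl⟩
  choose v hv using hlift
  have hinj : Function.Injective (algebraMap E₀ (AlgebraicClosure F)) :=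
    (algebraMap E₀ (AlgebraicClosure F)).injective
  have hmm : ∀ i, MvPolynomial.map (algebraMap F (AlgebraicClosure F)) (f i) =
      MvPolynomial.map (algebraMap E₀ (AlgebraicClosure F))
        (MvPolynomial.map (algebraMap F E₀) (f i)) := by
    intro i
    rw [MvPolynomial.map_map, ← IsScalarTower.algebraMap_eq]
  have h₀ : cycleGraph n ⊑ algGraph fun i => MvPolynomial.map (algebraMap F E₀) (f i) := by
    refine ⟨⟨⟨v, fun {a b} hab => ?_⟩, fun a b hab => ?_⟩⟩
    · have h1 := c.toHom.map_adj hab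
      have h2 : (algGraph fun i => MvPolynomial.map (algebraMap F (AlgebraicClosure F)) (f i)).Adj
        (c a) (c b) := h1
      rw [← hv a, ← hv b] at h2
      simp only [hmm] at h2
      exact (adj_vmap _ hinj _ _ _).1 h2
    · apply c.injective
      have hab' : v a = v b := hab
      show c a = c b
      rw [← hv a, ← hv b, hab']
  refine ⟨Module.finrank F E₀, Module.finrank_pos, fun E _ _ _ hdvd => ?_⟩
  obtain ⟨ψ⟩ := FiniteField.nonempty_algHom_of_finrank_dvd (F := F) (K := E₀) (L := E) hdvd
  refine egirth_le_iff.2 ⟨n, hn, hnm, ?_⟩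
  have h3 := contained_map ψ.toRingHom ψ.toRingHom.injective _ h₀
  have h4 : ∀ i, MvPolynomial.map ψ.toRingHom (MvPolynomial.map (algebraMap F E₀) (f i)) =
      MvPolynomial.map (algebraMap F E) (f i) := by
    intro i
    rw [MvPolynomial.map_map]
    have h5 : ψ.toRingHom.comp (algebraMap F E₀) = algebraMap F E := ψ.comp_algebraMap
    rw [h5]
  simpa only [h4] using h3

/-! ### Ultraproducts of fields -/

section ultra

variable (M : ℕ → Type u) [∀ N, Field (M N)] (U : Ultrafilter ℕ)

/-- the ideal of sequences that vanish almost everywhere -/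
def uI : Ideal ((N : ℕ) → M N) where
  carrier := {x | ∀ᶠ N in (U : Filter ℕ), x N = 0}
  add_mem' := by
    intro x y hx hy
    filter_upwards [hx, hy] with N h1 h2
    rw [Pi.add_apply, h1, h2, add_zero]
  zero_mem' := Eventually.of_forall fun _ => rfl
  smul_mem' := by
    intro c x hx
    filter_upwards [hx] with N h1
    rw [smul_eq_mul, Pi.mul_apply, h1, mul_zero]

theorem mem_uI {x : (N : ℕ) → M N} : x ∈ uI M U ↔ ∀ᶠ N in (U : Filter ℕ), x N = 0 := Iff.rfl

instance uI_max : (uI M U).IsMaximal := by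
  rw [Ideal.isMaximal_iff]
  constructor
  · intro h
    rw [mem_uI] at h
    obtain ⟨N, hN⟩ := h.exists
    exact one_ne_zero hN
  · intro J x hJ hx hxJ
    have h1 : ∀ᶠ N in (U : Filter ℕ), ¬ x N = 0 := by
      rw [Ultrafilter.eventually_not]
      exact hx
    have h2 : (fun N => (x N)⁻¹) * x - 1 ∈ J := by
      apply hJ
      rw [mem_uI]
      filter_upwards [h1] with N hN
      simp only [Pi.sub_apply, Pi.mul_apply, Pi.one_apply]
      rw [inv_mul_cancel₀ hN, sub_self]
    have h3 : (fun N => (x N)⁻¹) * x ∈ J := J.mul_mem_left _ hxJ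
    have h4 := J.sub_mem h3 h2
    rwa [sub_sub_cancel] at h4

noncomputable instance : Field (((N : ℕ) → M N) ⧸ uI M U) := Ideal.Quotient.field _

theorem mk_eq_zero_iff {x : (N : ℕ) → M N} :
    Ideal.Quotient.mk (uI M U) x = 0 ↔ ∀ᶠ N in (U : Filter ℕ), x N = 0 := by
  rw [Ideal.Quotient.eq_zero_iff_mem, mem_uI]

theorem ultra_closed [∀ N, IsAlgClosed (M N)] : IsAlgClosed (((N : ℕ) → M N) ⧸ uI M U) := by
  apply IsAlgClosed.of_exists_root
  intro p hp hirr
  obtain ⟨q, hq, hdeg, hqm⟩ := Polynomial.lifts_and_natDegree_eq_and_monic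
    (f := Ideal.Quotient.mk (uI M U)) (p := p)
    ((Polynomial.lifts_iff_coeff_lifts _).2 fun n => Ideal.Quotient.mk_surjective _) hp
  have hpos : 0 < p.natDegree := hirr.natDegree_pos
  have hroot : ∀ N, ∃ x : M N, (q.map (Pi.evalRingHom (fun N => M N) N)).eval x = 0 := by
    intro N
    apply IsAlgClosed.exists_root
    have h1 : (q.map (Pi.evalRingHom (fun N => M N) N)).natDegree = q.natDegree :=
      hqm.natDegree_map _
    intro h2
    have h3 : (q.map (Pi.evalRingHom (fun N => M N) N)).natDegree = 0 :=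
      Polynomial.natDegree_eq_of_degree_eq_some h2
    omega
  choose x hx using hroot
  refine ⟨Ideal.Quotient.mk _ x, ?_⟩
  have h1 : q.eval x = 0 := by
    funext N
    have h2 := hx N
    rw [Polynomial.eval_map] at h2
    have h3 := Polynomial.hom_eval₂ q (RingHom.id _) (Pi.evalRingHom (fun N => M N) N) x
    rw [RingHom.comp_id] at h3
    exact h3.trans h2
  rw [← hq, Polynomial.eval_map, Polynomial.eval₂_at_apply, h1, map_zero]

theorem ultra_char (hU : (U : Filter ℕ) ≤ cofinite) (hch : ∀ N, N < ringChar (M N)) :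
    CharZero (((N : ℕ) → M N) ⧸ uI M U) := by
  apply charZero_of_inj_zero
  intro k hk
  by_contra hk0
  have h1 : Ideal.Quotient.mk (uI M U) (k : (N : ℕ) → M N) = 0 := by
    rw [map_natCast]; exact hk
  rw [mk_eq_zero_iff] at h1
  have h2 : ∀ᶠ N in (U : Filter ℕ), k ≤ N := by
    apply hU
    rw [Nat.cofinite_eq_atTop]
    exact eventually_ge_atTop k
  obtain ⟨N, hN1, hN2⟩ := (h1.and h2).exists
  have h3 : ((k : ℕ) : M N) = 0 := hN1
  have h4 := (ringChar.spec (M N) k).1 h3
  have h5 := Nat.le_of_dvd (Nat.pos_of_ne_zero hk0) h4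
  have h6 := hch N
  omega

/-- lifting a family of polynomials of bounded degree to the product ring -/
theorem exists_lift_poly {σ : Type} [Finite σ] (g : (N : ℕ) → MvPolynomial σ (M N)) (d : ℕ)
    (hg : ∀ N, (g N).totalDegree ≤ d) :
    ∃ f : MvPolynomial σ ((N : ℕ) → M N),
      ∀ N, MvPolynomial.map (Pi.evalRingHom (fun N => M N) N) f = g N := by
  classical
  set s : Finset (σ →₀ ℕ) := (Finsupp.finite_of_degree_le (σ := σ) d).toFinset with hs
  refine ⟨∑ e ∈ s, monomial e fun N => coeff e (g N), fun N => ?_⟩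
  rw [map_sum]
  simp only [map_monomial, Pi.evalRingHom_apply]
  have h1 : (g N).support ⊆ s := by
    intro e he
    rw [hs, Set.Finite.mem_toFinset]
    have h2 := le_totalDegree he
    have h3 : e.degree = e.sum fun _ k => k := rfl
    show e.degree ≤ d
    rw [h3]
    exact h2.trans (hg N)
  conv_rhs => rw [(g N).as_sum]
  symm
  apply Finset.sum_subset h1
  intro e _ he
  rw [notMem_support_iff.1 he, monomial_zero]

/-- a finite subgraph over the ultraproduct comes from the factors -/
theorem ultra_graph {m : ℕ}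
    (f : (i : Fin m) → MvPolynomial (Fin (i : ℕ) ⊕ Fin (i : ℕ)) ((N : ℕ) → M N)) {n : ℕ}
    (h : cycleGraph n ⊑ algGraph fun i => MvPolynomial.map (Ideal.Quotient.mk (uI M U)) (f i)) :
    ∃ N, cycleGraph n ⊑
      algGraph fun i => MvPolynomial.map (Pi.evalRingHom (fun N => M N) N) (f i) := by
  obtain ⟨c⟩ := h
  choose v hv using fun a : Fin n =>
    vmap_surj (m := m) (Ideal.Quotient.mk_surjective (I := uI M U)) (c a)
  -- equality
  have heq : ∀ x y : (Fin m → (N : ℕ) → M N) ⊕ (Fin m → (N : ℕ) → M N),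
      (∀ᶠ N in (U : Filter ℕ), vmap (Pi.evalRingHom (fun N => M N) N) x =
        vmap (Pi.evalRingHom (fun N => M N) N) y) →
      vmap (Ideal.Quotient.mk (uI M U)) x = vmap (Ideal.Quotient.mk (uI M U)) y := by
    have key : ∀ p q : Fin m → (N : ℕ) → M N,
        (∀ᶠ N in (U : Filter ℕ), (fun i => p i N) = fun i => q i N) →
        ∀ i, Ideal.Quotient.mk (uI M U) (p i) = Ideal.Quotient.mk (uI M U) (q i) := by
      intro p q hpq i
      rw [← sub_eq_zero, ← map_sub, mk_eq_zero_iff]
      filter_upwards [hpq] with N hN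
      rw [Pi.sub_apply, sub_eq_zero]
      exact congrFun hN i
    rintro (p | p) (q | q) hxy
    · have h1 := key p q (hxy.mono fun N hN => Sum.inl_injective hN)
      exact congrArg Sum.inl (funext h1)
    · obtain ⟨N, hN⟩ := hxy.exists
      exact absurd hN (by simp [vmap])
    · obtain ⟨N, hN⟩ := hxy.exists
      exact absurd hN (by simp [vmap])
    · have h1 := key p q (hxy.mono fun N hN => Sum.inr_injective hN)
      exact congrArg Sum.inr (funext h1)
  -- adjacency
  have hadj : ∀ x y : (Fin m → (N : ℕ) → M N) ⊕ (Fin m → (N : ℕ) → M N),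
      (algGraph fun i => MvPolynomial.map (Ideal.Quotient.mk (uI M U)) (f i)).Adj
        (vmap (Ideal.Quotient.mk (uI M U)) x) (vmap (Ideal.Quotient.mk (uI M U)) y) →
      ∀ᶠ N in (U : Filter ℕ),
        (algGraph fun i => MvPolynomial.map (Pi.evalRingHom (fun N => M N) N) (f i)).Adj
          (vmap (Pi.evalRingHom (fun N => M N) N) x)
          (vmap (Pi.evalRingHom (fun N => M N) N) y) := by
    have key : ∀ p l : Fin m → (N : ℕ) → M N,
        (algGraph fun i => MvPolynomial.map (Ideal.Quotient.mk (uI M U)) (f i)).Adj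
          (Sum.inl fun i => Ideal.Quotient.mk (uI M U) (p i))
          (Sum.inr fun i => Ideal.Quotient.mk (uI M U) (l i)) →
        ∀ᶠ N in (U : Filter ℕ),
          (algGraph fun i => MvPolynomial.map (Pi.evalRingHom (fun N => M N) N) (f i)).Adj
            (Sum.inl fun i => Pi.evalRingHom (fun N => M N) N (p i))
            (Sum.inr fun i => Pi.evalRingHom (fun N => M N) N (l i)) := by
      intro p l h1
      rw [adj_map_iff] at h1
      have h2 : ∀ i : Fin m, ∀ᶠ N in (U : Filter ℕ), 0 < (i : ℕ) → defect f p l i N = 0 := by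
        intro i
        by_cases hi : 0 < (i : ℕ)
        · have h3 := (mk_eq_zero_iff M U).1 (h1 i hi)
          exact h3.mono fun N hN _ => hN
        · exact Eventually.of_forall fun N h => absurd h hi
      filter_upwards [eventually_all.2 h2] with N hN
      rw [adj_map_iff]
      intro i hi
      exact hN i hi
    rintro (p | p) (q | q) hxy
    · exact absurd hxy (algGraph_not_adj_inl_inl _ _ _)
    · exact key p q hxy
    · have h1 := key q p hxy.symm
      exact h1.mono fun N hN => hN.symm
    · exact absurd hxy (algGraph_not_adj_inr_inr _ _ _)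
  have h1 : ∀ a b : Fin n, ∀ᶠ N in (U : Filter ℕ), (cycleGraph n).Adj a b →
      (algGraph fun i => MvPolynomial.map (Pi.evalRingHom (fun N => M N) N) (f i)).Adj
          (vmap (Pi.evalRingHom (fun N => M N) N) (v a))
          (vmap (Pi.evalRingHom (fun N => M N) N) (v b)) := by
    intro a b
    by_cases hab : (cycleGraph n).Adj a b
    · have h2 : (algGraph fun i => MvPolynomial.map (Ideal.Quotient.mk (uI M U)) (f i)).Adj
        (c a) (c b) := c.toHom.map_adj hab
      rw [← hv a, ← hv b] at h2
      exact (hadj _ _ h2).mono fun N hN _ => hN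
    · exact Eventually.of_forall fun N h => absurd h hab
  have h2 : ∀ a b : Fin n, ∀ᶠ N in (U : Filter ℕ),
      vmap (Pi.evalRingHom (fun N => M N) N) (v a) =
        vmap (Pi.evalRingHom (fun N => M N) N) (v b) → a = b := by
    intro a b
    by_cases hab : a = b
    · exact Eventually.of_forall fun _ _ => hab
    · have h3 : ∀ᶠ N in (U : Filter ℕ), ¬ vmap (Pi.evalRingHom (fun N => M N) N) (v a) =
          vmap (Pi.evalRingHom (fun N => M N) N) (v b) := by
        rw [Ultrafilter.eventually_not]
        intro h4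
        have h5 := heq _ _ h4
        rw [hv a, hv b] at h5
        exact hab (c.injective h5)
      exact h3.mono fun N hN h => absurd h hN
  obtain ⟨N, hN1, hN2⟩ := ((eventually_all.2 fun a => eventually_all.2 (h1 a)).and
    (eventually_all.2 fun a => eventually_all.2 (h2 a))).exists
  exact ⟨N, ⟨⟨⟨fun a => vmap (Pi.evalRingHom (fun N => M N) N) (v a),
    fun {a b} hab => hN1 a b hab⟩, fun a b hab => hN2 a b hab⟩⟩⟩

end ultra

/-- uniform bound over algebraically closed fields of large characteristic -/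
theorem closed_step (m : ℕ)
    (H : ∀ (K : Type u) [Field K] [IsAlgClosed K] [CharZero K]
      (f : (i : Fin m) → MvPolynomial (Fin (i : ℕ) ⊕ Fin (i : ℕ)) K),
      (algGraph f).egirth ≤ ((2 * m : ℕ) : ℕ∞)) (d : ℕ) :
    ∃ N : ℕ, ∀ (M : Type u) [Field M] [IsAlgClosed M], N < ringChar M →
      ∀ g : (i : Fin m) → MvPolynomial (Fin (i : ℕ) ⊕ Fin (i : ℕ)) M,
        (∀ i, (g i).totalDegree ≤ d) → (algGraph g).egirth ≤ ((2 * m : ℕ) : ℕ∞) := by
  by_contra hcon
  push Not at hcon
  choose M fM acM hch g hdeg hbad using hcon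
  let U : Ultrafilter ℕ := hyperfilter ℕ
  have hU : (U : Filter ℕ) ≤ cofinite := hyperfilter_le_cofinite
  choose f hf using fun i => exists_lift_poly M (fun N => g N i) d fun N => hdeg N i
  have : IsAlgClosed (((N : ℕ) → M N) ⧸ uI M U) := ultra_closed M U
  have : CharZero (((N : ℕ) → M N) ⧸ uI M U) := ultra_char M U hU hch
  obtain ⟨n, hn, hnm, h⟩ := egirth_le_iff.1
    (H (((N : ℕ) → M N) ⧸ uI M U) fun i => MvPolynomial.map (Ideal.Quotient.mk (uI M U)) (f i))
  obtain ⟨N, hN⟩ := ultra_graph M U f h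
  simp only [hf] at hN
  exact absurd (egirth_le_iff.2 ⟨n, hn, hnm, hN⟩) (not_le.2 (hbad N))

/-- Transfer from algebraically closed fields of characteristic zero to finite fields of large
characteristic. -/
theorem transfer (m : ℕ)
    (H : ∀ (K : Type u) [Field K] [IsAlgClosed K] [CharZero K]
      (f : (i : Fin m) → MvPolynomial (Fin (i : ℕ) ⊕ Fin (i : ℕ)) K),
      (algGraph f).egirth ≤ ((2 * m : ℕ) : ℕ∞)) (d : ℕ) :
    ∃ N : ℕ, ∀ (F : Type u) [Field F] [Finite F], N < ringChar F →
      ∀ f : (i : Fin m) → MvPolynomial (Fin (i : ℕ) ⊕ Fin (i : ℕ)) F,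
        (∀ i, (f i).totalDegree ≤ d) →
        ∃ n₀ : ℕ, 0 < n₀ ∧ ∀ (E : Type u) [Field E] [Algebra F E] [Finite E],
          n₀ ∣ Module.finrank F E →
          (algGraph fun i => MvPolynomial.map (algebraMap F E) (f i)).egirth ≤
            ((2 * m : ℕ) : ℕ∞) := by
  obtain ⟨N, hN⟩ := closed_step m H d
  refine ⟨N, fun F _ _ hF f hf => closure_step f (hN _ ?_ _ fun i => ?_)⟩
  · rwa [← Algebra.ringChar_eq F (AlgebraicClosure F)]
  · exact le_trans (Finset.sup_mono (support_map_subset _ _)) (hf i)

end Pool.Agent.Helper49.Girth
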